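import Pool.Agent.CTC.Defs

/-! Semilinear version of `SLN/FacB.lean` (helper60): adapted bases (helper31 for helper47). -/

set_option autoImplicit false

namespace Pool.Agent.CTC

open Module

/-- the state: `h 0, …, h (k-1)` is a basis of `U`, `I` is injective on `U`, and for `j + 1 < k`
`A (h j) ∈ U` with `I (A (h j)) = Θ (I (h (j+1)))`; `I (h 0) = e` -/
structure BSt {F E V : Type*} [Field F] [AddCommGroup E] [Module F E] [AddCommGroup V] [Module F V]
    (A : V →+ V) (Θ : E →+ E) (e : E) (k : ℕ) (U : Submodule F V) (I : V →ₗ[F] E) (h : ℕ → V) :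
    Prop where
  inj : ∀ u ∈ U, I u = 0 → u = 0
  mem : ∀ j < k, h j ∈ U
  span : ∀ u ∈ U, ∃ a : ℕ → F, u = ∑ j ∈ Finset.range k, a j • h j
  ind : ∀ a : ℕ → F, ∑ j ∈ Finset.range k, a j • h j = 0 → ∀ j < k, a j = 0
  stepU : ∀ j, j + 1 < k → A (h j) ∈ U
  stepI : ∀ j, j + 1 < k → I (A (h j)) = Θ (I (h (j + 1)))
  st0 : 0 < k → I (h 0) = e

/-- extension of a state by one vector -/
lemma b_ext {F E V : Type*} [Field F] [AddCommGroup E] [Module F E] [AddCommGroup V] [Module F V]
    (A : V →+ V) (Θ : E →+ E) (e : E) (k : ℕ) (U : Submodule F V) (ξ : V →ₗ[F] F)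
    (I : V →ₗ[F] E) (h : ℕ → V) (hst : BSt A Θ e k (U ⊓ LinearMap.ker ξ) I h)
    (hAU : ∀ u ∈ U, ξ u = 0 → A u ∈ U) (hs : V) (hsU : hs ∈ U) (hξ : ξ hs ≠ 0) (ηs : E)
    (hη : ∀ u ∈ U, ξ u = 0 → I u ≠ ηs) (hk0 : k = 0 → ηs = e)
    (hcomp : ∀ j, j + 1 = k → ∃ (a : F) (v : V), v ∈ U ∧ ξ v = 0 ∧ A (h j) = a • hs + v ∧
      Θ ηs = a • ηs + I v) :
    ∃ (I' : V →ₗ[F] E) (h' : ℕ → V), BSt A Θ e (k + 1) U I' h' := by
  have hm : ∀ u, u ∈ U ⊓ LinearMap.ker ξ ↔ u ∈ U ∧ ξ u = 0 := by
    intro u
    rw [Submodule.mem_inf, LinearMap.mem_ker]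
  let I' : V →ₗ[F] E := I + (LinearMap.toSpanSingleton F E ((ξ hs)⁻¹ • (ηs - I hs))).comp ξ
  have hI' : ∀ u, I' u = I u + ξ u • ((ξ hs)⁻¹ • (ηs - I hs)) := by
    intro u
    simp [I']
  have hI0 : ∀ u, ξ u = 0 → I' u = I u := by
    intro u hu
    rw [hI', hu, zero_smul, add_zero]
  have hIs : I' hs = ηs := by
    rw [hI', smul_smul, mul_inv_cancel₀ hξ, one_smul]
    abel
  let h' : ℕ → V := Function.update h k hs
  have hh1 : ∀ j, j < k → h' j = h j := by
    intro j hj
    exact Function.update_of_ne (ne_of_lt hj) _ _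
  have hh2 : h' k = hs := Function.update_self _ _ _
  have hU1 : ∀ j, j < k → h j ∈ U ∧ ξ (h j) = 0 := fun j hj => (hm _).1 (hst.mem j hj)
  have hsplit : ∀ u ∈ U, ∃ (a : F) (w : V), w ∈ U ∧ ξ w = 0 ∧ u = w + a • hs := by
    intro u hu
    refine ⟨ξ u * (ξ hs)⁻¹, u - (ξ u * (ξ hs)⁻¹) • hs, U.sub_mem hu (U.smul_mem _ hsU), ?_, ?_⟩
    · rw [map_sub, map_smul, smul_eq_mul, mul_assoc, inv_mul_cancel₀ hξ, mul_one, sub_self]
    · abel
  have hsum : ∀ a : ℕ → F, ∑ j ∈ Finset.range k, a j • h' j =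
      ∑ j ∈ Finset.range k, a j • h j := by
    intro a
    apply Finset.sum_congr rfl
    intro j hj
    rw [hh1 j (Finset.mem_range.1 hj)]
  refine ⟨I', h', ?_, ?_, ?_, ?_, ?_, ?_, ?_⟩
  · intro u hu hIu
    obtain ⟨a, w, hwU, hw0, rfl⟩ := hsplit u hu
    by_cases ha : a = 0
    · subst ha
      rw [zero_smul, add_zero] at hIu ⊢
      rw [hI0 w hw0] at hIu
      exact hst.inj w ((hm w).2 ⟨hwU, hw0⟩) hIu
    · exfalso
      rw [map_add, map_smul, hIs, hI0 w hw0] at hIu
      apply hη ((-a⁻¹) • w) (U.smul_mem _ hwU) (by rw [map_smul, hw0, smul_zero])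
      rw [map_smul]
      have h1 : I w = -(a • ηs) := eq_neg_of_add_eq_zero_left hIu
      rw [h1, smul_neg, neg_smul, neg_neg, smul_smul, inv_mul_cancel₀ ha, one_smul]
  · intro j hj
    rcases Nat.lt_succ_iff_lt_or_eq.1 hj with h1 | h1
    · rw [hh1 j h1]; exact (hU1 j h1).1
    · rw [h1, hh2]; exact hsU
  · intro u hu
    obtain ⟨a, w, hwU, hw0, rfl⟩ := hsplit u hu
    obtain ⟨c, hc⟩ := hst.span w ((hm w).2 ⟨hwU, hw0⟩)
    refine ⟨Function.update c k a, ?_⟩
    rw [Finset.sum_range_succ, hh2, Function.update_self, hc]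
    congr 1
    apply Finset.sum_congr rfl
    intro j hj
    have hjk := Finset.mem_range.1 hj
    rw [hh1 j hjk, Function.update_of_ne (ne_of_lt hjk)]
  · intro a ha
    rw [Finset.sum_range_succ, hh2, hsum] at ha
    have h1 : ξ (∑ j ∈ Finset.range k, a j • h j) = 0 := by
      rw [map_sum]
      apply Finset.sum_eq_zero
      intro j hj
      rw [map_smul, (hU1 j (Finset.mem_range.1 hj)).2, smul_zero]
    have h2 : a k = 0 := by
      have h3 := congrArg ξ ha
      rw [map_add, h1, zero_add, map_smul, map_zero, smul_eq_mul] at h3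
      exact (mul_eq_zero.1 h3).resolve_right hξ
    rw [h2, zero_smul, add_zero] at ha
    intro j hj
    rcases Nat.lt_succ_iff_lt_or_eq.1 hj with h3 | h3
    · exact hst.ind a ha j h3
    · rw [h3]; exact h2
  · intro j hj
    have hjk : j < k := by omega
    rw [hh1 j hjk]
    exact hAU _ (hU1 j hjk).1 (hU1 j hjk).2
  · intro j hj
    have hjk : j < k := by omega
    rw [hh1 j hjk]
    by_cases h1 : j + 1 < k
    · have h2 := (hm _).1 (hst.stepU j h1)
      rw [hI0 _ h2.2, hst.stepI j h1, hh1 _ h1, hI0 _ (hU1 _ h1).2]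
    · have h2 : j + 1 = k := by omega
      obtain ⟨a, v, hvU, hv0, h3, h4⟩ := hcomp j h2
      rw [h3, map_add, map_smul, hIs, hI0 v hv0, h2, hh2, hIs, h4]
  · intro _
    rcases Nat.eq_zero_or_pos k with h1 | h1
    · have h2 : h' 0 = hs := by rw [← h1]; exact hh2
      rw [h2, hIs, hk0 h1]
    · rw [hh1 0 h1, hI0 _ (hU1 0 h1).2, hst.st0 h1]

/-- an injective additive map whose image of a finite subspace contains it preserves it -/
lemma b_fin {F E : Type*} [Field F] [AddCommGroup E] [Module F E] [Finite E] (T : E →+ E)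
    (hT : Function.Injective T) (W : Submodule F E) (hW : ∀ w ∈ W, ∃ w' ∈ W, T w' = w) :
    ∀ w ∈ W, T w ∈ W := by
  have h1 : (W : Set E) ⊆ T '' (W : Set E) := fun w hw => hW w hw
  have h2 : (T '' (W : Set E)).ncard = (W : Set E).ncard := Set.ncard_image_of_injective _ hT
  have h3 : (W : Set E) = T '' (W : Set E) :=
    Set.eq_of_subset_of_ncard_le h1 h2.le (Set.toFinite _)
  intro w hw
  have h4 : T w ∈ T '' (W : Set E) := ⟨w, hw, rfl⟩
  rw [← h3] at h4
  exact h4

/-- an additive map `T` of a finite module with `T⁻¹ W ⊆ W` preserves `W` -/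
lemma b_fin2 {F E : Type*} [Field F] [AddCommGroup E] [Module F E] [Finite E] (T : E →+ E)
    (W : Submodule F E) (hW : ∀ y, T y ∈ W → y ∈ W) : ∀ w ∈ W, T w ∈ W := by
  let q : E →+ E ⧸ W.toAddSubgroup := (QuotientAddGroup.mk' W.toAddSubgroup).comp T
  have hq : ∀ z, z ∈ q.ker ↔ T z ∈ W := by
    intro z
    rw [AddMonoidHom.mem_ker]
    exact QuotientAddGroup.eq_zero_iff (T z)
  have h1 : q.ker ≤ W.toAddSubgroup := fun z hz => hW z ((hq z).1 hz)
  have h2 := AddSubgroup.relIndex_mul_index h1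
  have h3 : q.ker.index ≤ W.toAddSubgroup.index := by
    rw [AddSubgroup.index_ker]
    exact AddSubgroup.card_le_card_addGroup _
  have h4 : 0 < W.toAddSubgroup.index :=
    Nat.pos_of_ne_zero AddSubgroup.index_ne_zero_of_finite
  have h5 : q.ker.relIndex W.toAddSubgroup ≠ 0 := by
    intro h
    rw [h, zero_mul] at h2
    exact AddSubgroup.index_ne_zero_of_finite h2.symm
  have h6 : q.ker.relIndex W.toAddSubgroup = 1 := by
    rw [← h2] at h3
    have h7 : q.ker.relIndex W.toAddSubgroup * W.toAddSubgroup.index ≤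
        1 * W.toAddSubgroup.index := by rw [one_mul]; exact h3
    have h8 := Nat.le_of_mul_le_mul_right h7 h4
    omega
  rw [AddSubgroup.relIndex_eq_one] at h6
  intro w hw
  exact (hq w).1 (h6 hw)

/-- the adapted basis of a subspace -/
lemma b_build {F E V : Type*} [Field F] [Finite F] [AddCommGroup E] [Module F E]
    [FiniteDimensional F E] [AddCommGroup V] [Module F V] [FiniteDimensional F V]
    (σ τ : F ≃+* F) (A : V →+ V) (hA : SL τ A) (hAi : Function.Injective A)
    (Θ : E →+ E) (hΘ : SL σ Θ) (hΘi : Function.Injective Θ) (e : E)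
    (he : ∀ W : Submodule F E, e ∈ W → (∀ w ∈ W, Θ w ∈ W) → W = ⊤)
    (h1E : 1 ≤ finrank F E) :
    ∀ k : ℕ, k ≤ finrank F E → ∀ U : Submodule F V, finrank F U = k →
      (∃ (U' : Submodule F V) (ξ : V →ₗ[F] F), (∀ u, u ∈ U' → ξ u = 0 → u ∈ U) ∧
        ∀ u ∈ U, A u ∈ U') →
      ∃ (I : V →ₗ[F] E) (h : ℕ → V), BSt A Θ e k U I h := by
  have hfE : Finite E := Module.finite_of_finite F
  have hfV : Finite V := Module.finite_of_finite F
  have hΘs : Function.Surjective Θ := Finite.injective_iff_surjective.1 hΘi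
  -- the map `Θ - 1`
  let T1 : E →+ E := Θ - AddMonoidHom.id E
  have hT1 : ∀ z, T1 z = Θ z - z := fun z => rfl
  have he0 : e ≠ 0 := by
    intro h0
    have h1 := he ⊥ (by rw [h0]; exact Submodule.zero_mem _) (by
      intro w hw
      rw [(Submodule.mem_bot F).1 hw, map_zero]
      exact Submodule.zero_mem _)
    have h3 : finrank F (⊤ : Submodule F E) = 0 := by rw [← h1, finrank_bot]
    rw [finrank_top] at h3
    omega
  intro k
  induction k with
  | zero =>
    intro _ U hU _
    have hU0 : U = ⊥ := Submodule.finrank_eq_zero.1 hU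
    refine ⟨0, fun _ => 0, ?_, ?_, ?_, ?_, ?_, ?_, ?_⟩
    · intro u hu _
      rw [hU0] at hu
      exact (Submodule.mem_bot F).1 hu
    · intro j hj; omega
    · intro u hu
      rw [hU0] at hu
      exact ⟨fun _ => 0, by rw [(Submodule.mem_bot F).1 hu]; simp⟩
    · intro a _ j hj; omega
    · intro j hj; omega
    · intro j hj; omega
    · intro hj; omega
  | succ k ih =>
    intro hk U hU hex
    obtain ⟨U', ξ', hU', hAU'⟩ := hex
    have hUne : U ≠ ⊥ := by
      intro h
      rw [h, finrank_bot] at hU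
      omega
    -- the next functional
    obtain ⟨ξ, u₀, hu₀, hξu₀, hξA⟩ : ∃ (ξ : V →ₗ[F] F) (u₀ : V), u₀ ∈ U ∧ ξ u₀ ≠ 0 ∧
        ∀ u ∈ U, ξ u = 0 → A u ∈ U := by
      by_cases hAU : ∀ u ∈ U, A u ∈ U
      · obtain ⟨u₀, hu₀, hne⟩ := Submodule.exists_mem_ne_zero_of_ne_bot hUne
        have h1 : u₀ ∉ (⊥ : Submodule F V) := fun h => hne ((Submodule.mem_bot F).1 h)
        obtain ⟨f, hf, -⟩ := Submodule.exists_le_ker_of_notMem h1
        exact ⟨f, u₀, hu₀, hf, fun u hu _ => hAU u hu⟩
      · push Not at hAU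
        obtain ⟨u₀, hu₀, hne⟩ := hAU
        let ξA : V →ₗ[F] F :=
          { toFun := fun u => τ.symm (ξ' (A u))
            map_add' := by intro a b; simp
            map_smul' := by
              intro a u
              rw [hA, map_smul, smul_eq_mul, map_mul, RingEquiv.symm_apply_apply]
              rfl }
        have hξA : ∀ u, ξA u = τ.symm (ξ' (A u)) := fun u => rfl
        have hz : ∀ u, ξA u = 0 → ξ' (A u) = 0 := by
          intro u hu
          rw [hξA] at hu
          exact (map_eq_zero_iff τ.symm τ.symm.injective).1 hu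
        refine ⟨ξA, u₀, hu₀, ?_, ?_⟩
        · intro h
          exact hne (hU' _ (hAU' u₀ hu₀) (hz _ h))
        · intro u hu hu0
          exact hU' _ (hAU' u hu) (hz _ hu0)
    -- dimension of the kernel
    set U₁ : Submodule F V := U ⊓ LinearMap.ker ξ with hU₁
    have hm : ∀ u, u ∈ U₁ ↔ u ∈ U ∧ ξ u = 0 := by
      intro u
      rw [hU₁, Submodule.mem_inf, LinearMap.mem_ker]
    have hdim : finrank F U₁ = k := by
      have h1 : U₁ ⊔ Submodule.span F {u₀} = U := by
        apply le_antisymm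
        · apply sup_le inf_le_left
          rw [Submodule.span_singleton_le_iff_mem]
          exact hu₀
        · intro u hu
          rw [Submodule.mem_sup]
          refine ⟨u - (ξ u * (ξ u₀)⁻¹) • u₀, ?_, (ξ u * (ξ u₀)⁻¹) • u₀,
            Submodule.smul_mem _ _ (Submodule.mem_span_singleton_self u₀), by abel⟩
          rw [hm]
          refine ⟨U.sub_mem hu (U.smul_mem _ hu₀), ?_⟩
          rw [map_sub, map_smul, smul_eq_mul, mul_assoc, inv_mul_cancel₀ hξu₀, mul_one, sub_self]
      have h2 : U₁ ⊓ Submodule.span F {u₀} = ⊥ := by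
        rw [eq_bot_iff]
        intro u hu
        obtain ⟨hu1, hu2⟩ := Submodule.mem_inf.1 hu
        obtain ⟨c, rfl⟩ := Submodule.mem_span_singleton.1 hu2
        have h3 := ((hm _).1 hu1).2
        rw [map_smul, smul_eq_mul] at h3
        have h4 := (mul_eq_zero.1 h3).resolve_right hξu₀
        rw [h4, zero_smul]
        exact Submodule.zero_mem _
      have h3 := Submodule.finrank_sup_add_finrank_inf_eq U₁ (Submodule.span F {u₀})
      rw [h1, h2, finrank_bot, hU, finrank_span_singleton] at h3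
      · omega
      · intro h
        rw [h, map_zero] at hξu₀
        exact hξu₀ rfl
    obtain ⟨I, h, hst⟩ := ih (by omega) U₁ hdim ⟨U, ξ, fun u hu h0 => (hm u).2 ⟨hu, h0⟩,
      fun u hu => hξA u ((hm u).1 hu).1 ((hm u).1 hu).2⟩
    -- the image of the kernel
    set W : Submodule F E := U₁.map I with hW
    have hWm : ∀ w ∈ W, ∃ u ∈ U₁, I u = w := fun w hw => hw
    have hWne : W ≠ ⊤ := by
      intro hWt
      have h1 : finrank F W ≤ finrank F U₁ := Submodule.finrank_map_le I U₁
      rw [hWt, finrank_top] at h1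
      omega
    rcases Nat.eq_zero_or_pos k with hk0 | hkpos
    · -- k = 0
      subst hk0
      refine b_ext A Θ e 0 U ξ I h hst hξA u₀ hu₀ hξu₀ e ?_ (fun _ => rfl) ?_
      · intro u hu h0 h1
        have hbot : U₁ = ⊥ := Submodule.finrank_eq_zero.1 hdim
        have h2 := (hm u).2 ⟨hu, h0⟩
        rw [hbot] at h2
        rw [(Submodule.mem_bot F).1 h2, map_zero] at h1
        exact he0 h1.symm
      · intro j hj; omega
    · obtain ⟨k', rfl⟩ : ∃ k', k = k' + 1 := ⟨k - 1, by omega⟩
      have heW : e ∈ W := by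
        rw [← hst.st0 (by omega)]
        exact ⟨h 0, hst.mem 0 (by omega), rfl⟩
      have hWinv : ¬ ∀ w ∈ W, Θ w ∈ W := fun hinv => hWne (he W heW hinv)
      have hgU : h k' ∈ U₁ := hst.mem k' (by omega)
      have hAg : A (h k') ∈ U := hξA _ ((hm _).1 hgU).1 ((hm _).1 hgU).2
      by_cases hcase : ξ (A (h k')) = 0
      · -- the subspace is invariant
        have hAgU : A (h k') ∈ U₁ := (hm _).2 ⟨hAg, hcase⟩
        have hAh : ∀ j < k' + 1, A (h j) ∈ U₁ := by
          intro j hj
          rcases Nat.lt_succ_iff_lt_or_eq.1 hj with h1 | h1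
          · exact hst.stepU j (by omega)
          · rw [h1]; exact hAgU
        have hAmap : ∀ u ∈ U₁, A u ∈ U₁ := by
          intro u hu
          obtain ⟨a, ha⟩ := hst.span u hu
          rw [ha, map_sum]
          apply Submodule.sum_mem
          intro j hj
          rw [hA]
          exact Submodule.smul_mem _ _ (hAh j (Finset.mem_range.1 hj))
        have hsurj : ∀ u ∈ U₁, ∃ u2 ∈ U₁, A u2 = u := by
          let g : U₁ → U₁ := fun u => ⟨A u.1, hAmap u.1 u.2⟩
          have h1 : Function.Injective g := by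
            intro a b hab
            apply Subtype.ext
            apply hAi
            exact congrArg Subtype.val hab
          have h2 : Function.Surjective g := Finite.injective_iff_surjective.1 h1
          intro u hu
          obtain ⟨u2, hu2⟩ := h2 ⟨u, hu⟩
          exact ⟨u2.1, u2.2, congrArg Subtype.val hu2⟩
        obtain ⟨z, hz⟩ := hΘs (I (A (h k')))
        have hnot : z ∉ W := by
          intro hin
          apply hWinv
          apply b_fin Θ hΘi W
          intro w hw
          obtain ⟨u, huU, rfl⟩ := hWm w hw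
          obtain ⟨u2, hu2, rfl⟩ := hsurj u huU
          obtain ⟨a, ha⟩ := hst.span u2 hu2
          refine ⟨∑ j ∈ Finset.range (k' + 1),
            σ.symm (τ (a j)) • (if j < k' then I (h (j + 1)) else z), ?_, ?_⟩
          · apply Submodule.sum_mem
            intro j hj
            apply Submodule.smul_mem
            split_ifs with h1
            · exact ⟨h (j + 1), hst.mem (j + 1) (by omega), rfl⟩
            · exact hin
          · rw [ha, map_sum, map_sum, map_sum]
            apply Finset.sum_congr rfl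
            intro j hj
            rw [hΘ, hA, map_smul, RingEquiv.apply_symm_apply]
            congr 1
            rcases Nat.lt_succ_iff_lt_or_eq.1 (Finset.mem_range.1 hj) with h1 | h1
            · rw [if_pos h1, hst.stepI j (by omega)]
            · rw [if_neg (by omega), hz, h1]
        refine b_ext A Θ e (k' + 1) U ξ I h hst hξA u₀ hu₀ hξu₀ z ?_ (by omega) ?_
        · intro u hu h0 h1
          apply hnot
          rw [← h1]
          exact ⟨u, (hm u).2 ⟨hu, h0⟩, rfl⟩
        · intro j hj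
          have hj' : j = k' := by omega
          subst hj'
          refine ⟨0, A (h j), hAg, hcase, by simp, ?_⟩
          rw [zero_smul, zero_add, hz]
      · -- the subspace is not invariant
        obtain ⟨v, hvU, y, hy, hyW⟩ : ∃ v ∈ U₁, ∃ y, T1 y = I v ∧ y ∉ W := by
          by_contra hcon
          push Not at hcon
          apply hWinv
          have h1 : ∀ w ∈ W, T1 w ∈ W := by
            apply b_fin2 T1 W
            intro y hy
            obtain ⟨u, huU, hu⟩ := hWm _ hy
            exact hcon u huU y hu.symm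
          intro w hw
          have h3 := W.add_mem (h1 w hw) hw
          rwa [hT1, sub_add_cancel] at h3
        obtain ⟨hvU', hv0⟩ := (hm v).1 hvU
        refine b_ext A Θ e (k' + 1) U ξ I h hst hξA (A (h k') - v) (U.sub_mem hAg hvU') ?_
          y ?_ (by omega) ?_
        · rw [map_sub, hv0, sub_zero]; exact hcase
        · intro u hu h0 h1
          apply hyW
          rw [← h1]
          exact ⟨u, (hm u).2 ⟨hu, h0⟩, rfl⟩
        · intro j hj
          have hj' : j = k' := by omega
          subst hj'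
          refine ⟨1, v, hvU', hv0, by rw [one_smul]; abel, ?_⟩
          rw [one_smul, ← hy, hT1]
          abel

/-- (BUILD), cyclic version -/
theorem build {F E V : Type*} [Field F] [Finite F] [AddCommGroup E] [Module F E]
    [FiniteDimensional F E] [AddCommGroup V] [Module F V] [FiniteDimensional F V]
    (σ τ : F ≃+* F) (A : V →+ V) (hA : SL τ A) (hAi : Function.Injective A)
    (Θ : E →+ E) (hΘ : SL σ Θ) (hΘi : Function.Injective Θ) (e : E)
    (he : ∀ W : Submodule F E, e ∈ W → (∀ w ∈ W, Θ w ∈ W) → W = ⊤)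
    (m : ℕ) (hm : finrank F E = m) (h1 : 1 ≤ m)
    (φ : V →ₗ[F] F) (hker : finrank F (LinearMap.ker φ) = m)
    (v₁ : V) (hv₁ : φ v₁ = 0) (hAv₁ : φ (A v₁) ≠ 0) :
    ∃ (J : E →ₗ[F] V) (I : V →ₗ[F] E) (h : ℕ → V),
      (∀ z, φ (J z) = 0) ∧ (∀ z, I (J z) = z) ∧ (∀ u, φ u = 0 → J (I u) = u) ∧
      (∀ j < m, φ (h j) = 0) ∧
      (∀ u, φ u = 0 → ∃ a : ℕ → F, u = ∑ j ∈ Finset.range m, a j • h j) ∧
      (∀ a : ℕ → F, ∑ j ∈ Finset.range m, a j • h j = 0 → ∀ j < m, a j = 0) ∧
      (∀ j, j + 1 < m → φ (A (h j)) = 0 ∧ A (h j) = J (Θ (I (h (j + 1))))) ∧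
      φ (A (h (m - 1))) ≠ 0 := by
  subst hm
  obtain ⟨I, h, hst⟩ := b_build σ τ A hA hAi Θ hΘ hΘi e he h1 (finrank F E) le_rfl
    (LinearMap.ker φ) hker
    ⟨⊤, φ, fun u _ hu => LinearMap.mem_ker.2 hu, fun _ _ => Submodule.mem_top⟩
  have hmem : ∀ j < finrank F E, φ (h j) = 0 := fun j hj => LinearMap.mem_ker.1 (hst.mem j hj)
  have hstepU : ∀ j, j + 1 < finrank F E → φ (A (h j)) = 0 :=
    fun j hj => LinearMap.mem_ker.1 (hst.stepU j hj)
  obtain ⟨J, hJH, hIJ, hJI⟩ : ∃ J : E →ₗ[F] V, (∀ z, φ (J z) = 0) ∧ (∀ z, I (J z) = z) ∧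
      (∀ u, φ u = 0 → J (I u) = u) := by
    have hinj : Function.Injective (I.domRestrict (LinearMap.ker φ)) := by
      rw [injective_iff_map_eq_zero]
      intro u hu
      exact Subtype.ext (hst.inj u.1 u.2 hu)
    let e := LinearEquiv.ofInjectiveOfFinrankEq (I.domRestrict (LinearMap.ker φ)) hinj hker
    have he : ∀ u, e u = I u.1 := fun u => rfl
    refine ⟨(LinearMap.ker φ).subtype ∘ₗ (e.symm : E →ₗ[F] _), ?_, ?_, ?_⟩
    · intro z
      exact LinearMap.mem_ker.1 (e.symm z).2
    · intro z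
      have := he (e.symm z)
      rw [LinearEquiv.apply_symm_apply] at this
      exact this.symm
    · intro u hu
      have h1 := he ⟨u, LinearMap.mem_ker.2 hu⟩
      have h3 : e.symm (I u) = ⟨u, LinearMap.mem_ker.2 hu⟩ := by
        rw [LinearEquiv.symm_apply_eq, h1]
      simp [h3]
  refine ⟨J, I, h, hJH, hIJ, hJI, hmem, fun u hu => hst.span u (LinearMap.mem_ker.2 hu),
    hst.ind, ?_, ?_⟩
  · intro j hj
    refine ⟨hstepU j hj, ?_⟩
    rw [← hst.stepI j hj, hJI _ (hstepU j hj)]
  · intro h0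
    apply hAv₁
    obtain ⟨a, ha⟩ := hst.span v₁ (LinearMap.mem_ker.2 hv₁)
    rw [ha, map_sum, map_sum]
    apply Finset.sum_eq_zero
    intro j hj
    rw [hA, map_smul]
    have hj' := Finset.mem_range.1 hj
    by_cases h1 : j + 1 < finrank F E
    · rw [hstepU j h1, smul_zero]
    · have h3 : j = finrank F E - 1 := by omega
      rw [h3, h0, smul_zero]

end Pool.Agent.CTC
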