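import Pool.Agent.CTC.Defs

/-! Cyclic vectors of a semilinear map with prescribed determinant (helper26). -/

set_option autoImplicit false

namespace Pool.Agent.CTC

open Module

/-- an invariant subspace of `F^m × F` which contains `(e, a)`, `e` cyclic, `a ≠ 0` -/
private lemma cyc_dim {F : Type*} [Field F] (σ : F ≃+* F) {m : ℕ}
    (Θ : (Fin m → F) →+ (Fin m → F)) (e : Fin m → F)
    (he : ∀ W : Submodule F (Fin m → F), e ∈ W → (∀ w ∈ W, Θ w ∈ W) → W = ⊤) (c : F)
    (hHom : ∀ l : (Fin m → F) →ₗ[F] F, (∀ z, l (Θ z) = c * σ (l z)) → l = 0)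
    (S : Submodule F (Fin m ⊕ Unit → F))
    (hS : ∀ x ∈ S, Sum.elim (Θ (fun i => x (Sum.inl i))) (fun _ => c * σ (x (Sum.inr ()))) ∈ S)
    (x₀ : Fin m ⊕ Unit → F) (hx₀ : x₀ ∈ S) (h1 : (fun i => x₀ (Sum.inl i)) = e)
    (h2 : x₀ (Sum.inr ()) ≠ 0) : ¬ finrank F S ≤ m := by
  intro hle
  -- the two projections
  let P : (Fin m ⊕ Unit → F) →ₗ[F] (Fin m → F) := LinearMap.funLeft F F Sum.inl
  let P2 : (Fin m ⊕ Unit → F) →ₗ[F] F := LinearMap.proj (Sum.inr ())
  have hPtop : S.map P = ⊤ := by
    refine he _ ⟨x₀, hx₀, h1⟩ ?_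
    rintro _ ⟨x, hx, rfl⟩
    exact ⟨_, hS x hx, rfl⟩
  have hsurj : Function.Surjective (P.domRestrict S) := by
    intro z
    have hz : z ∈ S.map P := by rw [hPtop]; trivial
    obtain ⟨x, hx, rfl⟩ := hz
    exact ⟨⟨x, hx⟩, rfl⟩
  have hfin : finrank F S = finrank F (Fin m → F) := by
    refine le_antisymm (by rw [finrank_fin_fun]; exact hle) ?_
    have h5 : finrank F (S.map P) ≤ finrank F S := Submodule.finrank_map_le P S
    rw [hPtop, finrank_top] at h5
    exact h5
  have hinj : Function.Injective (P.domRestrict S) :=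
    (LinearMap.injective_iff_surjective_of_finrank_eq_finrank hfin).2 hsurj
  let E : S ≃ₗ[F] (Fin m → F) := LinearEquiv.ofBijective (P.domRestrict S) ⟨hinj, hsurj⟩
  have hE : ∀ x : S, E x = fun i => x.1 (Sum.inl i) := fun x => rfl
  let l : (Fin m → F) →ₗ[F] F := P2 ∘ₗ S.subtype ∘ₗ (E.symm : (Fin m → F) →ₗ[F] S)
  have hl : ∀ x : S, l (E x) = x.1 (Sum.inr ()) := by
    intro x
    show P2 (S.subtype (E.symm (E x))) = _
    rw [LinearEquiv.symm_apply_apply]
    rfl
  have hl0 : l = 0 := by
    apply hHom
    intro z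
    obtain ⟨x, rfl⟩ := E.surjective z
    have h3 : Θ (E x) = E ⟨_, hS x.1 x.2⟩ := by
      rw [hE, hE]
      rfl
    rw [h3, hl, hl]
    rfl
  have h3 := hl ⟨x₀, hx₀⟩
  rw [hl0, LinearMap.zero_apply] at h3
  exact h2 h3.symm

/-- (CYC), general version: `e` is a cyclic vector, no semilinear map to `(F, c σ)` -/
theorem exists_cyc_gen {F : Type*} [Field F] [Finite F] (σ : F ≃+* F) {m : ℕ} (hm : 1 ≤ m)
    (Θ : (Fin m → F) →+ (Fin m → F)) (hΘ : SL σ Θ) (e : Fin m → F)
    (he : ∀ W : Submodule F (Fin m → F), e ∈ W → (∀ w ∈ W, Θ w ∈ W) → W = ⊤) (c : F)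
    (hHom : ∀ l : (Fin m → F) →ₗ[F] F, (∀ z, l (Θ z) = c * σ (l z)) → l = 0) (κ : F) :
    ∃ u : ℕ → (Fin m ⊕ Unit → F),
      (∀ j, u (j + 1) = Sum.elim (Θ (fun i => u j (Sum.inl i)))
        (fun _ => c * σ (u j (Sum.inr ())))) ∧
      (Mat (Sum.elim (fun j : Fin m => u (j + 1)) (fun _ => u 0))).det = κ := by
  have : Nonempty (Fin m) := ⟨⟨0, by omega⟩⟩
  have he0 : e ≠ 0 := by
    rintro rfl
    have h1 := he ⊥ (Submodule.zero_mem _) (by
      intro w hw
      rw [Submodule.mem_bot] at hw
      rw [hw, map_zero]
      exact Submodule.zero_mem _)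
    exact bot_ne_top h1
  let D : F →+ F := (AddMonoidHom.mulLeft c).comp (σ : F →+* F).toAddMonoidHom
  have hD : ∀ x, D x = c * σ x := fun x => rfl
  let u : F → ℕ → (Fin m ⊕ Unit → F) := fun a j => Sum.elim (Θ^[j] e) (fun _ => D^[j] a)
  have hu0 : ∀ a, u a 0 = Sum.elim e (fun _ => a) := fun a => rfl
  have hus : ∀ a j, u a (j + 1) = Sum.elim (Θ (fun i => u a j (Sum.inl i)))
      (fun _ => c * σ (u a j (Sum.inr ()))) := by
    intro a j
    show Sum.elim (Θ^[j + 1] e) (fun _ => D^[j + 1] a) = _
    rw [Function.iterate_succ_apply', Function.iterate_succ_apply', hD]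
    rfl
  let C : F → (Fin m ⊕ Unit) → (Fin m ⊕ Unit → F) := fun a =>
    Sum.elim (fun j : Fin m => u a (j + 1)) (fun _ => u a 0)
  have hM : ∀ a, Mat (C a) = (Mat (C 0)).updateRow (Sum.inr ()) (fun k => C a k (Sum.inr ())) := by
    intro a
    ext i k
    rcases i with i | i
    · rw [Matrix.updateRow_ne (by simp)]
      rcases k with k | k <;> rfl
    · rw [Matrix.updateRow_self]
      rfl
  have hadd : ∀ a b k, C (a + b) k (Sum.inr ()) = C a k (Sum.inr ()) + C b k (Sum.inr ()) := by
    intro a b k
    rcases k with k | k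
    · show D^[k + 1] (a + b) = D^[k + 1] a + D^[k + 1] b
      exact iterate_map_add D _ a b
    · rfl
  let G : F →+ F :=
    AddMonoidHom.mk' (fun a => (Mat (C a)).det) (by
      intro a b
      rw [hM (a + b), hM a, hM b, ← Matrix.det_updateRow_add]
      congr 2
      funext k
      exact hadd a b k)
  have hG : ∀ a, G a = (Mat (C a)).det := fun a => rfl
  have hinj : Function.Injective G := by
    rw [injective_iff_map_eq_zero]
    intro a ha
    by_contra ha0
    rw [hG] at ha
    have hx1 : (fun i => u a 0 (Sum.inl i)) ≠ 0 := he0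
    -- independence
    have hli : ∀ k, k ≤ m + 1 → LinearIndependent F (fun j : Fin k => u a j) := by
      intro k
      induction k with
      | zero => exact fun _ => linearIndependent_empty_type
      | succ k ih =>
        intro hk
        have h5 : (fun j : Fin (k + 1) => u a j) =
            (Fin.snoc (fun j : Fin k => u a j) (u a k) : Fin (k + 1) → (Fin m ⊕ Unit → F)) := by
          funext j
          refine Fin.lastCases ?_ (fun j => ?_) j
          · rw [Fin.snoc_last]; rfl
          · rw [Fin.snoc_castSucc]; rfl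
        rw [h5, linearIndependent_finSnoc]
        refine ⟨ih (by omega), ?_⟩
        intro hmem
        set S : Submodule F (Fin m ⊕ Unit → F) :=
          Submodule.span F (Set.range (fun j : Fin k => u a j)) with hSdef
        have hk0 : 0 < k := by
          rcases Nat.eq_zero_or_pos k with h0 | h0
          · subst h0
            rw [hSdef, Set.range_eq_empty, Submodule.span_empty, Submodule.mem_bot] at hmem
            exfalso
            apply hx1
            funext i
            rw [hmem]; rfl
          · exact h0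
        have hmemj : ∀ j, j ≤ k → u a j ∈ S := by
          intro j hj
          rcases Nat.lt_or_ge j k with h6 | h6
          · exact Submodule.subset_span ⟨⟨j, h6⟩, rfl⟩
          · rw [show j = k by omega]; exact hmem
        have hSinv : ∀ x ∈ S, (Sum.elim (Θ (fun i => x (Sum.inl i)))
            (fun _ => c * σ (x (Sum.inr ()))) : Fin m ⊕ Unit → F) ∈ S := by
          intro x hx
          induction hx using Submodule.span_induction with
          | mem x hx =>
            obtain ⟨j, rfl⟩ := hx
            have := hmemj (j + 1) (by omega)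
            rw [hus] at this
            exact this
          | zero =>
            have h6 : (Sum.elim (Θ (fun i => (0 : Fin m ⊕ Unit → F) (Sum.inl i)))
                (fun _ => c * σ ((0 : Fin m ⊕ Unit → F) (Sum.inr ()))) : Fin m ⊕ Unit → F) =
                0 := by
              have h7 : (fun i => (0 : Fin m ⊕ Unit → F) (Sum.inl i)) = (0 : Fin m → F) := rfl
              rw [h7, map_zero]
              ext i
              rcases i with i | i <;> simp
            rw [h6]
            exact S.zero_mem
          | add x y _ _ hx hy =>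
            have h6 : (Sum.elim (Θ (fun i => (x + y) (Sum.inl i)))
                (fun _ => c * σ ((x + y) (Sum.inr ()))) : Fin m ⊕ Unit → F) =
                Sum.elim (Θ (fun i => x (Sum.inl i))) (fun _ => c * σ (x (Sum.inr ()))) +
                Sum.elim (Θ (fun i => y (Sum.inl i))) (fun _ => c * σ (y (Sum.inr ()))) := by
              have h7 : (fun i => (x + y) (Sum.inl i)) =
                (fun i => x (Sum.inl i)) + (fun i => y (Sum.inl i) : Fin m → F) := rfl
              rw [h7, map_add]
              ext i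
              rcases i with i | i
              · simp
              · simp [mul_add]
            rw [h6]
            exact S.add_mem hx hy
          | smul b x _ hx =>
            have h6 : (Sum.elim (Θ (fun i => (b • x) (Sum.inl i)))
                (fun _ => c * σ ((b • x) (Sum.inr ()))) : Fin m ⊕ Unit → F) =
                σ b • Sum.elim (Θ (fun i => x (Sum.inl i)))
                  (fun _ => c * σ (x (Sum.inr ()))) := by
              have h7 : (fun i => (b • x) (Sum.inl i)) =
                b • (fun i => x (Sum.inl i) : Fin m → F) := rfl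
              rw [h7, hΘ b]
              ext i
              rcases i with i | i
              · simp
              · simp only [Pi.smul_apply, Sum.elim_inr, smul_eq_mul, map_mul]
                ring
            rw [h6]
            exact S.smul_mem _ hx
        have h7 : finrank F S ≤ k := by
          have := finrank_range_le_card (R := F) (fun j : Fin k => u a j)
          rwa [Fintype.card_fin] at this
        exact cyc_dim σ Θ e he c hHom S hSinv (u a 0) (hmemj 0 (Nat.zero_le _)) rfl ha0
          (h7.trans (by omega))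
    have h5 := hli (m + 1) le_rfl
    -- the columns of the matrix
    let f : Fin m ⊕ Unit → Fin (m + 1) := Sum.elim Fin.succ (fun _ => 0)
    have hf : Function.Injective f := by
      rintro (i | i) (j | j) hij
      · exact congrArg Sum.inl (Fin.succ_injective _ hij)
      · exact absurd hij (Fin.succ_ne_zero i)
      · exact absurd hij.symm (Fin.succ_ne_zero j)
      · rfl
    have h6 := h5.comp f hf
    have h7 : ((fun j : Fin (m + 1) => u a j) ∘ f) = (Mat (C a)).col := by
      funext k
      rcases k with k | k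
      · rfl
      · rfl
    rw [h7, Matrix.linearIndependent_cols_iff_isUnit, Matrix.isUnit_iff_isUnit_det, ha] at h6
    exact not_isUnit_zero h6
  have hsurj : Function.Surjective G := Finite.injective_iff_surjective.1 hinj
  obtain ⟨a, ha⟩ := hsurj κ
  exact ⟨u a, hus a, ha⟩

/-- (CYC) -/
theorem exists_cyc {F : Type*} [Field F] [Finite F] (σ : F ≃+* F) {m : ℕ} (hm : 2 ≤ m)
    (Θ : (Fin m → F) →+ (Fin m → F)) (hΘ : SL σ Θ) (hΘi : Function.Injective Θ) (hΘr : Irr F Θ)
    (c : F) (hc : c ≠ 0) (κ : F) (hκ : κ ≠ 0) :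
    ∃ u : ℕ → (Fin m ⊕ Unit → F),
      (∀ j, u (j + 1) = Sum.elim (Θ (fun i => u j (Sum.inl i)))
        (fun _ => c * σ (u j (Sum.inr ())))) ∧
      (Mat (Sum.elim (fun j : Fin m => u (j + 1)) (fun _ => u 0))).det = κ := by
  have _ := hΘi
  have _ := hc
  have _ := hκ
  have : Nonempty (Fin m) := ⟨⟨0, by omega⟩⟩
  obtain ⟨e, he⟩ := exists_ne (0 : Fin m → F)
  refine exists_cyc_gen σ (by omega) Θ hΘ e ?_ c ?_ κ
  · intro W hW hinv
    refine (hΘr W hinv).resolve_left ?_
    rintro rfl
    exact he ((Submodule.mem_bot F).1 hW)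
  · intro l hl
    have h1 : LinearMap.ker l = ⊥ ∨ LinearMap.ker l = ⊤ := by
      refine hΘr _ (fun w hw => ?_)
      rw [LinearMap.mem_ker] at hw ⊢
      rw [hl, hw, map_zero, mul_zero]
    rcases h1 with h1 | h1
    · exfalso
      have h2 := LinearMap.finrank_le_finrank_of_injective (LinearMap.ker_eq_bot.1 h1)
      rw [finrank_fin_fun, finrank_self] at h2
      omega
    · exact LinearMap.ker_eq_top.1 h1

end Pool.Agent.CTC
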