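import Pool.Agent.CTC.Defs

/-! A semilinear map which is not a scalar moves some hyperplane (helper93). -/

set_option autoImplicit false

namespace Pool.Agent.CTC

open Module

/-- (HYP) -/
theorem exists_hyp {F V : Type*} [Field F] [AddCommGroup V] [Module F V] [FiniteDimensional F V]
    (τ : F ≃+* F) (h2 : 2 ≤ finrank F V) (A : V →+ V) (hA : SL τ A)
    (hAi : Function.Injective A)
    (hns : ¬ ((∀ z, τ z = z) ∧ ∃ b : F, ∀ v, A v = b • v)) :
    ∃ (φ : V →ₗ[F] F) (v : V), φ v = 0 ∧ φ (A v) ≠ 0 := by
  by_contra hcon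
  push Not at hcon
  have h1 : ∀ v : V, A v ∈ Submodule.span F ({v} : Set V) := by
    intro v
    by_contra hv
    obtain ⟨f, hf, hle⟩ := Submodule.exists_le_ker_of_notMem hv
    have hfv : f v = 0 := hle (Submodule.mem_span_singleton_self v)
    exact hf (hcon f v hfv)
  have hτ : ∀ z, τ z = z := by
    intro z
    have h3 : 1 < finrank F V := h2
    have : Nontrivial V := by
      apply Module.nontrivial_of_finrank_pos (R := F)
      omega
    obtain ⟨x, hx⟩ := exists_ne (0 : V)
    obtain ⟨y, hxy⟩ := exists_linearIndependent_pair_of_one_lt_finrank h3 hx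
    rw [LinearIndependent.pair_iff] at hxy
    obtain ⟨lx, hlx⟩ := Submodule.mem_span_singleton.1 (h1 x)
    obtain ⟨ly, hly⟩ := Submodule.mem_span_singleton.1 (h1 y)
    obtain ⟨l, hl⟩ := Submodule.mem_span_singleton.1 (h1 (x + y))
    obtain ⟨k, hk⟩ := Submodule.mem_span_singleton.1 (h1 (x + z • y))
    have hlx0 : lx ≠ 0 := by
      intro h0
      rw [h0, zero_smul] at hlx
      exact hx (hAi (by rw [← hlx, map_zero]))
    have e1 : l = lx ∧ l = ly := by
      have := hxy (l - lx) (l - ly) (by
        rw [map_add, ← hlx, ← hly] at hl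
        rw [sub_smul, sub_smul]
        have h5 : l • x + l • y = lx • x + ly • y := by rw [← smul_add]; exact hl
        calc l • x - lx • x + (l • y - ly • y) = (l • x + l • y) - (lx • x + ly • y) := by abel
          _ = 0 := by rw [h5, sub_self])
      exact ⟨sub_eq_zero.1 this.1, sub_eq_zero.1 this.2⟩
    have e2 : k = lx ∧ k * z = τ z * ly := by
      have := hxy (k - lx) (k * z - τ z * ly) (by
        rw [map_add, hA, ← hlx, ← hly] at hk
        have h5 : k • x + k • z • y = lx • x + τ z • ly • y := by rw [← smul_add]; exact hk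
        rw [smul_smul, smul_smul] at h5
        rw [sub_smul, sub_smul]
        calc k • x - lx • x + ((k * z) • y - (τ z * ly) • y)
            = (k • x + (k * z) • y) - (lx • x + (τ z * ly) • y) := by abel
          _ = 0 := by rw [h5, sub_self])
      exact ⟨sub_eq_zero.1 this.1, sub_eq_zero.1 this.2⟩
    have e3 : ly = lx := by rw [← e1.1, e1.2]
    rw [e3, e2.1, mul_comm] at e2
    exact (mul_right_cancel₀ hlx0 e2.2).symm
  apply hns
  refine ⟨hτ, ?_⟩
  let L : V →ₗ[F] V :=
    { toFun := A
      map_add' := map_add A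
      map_smul' := by
        intro a v
        rw [hA, hτ]
        rfl }
  have h2 : ∀ v, ¬ LinearIndependent F ![v, L v] := by
    intro v hli
    obtain ⟨a, ha⟩ := Submodule.mem_span_singleton.1 (h1 v)
    have := LinearIndependent.pair_iff.1 hli (-a) 1 (by
      change -a • v + (1 : F) • A v = 0
      rw [← ha]; simp)
    exact one_ne_zero this.2
  obtain ⟨a, ha⟩ := LinearMap.exists_eq_smul_id_of_forall_notLinearIndependent h2
  refine ⟨a, fun v => ?_⟩
  change L v = _
  rw [ha]
  rfl

end Pool.Agent.CTC
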