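import Pool.Agent.CTC.Lin

/-! Definitions for the real classes (helper47): direct sums, companion matrices. -/

set_option autoImplicit false

namespace Pool.Agent.CTC

open Matrix

variable {F : Type*} [Field F]

/-- `X ⊕ c` -/
def Bl {ι : Type*} (X : Matrix ι ι F) (c : F) : Matrix (ι ⊕ Unit) (ι ⊕ Unit) F :=
  Matrix.fromBlocks X 0 0 (fun _ _ => c)

/-- every nonscalar `B` with the right determinant is a product of two `σ`-conjugates of `X` -/
def FactS {ι : Type*} [Fintype ι] [DecidableEq ι] (σ : F ≃+* F) (X : Matrix ι ι F) : Prop :=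
  ∀ B : Matrix ι ι F, B.det = X.det * σ X.det →
    ¬ ((∀ z, σ (σ z) = z) ∧ ∃ b : F, B = b • (1 : Matrix ι ι F)) →
    ∃ a b P Q : Matrix ι ι F, a.det = 1 ∧ b.det = 1 ∧
      P * a.map σ = a * X ∧ Q * b.map σ = b * X ∧ B = P * Q.map σ

/-- a nonzero scalar is a product of two `σ`-conjugates of `X` -/
def RealS {ι : Type*} [Fintype ι] [DecidableEq ι] (σ : F ≃+* F) (X : Matrix ι ι F) : Prop :=
  ∃ (g P : Matrix ι ι F) (lam : F), g.det = 1 ∧ lam ≠ 0 ∧ P * g.map σ = g * X ∧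
    P * X.map σ = lam • (1 : Matrix ι ι F)

/-- the semilinear map of `X` is cyclic -/
def Cy {ι : Type*} [Fintype ι] (σ : F ≃+* F) (X : Matrix ι ι F) : Prop :=
  ∃ e : ι → F, ∀ W : Submodule F (ι → F), e ∈ W → (∀ w ∈ W, sm σ X w ∈ W) → W = ⊤

/-- no nonzero maps between the module of `X` and the one dimensional module of `c` -/
def NC {ι : Type*} [Fintype ι] (σ : F ≃+* F) (X : Matrix ι ι F) (c : F) : Prop :=
  (∀ l : (ι → F) →ₗ[F] F, (∀ z, l (sm σ X z) = c * σ (l z)) → l = 0) ∧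
    ∀ w : ι → F, sm σ X w = c • w → w = 0

/-- `X` is `σ`-conjugate to `lam` times the inverse -/
def Re {ι : Type*} [Fintype ι] [DecidableEq ι] (σ : F ≃+* F) (X : Matrix ι ι F) (lam : F) : Prop :=
  ∃ g : Matrix ι ι F, g.det ≠ 0 ∧ X.map σ * g * X = lam • g.map σ

/-- the matrix `e_j ↦ e_{j+1}` for `j + 1 < 2k`, `e_{2k-1} ↦ - t e_0 - s e_k` -/
def Cm (k : ℕ) (t s : F) : Matrix (Fin (2 * k)) (Fin (2 * k)) F := fun i j =>
  if (j : ℕ) + 1 < 2 * k then (if (i : ℕ) = j + 1 then 1 else 0)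
  else (if (i : ℕ) = 0 then -t else 0) + (if (i : ℕ) = k then -s else 0)

end Pool.Agent.CTC
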