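import Pool.Agent.CTC.Lin
import Pool.Agent.CTC.RDefs
import Pool.Agent.CTC.Hyp
import Pool.Agent.CTC.Build
import Pool.Agent.CTC.Cyc

/-! Factorization of semilinear maps, matrix level (helper47). -/

set_option autoImplicit false

namespace Pool.Agent.CTC

open Module Matrix

variable {F : Type*} [Field F]

theorem det_map' {ι : Type*} [Fintype ι] [DecidableEq ι] (σ : F ≃+* F) (M : Matrix ι ι F) :
    (M.map σ).det = σ M.det := by
  have : (M.map σ) = σ.mapMatrix M := rfl
  rw [this, ← RingEquiv.map_det]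

theorem ml_core [Finite F] {m : ℕ} (hm : 2 ≤ m) (σ : F ≃+* F)
    (Θ : (Fin m → F) →+ (Fin m → F)) (hΘ : SL σ Θ) (hΘi : Function.Injective Θ)
    (e : Fin m → F) (he : ∀ W : Submodule F (Fin m → F), e ∈ W → (∀ w ∈ W, Θ w ∈ W) → W = ⊤)
    (ME : Matrix (Fin m) (Fin m) F) (hME : ∀ v, Θ v = sm σ ME v)
    (hε : ME.det ≠ 0) (c : F) (hc : c ≠ 0)
    (hHom : ∀ l : (Fin m → F) →ₗ[F] F, (∀ z, l (Θ z) = c * σ (l z)) → l = 0)
    (hKer : ∀ w : Fin m → F, Θ w = c • w → w = 0)
    (B : Matrix (Fin m ⊕ Unit) (Fin m ⊕ Unit) F)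
    (hB : B.det = (ME.det * c) * σ (ME.det * c))
    (hns : ¬ ((∀ z, σ (σ z) = z) ∧ ∃ b : F, B = b • (1 : Matrix _ _ F))) :
    ∃ a b P Q : Matrix (Fin m ⊕ Unit) (Fin m ⊕ Unit) F, a.det = 1 ∧ b.det = 1 ∧
      P * a.map σ = a * Mo ME c ∧ Q * b.map σ = b * Mo ME c ∧ B = P * Q.map σ := by
  classical
  set X := Mo ME c with hX
  have hXdet : X.det = ME.det * c := det_Mo ME c
  have hX0 : X.det ≠ 0 := by rw [hXdet]; exact mul_ne_zero hε hc
  have hB0 : B.det ≠ 0 := by
    rw [hB]; exact mul_ne_zero (mul_ne_zero hε hc) (by simp [hε, hc])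
  set τ := σ.trans σ with hτ
  set A := sm τ B with hA
  have hAi : Function.Injective A := sm_injective τ hB0
  have hAs : Function.Surjective A := Finite.surjective_of_injective hAi
  have hASL : SL τ A := sm_sl τ B
  obtain ⟨φ, v₁, hv₁, hAv₁⟩ := exists_hyp (V := Fin m ⊕ Unit → F) τ (by
    rw [finrank_pi]; simp; omega) A hASL hAi (by
    rintro ⟨h1, b, hb⟩
    apply hns
    refine ⟨h1, b, ?_⟩
    apply Matrix.ext_of_mulVec_single
    intro i
    have h2 := hb (Pi.single i 1)
    rw [hA, sm_apply] at h2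
    have h3 : (fun j => τ ((Pi.single i 1 : Fin m ⊕ Unit → F) j)) = Pi.single i 1 := by
      ext j
      by_cases hj : j = i
      · subst hj; simp
      · simp [hj]
    rw [h3] at h2
    rw [h2, Matrix.smul_mulVec, Matrix.one_mulVec])
  have hφ0 : φ ≠ 0 := by
    intro h
    rw [h] at hAv₁
    exact hAv₁ rfl
  have hker : finrank F (LinearMap.ker φ) = m := by
    have h1 := Module.Dual.finrank_ker_add_one_of_ne_zero (f := φ) hφ0
    rw [finrank_pi] at h1
    simp at h1
    exact h1
  obtain ⟨J, I, h, hJH, hIJ, hJI, hmem, hspan, hind, hstep, hlast⟩ :=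
    build σ τ A hASL hAi Θ hΘ hΘi e he m (by simp) (by omega) φ hker v₁ hv₁ hAv₁
  -- the vector r
  obtain ⟨r, hr0⟩ := hAs (J (Θ (I (h 0))))
  have hφr : φ r ≠ 0 := by
    intro h0
    obtain ⟨a, ha⟩ := hspan r h0
    obtain ⟨m', rfl⟩ : ∃ m', m = m' + 1 := ⟨m - 1, by omega⟩
    have h3 : φ (A r) = 0 := by rw [hr0]; exact hJH _
    rw [ha, hASL.sum, map_sum, Finset.sum_range_succ, Finset.sum_eq_zero, zero_add, map_smul,
      smul_eq_mul] at h3
    swap
    · intro j hj
      rw [map_smul, (hstep j (by have := Finset.mem_range.1 hj; omega)).1, smul_zero]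
    have h1 : a m' = 0 := by
      have h4 := (mul_eq_zero.1 h3).resolve_right hlast
      simpa using h4
    have h5 : Θ (I (h 0)) = Θ (∑ j ∈ Finset.range m', σ (a j) • I (h (j + 1))) := by
      have h6 : I (A r) = Θ (I (h 0)) := by rw [hr0]; exact hIJ _
      rw [← h6, ha, hASL.sum, map_sum, Finset.sum_range_succ, h1, map_zero, zero_smul, map_zero,
        add_zero, hΘ.sum]
      apply Finset.sum_congr rfl
      intro j hj
      rw [map_smul, (hstep j (by have := Finset.mem_range.1 hj; omega)).2, hIJ]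
      rfl
    have h7 := hΘi h5
    have h8 : h 0 - ∑ j ∈ Finset.range m', σ (a j) • h (j + 1) = 0 := by
      have h9 : φ (h 0 - ∑ j ∈ Finset.range m', σ (a j) • h (j + 1)) = 0 := by
        rw [map_sub, hmem 0 (by omega), map_sum, Finset.sum_eq_zero, sub_zero]
        intro j hj
        rw [map_smul, hmem (j + 1) (by have := Finset.mem_range.1 hj; omega), smul_zero]
      rw [← hJI _ h9, map_sub, map_sum, h7]
      have : ∑ j ∈ Finset.range m', I (σ (a j) • h (j + 1)) =
          ∑ j ∈ Finset.range m', σ (a j) • I (h (j + 1)) :=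
        Finset.sum_congr rfl fun j _ => map_smul _ _ _
      rw [this, sub_self, map_zero]
    have h9 := hind (fun j => if j = 0 then 1 else - σ (a (j - 1))) (by
      rw [Finset.sum_range_succ']
      simp only [Nat.add_eq_zero_iff, one_ne_zero, and_false, if_false, if_true,
        Nat.add_sub_cancel, neg_smul, Finset.sum_neg_distrib, one_smul]
      rw [← h8]
      abel) 0 (by omega)
    simp at h9
  -- the basis
  set CH : Fin m ⊕ Unit → (Fin m ⊕ Unit → F) := Sum.elim (fun j => h j) (fun _ => r) with hCH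
  have hHm : (Mat CH).det ≠ 0 := by
    intro h0
    obtain ⟨x, hx, hx0⟩ := Matrix.exists_mulVec_eq_zero_iff.2 h0
    rw [mat_mulVec, Fintype.sum_sum_type] at hx0
    simp only [hCH, Sum.elim_inl, Sum.elim_inr, Finset.univ_unique, Finset.sum_singleton] at hx0
    have h1 := congrArg φ hx0
    rw [map_add, map_sum, Finset.sum_eq_zero, zero_add, map_smul, map_zero, smul_eq_mul] at h1
    swap
    · intro j _
      rw [map_smul, hmem j j.2, smul_zero]
    have h2 : x (Sum.inr ()) = 0 := (mul_eq_zero.1 h1).resolve_right hφr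
    have h3 : x (Sum.inr default) = 0 := h2
    rw [h3, zero_smul, add_zero] at hx0
    have h4 := hind (fun j => if hj : j < m then x (Sum.inl ⟨j, hj⟩) else 0) (by
      rw [Finset.sum_range, ← hx0]
      apply Finset.sum_congr rfl
      intro j _
      simp)
    apply hx
    ext k
    rcases k with j | j
    · have := h4 j j.2
      simpa using this
    · exact h2
  obtain ⟨u, hu, hudet⟩ := exists_cyc_gen σ (by omega) Θ hΘ e he c hHom (Mat CH).det
  set CU : Fin m ⊕ Unit → (Fin m ⊕ Unit → F) := Sum.elim (fun j : Fin m => u (j + 1))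
    (fun _ => u 0) with hCU
  have hU0 : IsUnit (Mat CU).det := by rw [hudet]; exact isUnit_iff_ne_zero.2 hHm
  have hu' : ∀ j, u (j + 1) = sm σ X (u j) := by
    intro j
    rw [hu, hX, sm_Mo, hME]
  set b := Mat CH * (Mat CU)⁻¹ with hb
  have hbdet : b.det = 1 := by
    rw [hb, Matrix.det_mul, Matrix.det_nonsing_inv, hudet, Ring.inverse_eq_inv',
      mul_inv_cancel₀ hHm]
  have hbU : b * Mat CU = Mat CH := by
    rw [hb, Matrix.nonsing_inv_mul_cancel_right _ _ hU0]
  have hbk : ∀ k, b *ᵥ (CU k) = CH k := by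
    intro k
    have h1 : Mat CU *ᵥ (Pi.single k 1) = CU k := by
      ext i; simp [Mat]
    have h2 : Mat CH *ᵥ (Pi.single k 1) = CH k := by
      ext i; simp [Mat]
    rw [← h1, Matrix.mulVec_mulVec, hbU, h2]
  have hbσ : IsUnit (b.map σ).det := by
    rw [det_map', hbdet, map_one]; exact isUnit_one
  obtain ⟨Q, hQb⟩ : ∃ Q : Matrix (Fin m ⊕ Unit) (Fin m ⊕ Unit) F, Q * b.map σ = b * X :=
    ⟨b * X * (b.map σ)⁻¹, by rw [Matrix.nonsing_inv_mul_cancel_right _ _ hbσ]⟩
  have hQdet : Q.det = ME.det * c := by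
    have h1 := congrArg Matrix.det hQb
    rw [Matrix.det_mul, Matrix.det_mul, det_map', hbdet, map_one, mul_one, one_mul, hXdet] at h1
    exact h1
  have hQX : ∀ w, sm σ Q (b *ᵥ w) = b *ᵥ (sm σ X w) := by
    intro w
    rw [sm_mulVec, hQb, ← mulVec_sm]
  have hQσ : IsUnit (Q.map σ).det := by
    rw [det_map', hQdet]
    exact isUnit_iff_ne_zero.2 (by simp [hε, hc])
  obtain ⟨P, hPQ⟩ : ∃ P : Matrix (Fin m ⊕ Unit) (Fin m ⊕ Unit) F, P * Q.map σ = B :=
    ⟨B * (Q.map σ)⁻¹, by rw [Matrix.nonsing_inv_mul_cancel_right _ _ hQσ]⟩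
  have hPdet : P.det = ME.det * c := by
    have h1 := congrArg Matrix.det hPQ
    rw [Matrix.det_mul, det_map', hQdet, hB] at h1
    have h2 : σ (ME.det * c) ≠ 0 := by simp [hε, hc]
    exact mul_right_cancel₀ h2 h1
  have hYX : ∀ v, sm σ P (sm σ Q v) = A v := by
    intro v
    rw [sm_sm, hPQ]
  set Y := sm σ P with hY
  have hYSL : SL σ Y := sm_sl σ P
  have hYh : ∀ j, j < m → Y (h j) = J (Θ (I (h j))) := by
    intro j hj
    rcases j with _ | j
    · have h1 : sm σ Q r = h 0 := by
        have h2 := hQX (u 0)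
        rw [← hu'] at h2
        have h3 := hbk (Sum.inr ())
        have h4 := hbk (Sum.inl ⟨0, hj⟩)
        simp only [hCU, hCH, Sum.elim_inl, Sum.elim_inr] at h3 h4
        rw [h3, h4] at h2
        exact h2
      rw [← h1, hYX, hr0, h1]
    · have h1 : sm σ Q (h j) = h (j + 1) := by
        have h2 := hQX (u (j + 1))
        rw [← hu'] at h2
        have h3 := hbk (Sum.inl ⟨j, by omega⟩)
        have h4 := hbk (Sum.inl ⟨j + 1, hj⟩)
        simp only [hCU, hCH, Sum.elim_inl] at h3 h4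
        rw [h3, h4] at h2
        exact h2
      have h2 := hYX (h j)
      rw [h1] at h2
      rw [h2, (hstep j hj).2]
  have hYJ : ∀ z, Y (J z) = J (Θ z) := by
    intro z
    obtain ⟨a, ha⟩ := hspan (J z) (hJH z)
    have h1 : z = ∑ j ∈ Finset.range m, a j • I (h j) := by
      rw [← hIJ z, ha, map_sum]
      exact Finset.sum_congr rfl fun j _ => map_smul _ _ _
    rw [ha, hYSL.sum]
    conv_rhs => rw [h1, hΘ.sum, map_sum]
    apply Finset.sum_congr rfl
    intro j hj
    rw [map_smul, hYh j (Finset.mem_range.1 hj)]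
  -- the eigenvector
  set μ := (φ r)⁻¹ * φ (Y r) with hμ
  have hw : φ (Y r - μ • r) = 0 := by
    rw [map_sub, map_smul, smul_eq_mul, hμ]
    field_simp
    ring
  have hsumJ : ∀ x : Fin m → F, ∑ j, x j • J (Pi.single j 1) = J x := by
    intro x
    have h1 : x = ∑ j, x j • (Pi.single j 1 : Fin m → F) := by
      ext i
      simp [Finset.sum_apply, Pi.single_apply]
    conv_rhs => rw [h1, map_sum]
    exact Finset.sum_congr rfl fun j _ => (map_smul _ _ _).symm
  have key : ∀ (t : Fin m ⊕ Unit → F) (w : Fin m → F), φ t ≠ 0 → Y t = μ • t + J w →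
      (Mat (Sum.elim (fun j => J (Pi.single j 1)) (fun _ => t))).det ≠ 0 ∧
      P * (Mat (Sum.elim (fun j => J (Pi.single j 1)) (fun _ => t))).map σ =
        Mat (Sum.elim (fun j => J (Pi.single j 1)) (fun _ => t)) *
          Matrix.fromBlocks ME (fun i _ => w i) 0 (fun _ _ => μ) ∧
      ME.det * c * σ (Mat (Sum.elim (fun j => J (Pi.single j 1)) (fun _ => t))).det =
        (Mat (Sum.elim (fun j => J (Pi.single j 1)) (fun _ => t))).det * (ME.det * μ) := by
    intro t w hφt hYt
    set CA : Fin m ⊕ Unit → (Fin m ⊕ Unit → F) := Sum.elim (fun j => J (Pi.single j 1))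
      (fun _ => t) with hCA
    have hCAv : ∀ x : Fin m ⊕ Unit → F, Mat CA *ᵥ x =
        J (fun j => x (Sum.inl j)) + x (Sum.inr ()) • t := by
      intro x
      rw [mat_mulVec, Fintype.sum_sum_type]
      simp only [hCA, Sum.elim_inl, Sum.elim_inr, Finset.univ_unique, Finset.sum_singleton]
      rw [hsumJ (fun j => x (Sum.inl j))]
    have hδ : (Mat CA).det ≠ 0 := by
      intro h0
      obtain ⟨x, hx, hx0⟩ := Matrix.exists_mulVec_eq_zero_iff.2 h0
      rw [hCAv] at hx0
      have h1 := congrArg φ hx0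
      rw [map_add, hJH, zero_add, map_smul, map_zero, smul_eq_mul] at h1
      have h2 : x (Sum.inr ()) = 0 := (mul_eq_zero.1 h1).resolve_right hφt
      rw [h2, zero_smul, add_zero] at hx0
      have h3 := congrArg I hx0
      rw [hIJ, map_zero] at h3
      apply hx
      ext k
      rcases k with j | j
      · exact congrFun h3 j
      · exact h2
    have hPA : P * (Mat CA).map σ =
        Mat CA * Matrix.fromBlocks ME (fun i _ => w i) 0 (fun _ _ => μ) := by
      apply Matrix.ext_of_mulVec_single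
      intro k
      rw [← Matrix.mulVec_mulVec, ← Matrix.mulVec_mulVec]
      have h1 : ((Mat CA).map σ) *ᵥ (Pi.single k 1) = fun i => σ (CA k i) := by
        ext i; simp [Mat]
      rw [h1]
      have h2 : P *ᵥ (fun i => σ (CA k i)) = Y (CA k) := rfl
      rw [h2, hCAv]
      rcases k with j | j
      · simp only [hCA, Sum.elim_inl]
        rw [hYJ, hME]
        have h4 : ((Matrix.fromBlocks ME (fun i _ => w i) 0 (fun _ _ => μ) :
          Matrix (Fin m ⊕ Unit) (Fin m ⊕ Unit) F) *ᵥ
          Pi.single (Sum.inl j) 1) (Sum.inr ()) = 0 := by simp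
        rw [h4, zero_smul, add_zero]
        congr 1
        ext i
        rw [sm_apply]
        have h5 : (fun i' => σ ((Pi.single j 1 : Fin m → F) i')) = Pi.single j 1 := by
          ext i'
          by_cases hj : i' = j
          · subst hj; simp
          · simp [hj]
        rw [h5]
        simp
      · have h3 : (fun i => ((Matrix.fromBlocks ME (fun i _ => w i) 0 (fun _ _ => μ) :
            Matrix (Fin m ⊕ Unit) (Fin m ⊕ Unit) F) *ᵥ
            Pi.single (Sum.inr j) 1) (Sum.inl i)) = w := by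
          ext i; simp
        have h4 : ((Matrix.fromBlocks ME (fun i _ => w i) 0 (fun _ _ => μ) :
            Matrix (Fin m ⊕ Unit) (Fin m ⊕ Unit) F) *ᵥ
            Pi.single (Sum.inr j) 1) (Sum.inr ()) = μ := by simp
        rw [h3, h4, add_comm]
        exact hYt
    refine ⟨hδ, hPA, ?_⟩
    have h1 := congrArg Matrix.det hPA
    rw [Matrix.det_mul, Matrix.det_mul, det_map', hPdet, Matrix.det_fromBlocks_zero₂₁] at h1
    rw [h1]
    congr 2
    simp [Matrix.det_unique]
  obtain ⟨hδ1, -, hμ1⟩ := key r (I (Y r - μ • r)) hφr (by rw [hJI _ hw]; abel)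
  have hinj : Function.Injective (fun z : Fin m → F => Θ z - μ • z) := by
    intro z z' h
    have h1 : Θ (z - z') = μ • (z - z') := by
      simp only at h
      rw [map_sub, smul_sub, sub_eq_sub_iff_sub_eq_sub.1 h]
    set δ := (Mat (Sum.elim (fun j => J (Pi.single j 1)) (fun _ => r))).det with hδd
    have h2 : Θ (δ⁻¹ • (z - z')) = c • (δ⁻¹ • (z - z')) := by
      rw [hΘ, h1, smul_smul, smul_smul]
      congr 1
      have h3 : σ δ ≠ 0 := by simpa using hδ1
      rw [map_inv₀]
      field_simp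
      have h4 : ME.det * (c * σ δ) = ME.det * (δ * μ) := by linear_combination hμ1
      have h5 := mul_left_cancel₀ hε h4
      linear_combination -h5
    have h3 := hKer _ h2
    rcases smul_eq_zero.1 h3 with h4 | h4
    · exact absurd h4 (inv_ne_zero hδ1)
    · exact sub_eq_zero.1 h4
  obtain ⟨z₀, hz₀⟩ := Finite.surjective_of_injective hinj (I (Y r - μ • r))
  simp only at hz₀
  set t := r - J z₀ with ht
  have hφt : φ t = φ r := by rw [ht, map_sub, hJH, sub_zero]
  have hYt : Y t = μ • t := by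
    have h1 : J (Θ z₀ - μ • z₀) = Y r - μ • r := by rw [hz₀, hJI _ hw]
    rw [map_sub, map_smul, sub_eq_sub_iff_add_eq_add] at h1
    rw [ht, map_sub, hYJ, smul_sub, sub_eq_sub_iff_add_eq_add, ← h1, add_comm]
  obtain ⟨hδ, hPA, hμ0⟩ := key t 0 (by rw [hφt]; exact hφr) (by rw [map_zero, add_zero, hYt])
  have hMo : Matrix.fromBlocks ME (fun i _ => (0 : Fin m → F) i) 0 (fun _ _ => μ) = Mo ME μ := rfl
  rw [hMo] at hPA
  set CA : Fin m ⊕ Unit → (Fin m ⊕ Unit → F) := Sum.elim (fun j => J (Pi.single j 1))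
    (fun _ => t) with hCA
  refine ⟨Mat CA * Mo 1 (Mat CA).det⁻¹, b, P, Q, ?_, hbdet, ?_, hQb, hPQ.symm⟩
  · rw [Matrix.det_mul, det_Mo, Matrix.det_one, one_mul, mul_inv_cancel₀ hδ]
  · have h1 : (Mat CA * Mo 1 (Mat CA).det⁻¹).map σ = (Mat CA).map σ * Mo 1 (σ (Mat CA).det)⁻¹ := by
      rw [Matrix.map_mul, Mo_map, map_inv₀, Matrix.map_one _ (map_zero σ) (map_one σ)]
    rw [h1, ← mul_assoc, hPA, mul_assoc, mul_assoc, hX, Mo_mul, Mo_mul, mul_one, one_mul]
    congr 2
    have h2 : σ (Mat CA).det ≠ 0 := by simpa using hδ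
    field_simp
    have h3 : ME.det * (c * σ (Mat CA).det) = ME.det * ((Mat CA).det * μ) := by
      linear_combination hμ0
    have h4 := mul_left_cancel₀ hε h3
    linear_combination -h4

/-- the matrix of an injective semilinear map is invertible -/
theorem det_ne_of_inj {m : ℕ} (σ : F ≃+* F) (Θ : (Fin m → F) →+ (Fin m → F))
    (hΘi : Function.Injective Θ) (ME : Matrix (Fin m) (Fin m) F) (hME : ∀ v, Θ v = sm σ ME v) :
    ME.det ≠ 0 := by
  intro h0
  obtain ⟨v, hv, hv0⟩ := Matrix.exists_mulVec_eq_zero_iff.2 h0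
  apply hv
  have h1 : Θ (fun i => σ.symm (v i)) = 0 := by
    rw [hME, sm_apply]
    simp only [RingEquiv.apply_symm_apply]
    exact hv0
  have h2 := hΘi (h1.trans (map_zero Θ).symm)
  ext i
  have h3 := congrFun h2 i
  simpa using h3

/-- the theorem in terms of `Cy`, `NC`, `FactS` -/
theorem fact_fin [Finite F] (σ : F ≃+* F) {m : ℕ} (hm : 2 ≤ m) (X : Matrix (Fin m) (Fin m) F)
    (c : F) (hX : X.det ≠ 0) (hc : c ≠ 0) (h : Cy σ X) (hn : NC σ X c) : FactS σ (Bl X c) := by
  obtain ⟨e, he⟩ := h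
  intro B hB hns
  have hdet : (Bl X c).det = X.det * c := det_Mo X c
  exact ml_core hm σ (sm σ X) (sm_sl σ X) (sm_injective σ hX) e he X (fun _ => rfl) hX c hc hn.1
    hn.2 B (by rw [hB, hdet]) hns

theorem fact_reindex {ι κ : Type*} [Fintype ι] [DecidableEq ι] [Fintype κ] [DecidableEq κ]
    (σ : F ≃+* F) (e : κ ≃ ι) (X : Matrix ι ι F) (h : FactS σ X) : FactS σ (X.submatrix e e) := by
  have hmul : ∀ M N : Matrix ι ι F,
      (M * N).submatrix e e = M.submatrix e e * N.submatrix e e := by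
    intro M N
    rw [Matrix.submatrix_mul_equiv]
  have hmap : ∀ M : Matrix ι ι F, (M.map σ).submatrix e e = (M.submatrix e e).map σ :=
    fun M => rfl
  intro B hB hns
  have hB' : (B.submatrix e.symm e.symm).submatrix e e = B := by
    ext i j; simp
  obtain ⟨a, b, P, Q, ha, hb, hP, hQ, hBPQ⟩ := h (B.submatrix e.symm e.symm)
    (by rw [Matrix.det_submatrix_equiv_self, hB, Matrix.det_submatrix_equiv_self]) (by
      rintro ⟨h1, b, hb⟩
      apply hns
      refine ⟨h1, b, ?_⟩
      rw [← hB', hb]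
      ext i j
      simp [Matrix.one_apply])
  refine ⟨a.submatrix e e, b.submatrix e e, P.submatrix e e, Q.submatrix e e,
    by rw [Matrix.det_submatrix_equiv_self, ha], by rw [Matrix.det_submatrix_equiv_self, hb],
    ?_, ?_, ?_⟩
  · rw [← hmap, ← hmul, hP, hmul]
  · rw [← hmap, ← hmul, hQ, hmul]
  · rw [← hmap, ← hmul, ← hBPQ, hB']

theorem real_reindex {ι κ : Type*} [Fintype ι] [DecidableEq ι] [Fintype κ] [DecidableEq κ]
    (σ : F ≃+* F) (e : κ ≃ ι) (X : Matrix ι ι F) (h : RealS σ X) : RealS σ (X.submatrix e e) := by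
  have hmul : ∀ M N : Matrix ι ι F,
      (M * N).submatrix e e = M.submatrix e e * N.submatrix e e := by
    intro M N
    rw [Matrix.submatrix_mul_equiv]
  have hmap : ∀ M : Matrix ι ι F, (M.map σ).submatrix e e = (M.submatrix e e).map σ :=
    fun M => rfl
  obtain ⟨g, P, lam, hg, hl, h1, h2⟩ := h
  refine ⟨g.submatrix e e, P.submatrix e e, lam, by rw [Matrix.det_submatrix_equiv_self, hg], hl,
    ?_, ?_⟩
  · rw [← hmap, ← hmul, h1, hmul]
  · rw [← hmap, ← hmul, h2]
    ext i j
    simp [Matrix.one_apply]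

theorem cy_reindex {ι κ : Type*} [Fintype ι] [DecidableEq ι] [Fintype κ] [DecidableEq κ]
    (σ : F ≃+* F) (e : κ ≃ ι) (X : Matrix ι ι F) (h : Cy σ X) : Cy σ (X.submatrix e e) := by
  obtain ⟨v, hv⟩ := h
  have hsm : ∀ w : κ → F, sm σ (X.submatrix e e) w = (sm σ X (w ∘ e.symm)) ∘ e := by
    intro w
    ext i
    rw [sm_apply, Function.comp_apply, sm_apply]
    simp only [Matrix.mulVec, dotProduct, Matrix.submatrix_apply]
    rw [← e.sum_comp]
    simp
  refine ⟨v ∘ e, fun W hW hinv => ?_⟩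
  have h1 := hv (W.comap (LinearMap.funLeft F F e)) (by
    rw [Submodule.mem_comap]; exact hW) (by
    intro w hw
    rw [Submodule.mem_comap] at hw ⊢
    have h2 := hinv _ hw
    rw [hsm] at h2
    have h3 : (LinearMap.funLeft F F (⇑e) w) ∘ ⇑e.symm = w := by
      ext i; simp [LinearMap.funLeft]
    rw [h3] at h2
    exact h2)
  rw [eq_top_iff]
  intro w _
  have h2 : (w ∘ e.symm) ∈ W.comap (LinearMap.funLeft F F e) := by rw [h1]; trivial
  rw [Submodule.mem_comap] at h2
  have h3 : LinearMap.funLeft F F (⇑e) (w ∘ ⇑e.symm) = w := by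
    ext i; simp [LinearMap.funLeft]
  rwa [h3] at h2

theorem nc_reindex {ι κ : Type*} [Fintype ι] [DecidableEq ι] [Fintype κ] [DecidableEq κ]
    (σ : F ≃+* F) (e : κ ≃ ι) (X : Matrix ι ι F) (c : F) (h : NC σ X c) :
    NC σ (X.submatrix e e) c := by
  have hsm : ∀ w : κ → F, sm σ (X.submatrix e e) w = (sm σ X (w ∘ e.symm)) ∘ e := by
    intro w
    ext i
    rw [sm_apply, Function.comp_apply, sm_apply]
    simp only [Matrix.mulVec, dotProduct, Matrix.submatrix_apply]
    rw [← e.sum_comp]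
    simp
  constructor
  · intro l hl
    have h1 := h.1 (l ∘ₗ LinearMap.funLeft F F e) (by
      intro z
      have h2 := hl (LinearMap.funLeft F F e z)
      rw [hsm] at h2
      have h3 : (LinearMap.funLeft F F (⇑e) z) ∘ ⇑e.symm = z := by
        ext i; simp [LinearMap.funLeft]
      rw [h3] at h2
      exact h2)
    ext1 i
    ext1
    have h4 : (LinearMap.funLeft F F (⇑e) ((Pi.single i 1 : κ → F) ∘ ⇑e.symm)) =
        Pi.single i 1 := by
      ext j; simp [LinearMap.funLeft]
    have h5 := LinearMap.congr_fun h1 ((Pi.single i 1 : κ → F) ∘ ⇑e.symm)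
    rw [LinearMap.comp_apply, h4] at h5
    simpa using h5
  · intro w hw
    rw [hsm] at hw
    have h1 := h.2 (w ∘ e.symm) (by
      ext i
      have := congrFun hw (e.symm i)
      simpa using this)
    ext i
    have := congrFun h1 (e i)
    simpa using this

theorem fact_bl [Finite F] {ι : Type*} [Fintype ι] [DecidableEq ι] (σ : F ≃+* F)
    (h2 : 2 ≤ Fintype.card ι) (X : Matrix ι ι F) (c : F) (hX : X.det ≠ 0) (hc : c ≠ 0)
    (h : Cy σ X) (hn : NC σ X c) : FactS σ (Bl X c) := by
  let e : Fin (Fintype.card ι) ≃ ι := (Fintype.equivFin ι).symm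
  have h1 := fact_fin σ h2 (X.submatrix e e) c (by rwa [Matrix.det_submatrix_equiv_self]) hc
    (cy_reindex σ e X h) (nc_reindex σ e X c hn)
  have h3 := fact_reindex σ (Equiv.sumCongr e.symm (Equiv.refl Unit)) _ h1
  have h4 : (Bl (X.submatrix ⇑e ⇑e) c).submatrix (Equiv.sumCongr e.symm (Equiv.refl Unit))
      (Equiv.sumCongr e.symm (Equiv.refl Unit)) = Bl X c := by
    ext i j
    rcases i with i | i <;> rcases j with j | j <;> simp [Bl]
  rwa [h4] at h3

end Pool.Agent.CTC
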