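import Mathlib

/-! Semilinear maps and twisted conjugacy: definitions (coset version of Thompson's conjecture for
`PSL_n(q)`, `n ≥ 3`, helper47). -/

set_option autoImplicit false

namespace Pool.Agent.CTC

/-- `T` is `σ`-semilinear -/
def SL {F V W : Type*} [Field F] [AddCommGroup V] [Module F V] [AddCommGroup W] [Module F W]
    (σ : F ≃+* F) (T : V →+ W) : Prop := ∀ (a : F) (v : V), T (a • v) = σ a • T v

/-- no proper nonzero invariant subspaces -/
def Irr (F : Type*) {V : Type*} [Field F] [AddCommGroup V] [Module F V] (T : V →+ V) : Prop :=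
  ∀ W : Submodule F V, (∀ w ∈ W, T w ∈ W) → W = ⊥ ∨ W = ⊤

/-- the matrix with columns `C k` -/
def Mat {ι F : Type*} (C : ι → ι → F) : Matrix ι ι F := fun i k => C k i

end Pool.Agent.CTC
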