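import Pool.Agent.CTC.PackS
import Pool.Agent.CTC.RDefs

/-!
# CTC PACK2: classes with `x^G x^G = α² G` from one matrix; the determinant of a real coset

* `pack_eq`: if `X` (of the determinant of `A`) satisfies `FactS` and one of: `RealS`, `σ² ≠ 1`, `α²` not
  inner, then the square of the class of the automorphism of `X` is the whole coset `α² G`.
* `kappa`: if `σ² = 1` and `α²` is inner then `det A · σ(det A)` is an `n`-th power.
-/

set_option autoImplicit false

namespace Pool.Agent.CTC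

open Matrix CosetT
open scoped Pointwise

/-- **PACK2.** -/
theorem pack_eq {F : Type*} [Field F] {σ : F ≃+* F} {n : ℕ} (hn : 3 ≤ n)
    (A : Matrix (Fin n) (Fin n) F) (hA : A.det ≠ 0) (α : MulAut (PSLn n F)) (hα : Ind α A σ)
    (X : Matrix (Fin n) (Fin n) F) (hXdet : X.det = A.det) (hF : FactS σ X)
    (h : RealS σ X ∨ (∃ z, σ (σ z) ≠ z) ∨
      α ^ 2 ∉ Set.range (MulAut.conj : PSLn n F →* MulAut (PSLn n F))) :
    ∃ x ∈ coset α, cls x * cls x = coset (α ^ 2) := by
  have hX0 : X.det ≠ 0 := by rw [hXdet]; exact hA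
  set W : Matrix (Fin n) (Fin n) F := (A⁻¹ * X).map σ.symm with hW
  have hWdet : W.det = 1 := by
    rw [hW, map_det', Matrix.det_mul, Matrix.det_nonsing_inv, hXdet, Ring.inverse_eq_inv',
      inv_mul_cancel₀ hA, map_one]
  have hWσ : A * W.map σ = X := by
    have e1 : W.map σ = A⁻¹ * X := by
      ext i j; rw [hW, Matrix.map_apply, Matrix.map_apply, RingEquiv.apply_symm_apply]
    rw [e1, ← mul_assoc, Matrix.mul_nonsing_inv _ (isUnit_iff_ne_zero.2 hA), one_mul]
  set w0 : SpecialLinearGroup (Fin n) F := ⟨W, hWdet⟩ with hw0'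
  have hxInd : Ind (α * MulAut.conj (mk w0)) X σ := by
    have h1 := Ind.mul hA (det_one_ne hWdet) hα (ind_conj w0)
    have e1 : A * (w0 : Matrix (Fin n) (Fin n) F).map σ = X := hWσ
    have e2 : (RingEquiv.refl F).trans σ = σ := by ext z; rfl
    rw [e1, e2] at h1
    exact h1
  have hx : α * MulAut.conj (mk w0) ∈ coset α := ⟨mk w0, rfl⟩
  refine ⟨α * MulAut.conj (mk w0), hx, Set.Subset.antisymm (cls_mul_subset hx) ?_⟩
  rintro y ⟨g0, rfl⟩
  obtain ⟨g0, rfl⟩ := mk_surj g0
  have h1 := Ind.mul hA hA hα hα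
  have hAA : (A * A.map σ).det ≠ 0 := by
    rw [Matrix.det_mul, map_det']; exact mul_ne_zero hA (by simpa using hA)
  have h2 := Ind.mul hAA (det_one_ne g0.2) h1 (ind_conj g0)
  have e2 : (RingEquiv.refl F).trans (σ.trans σ) = σ.trans σ := by ext z; rfl
  rw [e2, ← pow_two] at h2
  set B := A * A.map σ * (g0 : Matrix (Fin n) (Fin n) F).map (σ.trans σ) with hB
  have hBdet : B.det = A.det * σ A.det := by
    rw [hB, Matrix.det_mul, Matrix.det_mul, map_det', map_det', g0.2, map_one, mul_one]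
  have hB0 : B.det ≠ 0 := by
    rw [hBdet]; exact mul_ne_zero hA (by simpa using hA)
  by_cases hsc : (∀ z, σ (σ z) = z) ∧ ∃ b : F, B = b • (1 : Matrix (Fin n) (Fin n) F)
  · obtain ⟨hσ2, b, hb⟩ := hsc
    have hb0 : b ≠ 0 := by
      rintro rfl
      have : Nonempty (Fin n) := ⟨⟨0, by omega⟩⟩
      apply hB0
      rw [hb, zero_smul, Matrix.det_zero]
    have hy : α ^ 2 * MulAut.conj (mk g0) = 1 := by
      rw [hb] at h2 hB0
      exact eq_one_of_scalar hσ2 hB0 hb0 h2
    rcases h with ⟨g, P, lam, hg, hl, hP, hPX⟩ | ⟨z, hz⟩ | h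
    · apply mem_cls_mul
      rw [hy]
      refine aut_level (g := 1) hX0 hxInd (ind_one_scalar hσ2 hl) (by simp) ⟨g, hg, hP⟩
        (Q := X) ⟨1, by simp, ?_⟩ ?_
      · rw [Matrix.map_one _ (map_zero _) (map_one _), mul_one, one_mul]
      · rw [Matrix.map_one _ (map_zero _) (map_one _), mul_one, one_mul, hPX]
    · exact absurd (hσ2 z) hz
    · exfalso
      apply h
      refine ⟨(mk g0)⁻¹, ?_⟩
      rw [map_inv]
      exact (eq_inv_of_mul_eq_one_left hy).symm
  · obtain ⟨a, b, P, Q, ha, hb, hP, hQ, hBPQ⟩ := hF B (by rw [hBdet, hXdet]) hsc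
    apply mem_cls_mul
    refine aut_level (g := 1) hX0 hxInd h2 (by simp) ⟨a, ha, hP⟩ ⟨b, hb, hQ⟩ ?_
    rw [Matrix.map_one _ (map_zero _) (map_one _), mul_one, one_mul, hBPQ]

/-- a matrix inducing the identity of `PSL_n(F)`, with the identity of `F`, is scalar -/
theorem scalar_of_ind_one {F : Type*} [Field F] {n : ℕ} {σ : F ≃+* F} (h2 : ∀ z, σ z = z)
    {B : Matrix (Fin n) (Fin n) F} (hB : B.det ≠ 0) (hy : Ind (1 : MulAut (PSLn n F)) B σ) :
    ∃ b : F, B = b • (1 : Matrix (Fin n) (Fin n) F) := by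
  have hinv : IsUnit B := (Matrix.isUnit_iff_isUnit_det B).2 (isUnit_iff_ne_zero.2 hB)
  have key : ∀ t : TransvectionStruct (Fin n) F, Commute t.toMatrix B := by
    rintro ⟨i, j, hij, c⟩
    show Commute (transvection i j c) B
    set g : SpecialLinearGroup (Fin n) F := ⟨transvection i j c, det_transvection_of_ne i j hij c⟩
      with hg
    have hgc : (g : Matrix (Fin n) (Fin n) F) = transvection i j c := rfl
    obtain ⟨g', hg'⟩ := exists_image hB σ g
    have h3 : (g : Matrix (Fin n) (Fin n) F).map σ = g := by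
      ext a b
      exact h2 _
    rw [h3] at hg'
    have h4 := hy g g' (by rw [h3]; exact hg')
    rw [MulAut.one_apply] at h4
    have h5 : g⁻¹ * g' ∈ Subgroup.center (SpecialLinearGroup (Fin n) F) :=
      QuotientGroup.eq.1 h4
    obtain ⟨ζ, -, hζ⟩ := Matrix.SpecialLinearGroup.mem_center_iff.1 h5
    have h6 : (g' : Matrix (Fin n) (Fin n) F) = ζ • (g : Matrix (Fin n) (Fin n) F) := by
      have h7 : (g' : Matrix (Fin n) (Fin n) F) = (g : Matrix (Fin n) (Fin n) F) *
          ((g⁻¹ * g' : SpecialLinearGroup (Fin n) F) : Matrix (Fin n) (Fin n) F) := by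
        rw [← Matrix.SpecialLinearGroup.coe_mul, mul_inv_cancel_left]
      rw [h7, ← hζ, Matrix.scalar_apply, ← Matrix.smul_one_eq_diagonal, Matrix.mul_smul, mul_one]
    rw [hgc] at hg' h6
    have h8 : ((g' : Matrix (Fin n) (Fin n) F) * g' - (2 : F) • (g' : Matrix (Fin n) (Fin n) F) + 1)
        * B = B * (transvection i j c * transvection i j c - (2 : F) • transvection i j c + 1) := by
      rw [Matrix.add_mul, Matrix.sub_mul, Matrix.mul_assoc, hg', Matrix.smul_mul, hg',
        ← Matrix.mul_assoc, hg', Matrix.mul_add, Matrix.mul_sub, Matrix.mul_smul, Matrix.mul_assoc,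
        one_mul, mul_one]
    have h9 : transvection i j c * transvection i j c - (2 : F) • transvection i j c + 1 = 0 := by
      rw [transvection_mul_transvection_same i j hij]
      ext a b
      simp only [transvection, Matrix.add_apply, Matrix.sub_apply, Matrix.smul_apply,
        Matrix.single_apply, Matrix.zero_apply, smul_eq_mul]
      split_ifs <;> ring
    rw [h9, mul_zero] at h8
    have h10 : (g' : Matrix (Fin n) (Fin n) F) * g' - (2 : F) • (g' : Matrix (Fin n) (Fin n) F) + 1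
        = 0 := hinv.mul_left_eq_zero.1 h8
    have h11 : (ζ - 1) ^ 2 = 0 := by
      have h12 := congrFun (congrFun h10 i) i
      rw [h6, Matrix.smul_mul, Matrix.mul_smul, transvection_mul_transvection_same i j hij] at h12
      simp [transvection, hij.symm] at h12
      linear_combination h12
    have h13 : ζ = 1 := by
      have := pow_eq_zero_iff (two_ne_zero) |>.1 h11
      linear_combination this
    rw [h13, one_smul] at h6
    rw [h6] at hg'
    exact hg'
  obtain ⟨b, hb⟩ := Matrix.mem_range_scalar_of_commute_transvectionStruct key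
  exact ⟨b, by rw [← hb, Matrix.scalar_apply, Matrix.smul_one_eq_diagonal]⟩

theorem kappa {F : Type*} [Field F] {σ : F ≃+* F} (hσ2 : ∀ z, σ (σ z) = z) {n : ℕ}
    (A : Matrix (Fin n) (Fin n) F) (hA : A.det ≠ 0) (α : MulAut (PSLn n F)) (hα : Ind α A σ)
    (h : α ^ 2 ∈ Set.range (MulAut.conj : PSLn n F →* MulAut (PSLn n F))) :
    ∃ κ : F, A.det * σ A.det = κ ^ n := by
  obtain ⟨g, hg⟩ := h
  obtain ⟨g0, hg0⟩ := mk_surj g⁻¹
  have h1 := Ind.mul hA hA hα hα
  have hAA : (A * A.map σ).det ≠ 0 := by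
    rw [Matrix.det_mul, map_det']; exact mul_ne_zero hA (by simpa using hA)
  have h2 := Ind.mul hAA (det_one_ne g0.2) h1 (ind_conj g0)
  have e2 : (RingEquiv.refl F).trans (σ.trans σ) = σ.trans σ := by ext z; rfl
  rw [e2, ← pow_two, ← hg, hg0, map_inv, mul_inv_cancel] at h2
  set B := A * A.map σ * (g0 : Matrix (Fin n) (Fin n) F).map (σ.trans σ) with hB
  have hBdet : B.det = A.det * σ A.det := by
    rw [hB, Matrix.det_mul, Matrix.det_mul, map_det', map_det', g0.2, map_one, mul_one]
  have hB0 : B.det ≠ 0 := by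
    rw [hBdet]; exact mul_ne_zero hA (by simpa using hA)
  obtain ⟨b, hb⟩ := scalar_of_ind_one (fun z => hσ2 z) hB0 h2
  refine ⟨b, ?_⟩
  rw [← hBdet, hb, Matrix.det_smul, Matrix.det_one, mul_one, Fintype.card_fin]

end Pool.Agent.CTC
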