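import Pool.Agent.CTC.RDefs

/-! Direct sums: CTC, module RBLK (helper31). -/

set_option autoImplicit false

namespace Pool.Agent.CTC

open Matrix

variable {F : Type*} [Field F]

private theorem b11 {ι : Type*} (X : Matrix ι ι F) (c : F) (i j : ι) :
    Bl X c (Sum.inl i) (Sum.inl j) = X i j := rfl

private theorem b12 {ι : Type*} (X : Matrix ι ι F) (c : F) (i : ι) (j : Unit) :
    Bl X c (Sum.inl i) (Sum.inr j) = 0 := rfl

private theorem b21 {ι : Type*} (X : Matrix ι ι F) (c : F) (i : Unit) (j : ι) :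
    Bl X c (Sum.inr i) (Sum.inl j) = 0 := rfl

private theorem b22 {ι : Type*} (X : Matrix ι ι F) (c : F) (i j : Unit) :
    Bl X c (Sum.inr i) (Sum.inr j) = c := rfl

theorem bl_det {ι : Type*} [Fintype ι] [DecidableEq ι] (X : Matrix ι ι F) (c : F) :
    (Bl X c).det = X.det * c := by
  have h : Bl X c = Matrix.fromBlocks X 0 0 (Matrix.of fun _ _ => c) := rfl
  rw [h, Matrix.det_fromBlocks_zero₂₁]
  congr 1
  simp [Matrix.det_unique]

private theorem bl_mul {ι : Type*} [Fintype ι] (M N : Matrix ι ι F)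
    (c d : F) : Bl M c * Bl N d = Bl (M * N) (c * d) := by
  ext i j
  rcases i with i | i <;> rcases j with j | j <;>
    simp [Matrix.mul_apply, Fintype.sum_sum_type, b11, b12, b21, b22]

private theorem bl_map {ι : Type*} (σ : F ≃+* F) (M : Matrix ι ι F) (c : F) :
    (Bl M c).map σ = Bl (M.map σ) (σ c) := by
  ext i j
  rcases i with i | i <;> rcases j with j | j <;> simp [b11, b12, b21, b22]

private theorem bl_smul {ι : Type*} (a : F) (M : Matrix ι ι F) (c : F) :
    a • Bl M c = Bl (a • M) (a * c) := by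
  ext i j
  rcases i with i | i <;> rcases j with j | j <;> simp [b11, b12, b21, b22]

private theorem det_map' {ι : Type*} [Fintype ι] [DecidableEq ι] (σ : F ≃+* F)
    (M : Matrix ι ι F) : (M.map σ).det = σ M.det := by
  have := (RingHom.map_det (σ : F →+* F) M).symm
  simpa using this

private theorem sm_bl {ι : Type*} [Fintype ι] (σ : F ≃+* F) (M : Matrix ι ι F) (c : F)
    (v : ι ⊕ Unit → F) : sm σ (Bl M c) v =
      Sum.elim (sm σ M (fun i => v (Sum.inl i))) (fun _ => c * σ (v (Sum.inr ()))) := by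
  ext i
  rw [sm_apply]
  rcases i with i | i
  · simp [Matrix.mulVec, dotProduct, sm_apply, Fintype.sum_sum_type, b11, b12]
  · simp [Matrix.mulVec, dotProduct, Fintype.sum_sum_type, b21, b22]

/-- `W ∋ (e,1)` invariant: its projection is everything, `W ∩ (0 ⊕ F)` is `0` (then `W` is the graph
of `l` with `l ∘ T = c σ ∘ l`, so `l = 0`, but `l e = 1`) or `F` -/
theorem cy_bl {ι : Type*} [Fintype ι] [DecidableEq ι] (σ : F ≃+* F) (X : Matrix ι ι F) (c : F)
    (hc : c ≠ 0) (h : Cy σ X) (hn : NC σ X c) : Cy σ (Bl X c) := by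
  obtain ⟨e, he⟩ := h
  refine ⟨Sum.elim e (fun _ => 1), fun W heW hW => ?_⟩
  let pr : (ι ⊕ Unit → F) →ₗ[F] (ι → F) := LinearMap.funLeft F F Sum.inl
  have hpr : ∀ v i, pr v i = v (Sum.inl i) := fun v i => rfl
  have htop : W.map pr = ⊤ := by
    apply he
    · exact ⟨_, heW, by ext i; simp [hpr]⟩
    · rintro _ ⟨w, hw, rfl⟩
      refine ⟨_, hW w hw, ?_⟩
      ext i
      rw [hpr, sm_bl]
      rfl
  by_cases hu : (Pi.single (Sum.inr ()) 1 : ι ⊕ Unit → F) ∈ W
  · rw [Submodule.eq_top_iff']
    intro v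
    have h1 : pr v ∈ W.map pr := by rw [htop]; trivial
    obtain ⟨w, hw, hwv⟩ := h1
    have h2 : v = w + (v (Sum.inr ()) - w (Sum.inr ())) • (Pi.single (Sum.inr ()) 1 :
        ι ⊕ Unit → F) := by
      ext i
      rcases i with i | i
      · have := congrFun hwv i
        rw [hpr, hpr] at this
        simp [this]
      · simp
    rw [h2]
    exact W.add_mem hw (W.smul_mem _ hu)
  · exfalso
    have hinj : Function.Injective (pr.domRestrict W) := by
      rw [← LinearMap.ker_eq_bot, Submodule.eq_bot_iff]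
      rintro ⟨w, hw⟩ hk
      have hk' : pr w = 0 := hk
      by_contra hne
      apply hu
      have ha : w (Sum.inr ()) ≠ 0 := by
        intro ha
        apply hne
        ext i
        rcases i with i | i
        · exact congrFun hk' i
        · exact ha
      have h3 : (Pi.single (Sum.inr ()) 1 : ι ⊕ Unit → F) = (w (Sum.inr ()))⁻¹ • w := by
        ext i
        rcases i with i | i
        · have := congrFun hk' i
          rw [hpr] at this
          simp [this]
        · simp [inv_mul_cancel₀ ha]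
      rw [h3]
      exact W.smul_mem _ hw
    have hsurj : Function.Surjective (pr.domRestrict W) := by
      intro z
      have h1 : z ∈ W.map pr := by rw [htop]; trivial
      obtain ⟨w, hw, hwv⟩ := h1
      exact ⟨⟨w, hw⟩, hwv⟩
    let E : W ≃ₗ[F] (ι → F) := LinearEquiv.ofBijective (pr.domRestrict W) ⟨hinj, hsurj⟩
    have hE : ∀ (w : ι ⊕ Unit → F) (hw : w ∈ W), E.symm (pr w) = ⟨w, hw⟩ := by
      intro w hw
      rw [LinearEquiv.symm_apply_eq]
      rfl
    let l : (ι → F) →ₗ[F] F := (LinearMap.proj (Sum.inr ())).comp (W.subtype.comp E.symm.toLinearMap)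
    have hl : ∀ (w : ι ⊕ Unit → F), w ∈ W → l (pr w) = w (Sum.inr ()) := by
      intro w hw
      show ((E.symm (pr w) : W) : ι ⊕ Unit → F) (Sum.inr ()) = _
      rw [hE w hw]
    have hl0 : l = 0 := by
      apply hn.1
      intro z
      obtain ⟨⟨w, hw⟩, hwz⟩ := hsurj z
      have hwz' : pr w = z := hwz
      rw [← hwz', hl w hw]
      have h4 : sm σ X (pr w) = pr (sm σ (Bl X c) w) := by
        ext i
        rw [hpr, sm_bl]
        rfl
      rw [h4, hl _ (hW w hw), sm_bl]
      rfl
    have h5 := hl _ heW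
    rw [hl0] at h5
    simp at h5

theorem nc_bl {ι : Type*} [Fintype ι] [DecidableEq ι] (σ : F ≃+* F) (X : Matrix ι ι F) (x c : F)
    (hn : NC σ X c) (hx : ∀ y : F, y ≠ 0 → x * y ≠ c * σ y ∧ x * σ y ≠ c * y) :
    NC σ (Bl X x) c := by
  constructor
  · intro l hl
    let i1 : (ι → F) →ₗ[F] (ι ⊕ Unit → F) :=
      { toFun := fun z => Sum.elim z (fun _ => 0)
        map_add' := fun a b => by ext i; rcases i with i | i <;> simp
        map_smul' := fun a b => by ext i; rcases i with i | i <;> simp }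
    have hi1 : ∀ z, i1 z = Sum.elim z (fun _ => 0) := fun z => rfl
    have h1 : l.comp i1 = 0 := by
      apply hn.1
      intro z
      rw [LinearMap.comp_apply, LinearMap.comp_apply, ← hl]
      congr 1
      rw [sm_bl, hi1, hi1]
      ext i
      rcases i with i | i <;> simp
    have h2 : l (Sum.elim (fun _ => 0) (fun _ => 1)) = 0 := by
      by_contra hy
      refine (hx _ hy).1 ?_
      rw [← hl, ← smul_eq_mul, ← map_smul]
      congr 1
      rw [sm_bl]
      ext i
      rcases i with i | i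
      · have : (fun i : ι => (Sum.elim (fun _ => (0 : F)) (fun _ => (1 : F)) : ι ⊕ Unit → F)
          (Sum.inl i)) = 0 := by ext i; simp
        rw [this]
        simp
      · simp
    apply LinearMap.pi_ext'
    intro i
    apply LinearMap.ext_ring
    rw [LinearMap.comp_apply, LinearMap.zero_comp, LinearMap.zero_apply]
    rcases i with i | i
    · have h3 : (LinearMap.single F (fun _ : ι ⊕ Unit => F) (Sum.inl i)) 1 =
          i1 (Pi.single i 1) := by
        rw [hi1]
        ext j
        rcases j with j | j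
        · simp [Pi.single_apply]
        · simp
      rw [h3]
      exact LinearMap.congr_fun h1 _
    · have h3 : (LinearMap.single F (fun _ : ι ⊕ Unit => F) (Sum.inr i)) 1 =
          Sum.elim (fun _ => 0) (fun _ => 1) := by
        ext j
        rcases j with j | j
        · simp
        · simp
      rw [h3]
      exact h2
  · intro w hw
    rw [sm_bl] at hw
    have h1 : (fun i => w (Sum.inl i)) = 0 := by
      apply hn.2
      ext i
      have := congrFun hw (Sum.inl i)
      simpa using this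
    have h2 : w (Sum.inr ()) = 0 := by
      by_contra hy
      refine (hx _ hy).2 ?_
      have := congrFun hw (Sum.inr ())
      simpa using this
    ext i
    rcases i with i | i
    · exact congrFun h1 i
    · exact h2

/-- take `Bl g z` -/
theorem re_bl {ι : Type*} [Fintype ι] [DecidableEq ι] (σ : F ≃+* F) (X : Matrix ι ι F) (lam : F)
    (h : Re σ X lam) (x z : F) (hz : z ≠ 0) (hx : σ x * z * x = lam * σ z) :
    Re σ (Bl X x) lam := by
  obtain ⟨g, hg, h1⟩ := h
  refine ⟨Bl g z, ?_, ?_⟩
  · rw [bl_det]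
    exact mul_ne_zero hg hz
  · rw [bl_map, bl_mul, bl_mul, bl_map, bl_smul, h1, hx]

/-- `g` on `ι`, entry `lam` at (row of `d`, column of `c`), entry `1` at (row of `c`, column of `d`) -/
theorem re_swap {ι : Type*} [Fintype ι] [DecidableEq ι] (σ : F ≃+* F) (hσ : ∀ z, σ (σ z) = z)
    (X : Matrix ι ι F) (lam : F) (hlam : lam ≠ 0) (h : Re σ X lam) (c d : F)
    (hd : d * σ c = lam) : Re σ (Bl (Bl X d) c) lam := by
  obtain ⟨g, hg, h1⟩ := h
  let S : Matrix ι ι F → F → F → Matrix ((ι ⊕ Unit) ⊕ Unit) ((ι ⊕ Unit) ⊕ Unit) F :=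
    fun M p r => Matrix.of fun i j => match i, j with
      | Sum.inl (Sum.inl i), Sum.inl (Sum.inl j) => M i j
      | Sum.inl (Sum.inr _), Sum.inr _ => p
      | Sum.inr _, Sum.inl (Sum.inr _) => r
      | _, _ => 0
  refine ⟨S g lam 1, ?_, ?_⟩
  · have hgg : g * g⁻¹ = 1 := Matrix.mul_nonsing_inv g (isUnit_iff_ne_zero.2 hg)
    have hS : S g lam 1 * S g⁻¹ 1 lam⁻¹ = 1 := by
      ext i j
      rcases i with (i | i) | i <;> rcases j with (j | j) | j <;>
        simp [Matrix.mul_apply, Fintype.sum_sum_type, S, Matrix.one_apply, hlam]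
      have := congrFun (congrFun hgg i) j
      rw [Matrix.mul_apply, Matrix.one_apply] at this
      exact this
    have h2 := congrArg Matrix.det hS
    rw [Matrix.det_mul, Matrix.det_one] at h2
    intro h0
    rw [h0, zero_mul] at h2
    exact zero_ne_one h2
  · have e1 : σ lam = σ d * c := by rw [← hd, map_mul, hσ]
    ext i j
    rcases i with (i | i) | i <;> rcases j with (j | j) | j <;>
      simp [Matrix.mul_apply, Fintype.sum_sum_type, S, Bl, Matrix.fromBlocks]
    · have := congrFun (congrFun h1 i) j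
      simpa [Matrix.mul_apply] using this
    · rw [e1]; ring
    · rw [← hd]; ring

/-- determinants give `σ γ = γ` for `γ = det g`; replace `g` by `g * Bl 1 γ⁻¹`;
`P = lam • (X^σ)⁻¹` -/
theorem real_bl {ι : Type*} [Fintype ι] [DecidableEq ι] (σ : F ≃+* F)
    (X : Matrix ι ι F) (c lam : F) (hlam : lam ≠ 0) (h : Re σ (Bl X c) lam)
    (hD : (Bl X c).det * σ (Bl X c).det = lam ^ (Fintype.card ι + 1)) : RealS σ (Bl X c) := by
  obtain ⟨g, hg, h1⟩ := h
  have hY : (Bl X c).det ≠ 0 := by
    intro h0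
    rw [h0, zero_mul] at hD
    exact pow_ne_zero _ hlam hD.symm
  have hYs : ((Bl X c).map σ).det ≠ 0 := by
    rw [det_map']
    exact (map_ne_zero σ).2 hY
  have hYu : IsUnit ((Bl X c).map σ).det := isUnit_iff_ne_zero.2 hYs
  have hγ : σ g.det = g.det := by
    have h2 := congrArg Matrix.det h1
    rw [Matrix.det_mul, Matrix.det_mul, Matrix.det_smul, det_map', det_map',
      Fintype.card_sum, Fintype.card_unit, ← hD] at h2
    have h3 : (Bl X c).det * σ (Bl X c).det ≠ 0 := mul_ne_zero hY ((map_ne_zero σ).2 hY)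
    apply mul_left_cancel₀ h3
    rw [← h2]
    ring
  refine ⟨g * Bl 1 g.det⁻¹, lam • ((Bl X c).map σ)⁻¹, lam, ?_, hlam, ?_, ?_⟩
  · rw [Matrix.det_mul, bl_det, Matrix.det_one, one_mul, mul_inv_cancel₀ hg]
  · have h4 : g * Bl X c = (lam • ((Bl X c).map σ)⁻¹) * g.map σ := by
      rw [Matrix.smul_mul, ← Matrix.mul_smul, ← h1, Matrix.mul_assoc, ← Matrix.mul_assoc,
        Matrix.nonsing_inv_mul _ hYu, Matrix.one_mul]
    have h5 : (g * Bl 1 g.det⁻¹).map σ = g.map σ * Bl 1 g.det⁻¹ := by
      rw [Matrix.map_mul, bl_map, map_inv₀, hγ, Matrix.map_one σ (map_zero σ) (map_one σ)]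
    rw [h5, ← Matrix.mul_assoc, ← h4, Matrix.mul_assoc, Matrix.mul_assoc, bl_mul, bl_mul,
      Matrix.mul_one, Matrix.one_mul, mul_comm c]
  · rw [Matrix.smul_mul, Matrix.nonsing_inv_mul _ hYu]

end Pool.Agent.CTC
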