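import Pool.Agent.CTC.RDefs

/-! Companion matrices: determinant, cyclicity, no common factors (module RCM1 of CTC). -/

set_option autoImplicit false

namespace Pool.Agent.CTC

open Matrix

variable {F : Type*} [Field F]

namespace RC1

/-- the first row of the expansion -/
def Cn (n k : ℕ) (t s : F) : Matrix (Fin (n + 1)) (Fin (n + 1)) F := fun i j =>
  if (j : ℕ) + 1 < n + 1 then (if (i : ℕ) = j + 1 then 1 else 0)
  else (if (i : ℕ) = 0 then -t else 0) + (if (i : ℕ) = k then -s else 0)

theorem cn_det (n k : ℕ) (hk : 1 ≤ k) (t s : F) : (Cn n k t s).det = (-1) ^ n * (-t) := by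
  rw [Matrix.det_succ_row_zero, Finset.sum_eq_single (Fin.last n)]
  · have h1 : (Cn n k t s) 0 (Fin.last n) = -t := by
      unfold Cn
      rw [if_neg (by simp), if_pos (by simp), if_neg (by simp; omega), add_zero]
    have h2 : (Cn n k t s).submatrix Fin.succ (Fin.last n).succAbove = 1 := by
      ext i j
      rw [Matrix.submatrix_apply, Fin.succAbove_last, Matrix.one_apply]
      unfold Cn
      rw [if_pos (by simp)]
      by_cases h : i = j
      · subst h
        simp
      · rw [if_neg h, if_neg]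
        intro h3
        apply h
        apply Fin.ext
        simpa using h3
    rw [h1, h2, Matrix.det_one, mul_one, Fin.val_last]
  · intro j _ hj
    have h1 : (Cn n k t s) 0 j = 0 := by
      have h2 : (j : ℕ) < n := by
        rcases Nat.lt_or_ge (j : ℕ) n with h | h
        · exact h
        · exact absurd (Fin.ext (show (j : ℕ) = (Fin.last n : ℕ) by
            have := j.isLt
            simp only [Fin.val_last]; omega)) hj
      unfold Cn
      rw [if_pos (by omega), if_neg (by simp)]
    rw [h1]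
    ring
  · intro h
    exact absurd (Finset.mem_univ _) h

/-- the coordinates of the image -/
theorem cm_mulVec (k : ℕ) (hk : 1 ≤ k) (t s : F) (v : Fin (2 * k) → F) (i : Fin (2 * k)) :
    ((Cm k t s) *ᵥ v) i = (if 1 ≤ (i : ℕ) then v ⟨i - 1, by have := i.isLt; omega⟩ else 0) +
      ((if (i : ℕ) = 0 then -t else 0) + (if (i : ℕ) = k then -s else 0)) *
        v ⟨2 * k - 1, by omega⟩ := by
  classical
  have h1 : ∀ j : Fin (2 * k), Cm k t s i j * v j =
      (if (i : ℕ) = j + 1 then v j else 0) +
      (if j = ⟨2 * k - 1, by omega⟩ then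
        ((if (i : ℕ) = 0 then -t else 0) + (if (i : ℕ) = k then -s else 0)) * v j else 0) := by
    intro j
    have hj := j.isLt
    have hi := i.isLt
    unfold Cm
    by_cases h2 : (j : ℕ) + 1 < 2 * k
    · have h3 : j ≠ ⟨2 * k - 1, by omega⟩ := by
        intro h4
        have h5 := congrArg Fin.val h4
        simp only at h5
        omega
      rw [if_pos h2, if_neg h3, add_zero, ite_mul, one_mul, zero_mul]
    · have h3 : j = ⟨2 * k - 1, by omega⟩ := Fin.ext (by simp only; omega)
      rw [if_neg h2, if_pos h3, if_neg (show ¬ ((i : ℕ) = j + 1) by omega), zero_add]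
  rw [Matrix.mulVec, dotProduct, Finset.sum_congr rfl (fun j _ => h1 j),
    Finset.sum_add_distrib, Finset.sum_ite_eq' Finset.univ, if_pos (Finset.mem_univ _)]
  congr 1
  by_cases h2 : 1 ≤ (i : ℕ)
  · rw [if_pos h2, Finset.sum_eq_single (⟨i - 1, by have := i.isLt; omega⟩ : Fin (2 * k))]
    · rw [if_pos (by simp only; omega)]
    · intro j _ hj
      rw [if_neg]
      intro h3
      exact hj (Fin.ext (by simp only; omega))
    · intro h
      exact absurd (Finset.mem_univ _) h
  · rw [if_neg h2]
    refine Finset.sum_eq_zero fun j _ => ?_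
    rw [if_neg (by omega)]

theorem sm_single {k : ℕ} (σ : F ≃+* F) (X : Matrix (Fin (2 * k)) (Fin (2 * k)) F)
    (j : Fin (2 * k)) : sm σ X (Pi.single j 1) = fun i => X i j := by
  rw [sm_apply]
  have h1 : (fun i => σ ((Pi.single j (1 : F) : Fin (2 * k) → F) i)) = Pi.single j 1 := by
    ext i
    by_cases h : i = j
    · subst h; simp
    · simp [h]
  rw [h1, Matrix.mulVec_single_one]
  rfl

/-- the image of a basis vector -/
theorem sm_e {k : ℕ} (σ : F ≃+* F) (t s : F) (j : ℕ) (hj : j + 1 < 2 * k) :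
    sm σ (Cm k t s) (Pi.single (⟨j, by omega⟩ : Fin (2 * k)) 1) =
      Pi.single (⟨j + 1, hj⟩ : Fin (2 * k)) 1 := by
  rw [sm_single]
  ext i
  unfold Cm
  simp only
  rw [if_pos hj]
  by_cases h : (i : ℕ) = j + 1
  · have h1 : i = ⟨j + 1, hj⟩ := Fin.ext h
    rw [if_pos h, h1, Pi.single_eq_same]
  · have h1 : i ≠ ⟨j + 1, hj⟩ := fun h2 => h (congrArg Fin.val h2)
    rw [if_neg h, Pi.single_eq_of_ne h1]

/-- the image of the last basis vector -/
theorem sm_last {k : ℕ} (hk : 1 ≤ k) (σ : F ≃+* F) (t s : F) :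
    sm σ (Cm k t s) (Pi.single (⟨2 * k - 1, by omega⟩ : Fin (2 * k)) 1) =
      (-t) • Pi.single (⟨0, by omega⟩ : Fin (2 * k)) (1 : F) +
        (-s) • Pi.single (⟨k, by omega⟩ : Fin (2 * k)) (1 : F) := by
  rw [sm_single]
  ext i
  unfold Cm
  simp only
  rw [if_neg (by omega), Pi.add_apply, Pi.smul_apply, Pi.smul_apply, smul_eq_mul, smul_eq_mul]
  congr 1
  · by_cases h : (i : ℕ) = 0
    · have h1 : i = ⟨0, by omega⟩ := Fin.ext h
      rw [if_pos h, h1, Pi.single_eq_same, mul_one]
    · have h1 : i ≠ ⟨0, by omega⟩ := fun h2 => h (congrArg Fin.val h2)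
      rw [if_neg h, Pi.single_eq_of_ne h1, mul_zero]
  · by_cases h : (i : ℕ) = k
    · have h1 : i = ⟨k, by omega⟩ := Fin.ext h
      rw [if_pos h, h1, Pi.single_eq_same, mul_one]
    · have h1 : i ≠ ⟨k, by omega⟩ := fun h2 => h (congrArg Fin.val h2)
      rw [if_neg h, Pi.single_eq_of_ne h1, mul_zero]

theorem l_zero {k : ℕ} (l : (Fin (2 * k) → F) →ₗ[F] F)
    (h : ∀ j (hj : j < 2 * k), l (Pi.single (⟨j, hj⟩ : Fin (2 * k)) 1) = 0) : l = 0 := by
  refine LinearMap.pi_ext' fun j => ?_
  refine LinearMap.ext_ring ?_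
  simpa using h j j.isLt

end RC1

open RC1

theorem cm_det (k : ℕ) (hk : 1 ≤ k) (t s : F) : (Cm k t s).det = t := by
  obtain ⟨m, rfl⟩ := Nat.exists_eq_add_of_le' hk
  have h := cn_det (2 * m + 1) (m + 1) hk t s
  have h1 : (Cm (m + 1) t s).det = (Cn (2 * m + 1) (m + 1) t s).det := rfl
  rw [h1, h, pow_succ, pow_mul]
  simp

/-- `e_0` is cyclic -/
theorem cm_cy (σ : F ≃+* F) (k : ℕ) (hk : 1 ≤ k) (t s : F) : Cy σ (Cm k t s) := by
  refine ⟨Pi.single (⟨0, by omega⟩ : Fin (2 * k)) 1, fun W h0 hW => ?_⟩
  have h1 : ∀ j (hj : j < 2 * k), (Pi.single (⟨j, hj⟩ : Fin (2 * k)) (1 : F) : Fin (2 * k) → F) ∈ W := by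
    intro j
    induction j with
    | zero => intro _; exact h0
    | succ j ih =>
      intro hj
      rw [← sm_e σ t s j hj]
      exact hW _ (ih (by omega))
  rw [eq_top_iff]
  intro v _
  rw [show v = ∑ j : Fin (2 * k), v j • Pi.single j (1 : F) from by
    ext i
    rw [Finset.sum_apply, Finset.sum_eq_single i]
    · simp
    · intro j _ hj
      rw [Pi.smul_apply, Pi.single_eq_of_ne (Ne.symm hj), smul_zero]
    · intro h
      exact absurd (Finset.mem_univ _) h]
  exact Submodule.sum_mem _ fun j _ => Submodule.smul_mem _ _ (h1 j j.isLt)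

/-- `T^{2k} (∑ w_j e_j) = - ∑ σ^j(t) w_j e_j`, and `T w = c w` gives `T^{2k} w = (c σ c)^k w` -/
theorem cm_nc (σ : F ≃+* F) (hσ : ∀ z, σ (σ z) = z) (k : ℕ) (hk : 1 ≤ k) (t c : F)
    (hc : t ≠ -(c * σ c) ^ k) : NC σ (Cm k t 0) c := by
  have hN : σ (c * σ c) = c * σ c := by rw [map_mul, hσ, mul_comm]
  refine ⟨fun l hl => ?_, fun w hw => ?_⟩
  · -- the values on the basis
    obtain ⟨x, hx⟩ : ∃ x, x = l (Pi.single (⟨0, by omega⟩ : Fin (2 * k)) 1) := ⟨_, rfl⟩
    have hstep : ∀ j (hj : j + 1 < 2 * k), l (Pi.single (⟨j + 1, hj⟩ : Fin (2 * k)) 1) =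
        c * σ (l (Pi.single (⟨j, by omega⟩ : Fin (2 * k)) 1)) := by
      intro j hj
      rw [← sm_e σ t 0 j hj]
      exact hl _
    have heven : ∀ i (hi : 2 * i < 2 * k), l (Pi.single (⟨2 * i, hi⟩ : Fin (2 * k)) 1) =
        (c * σ c) ^ i * x := by
      intro i
      induction i with
      | zero => intro hi; rw [pow_zero, one_mul, hx]
      | succ i ih =>
        intro hi
        have e1 := hstep (2 * i + 1) (by omega)
        have e2 := hstep (2 * i) (by omega)
        have e3 := ih (by omega)
        have e4 : l (Pi.single (⟨2 * (i + 1), hi⟩ : Fin (2 * k)) 1) =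
          l (Pi.single (⟨2 * i + 1 + 1, by omega⟩ : Fin (2 * k)) 1) := rfl
        rw [e4, e1, e2, e3]
        simp only [map_mul, map_pow, hσ]
        rw [pow_succ]
        ring
    have hlast := hl (Pi.single (⟨2 * k - 1, by omega⟩ : Fin (2 * k)) 1)
    rw [sm_last hk, neg_zero, zero_smul, add_zero, map_smul, ← hx, smul_eq_mul] at hlast
    have hodd : l (Pi.single (⟨2 * k - 1, by omega⟩ : Fin (2 * k)) 1) =
        c * σ ((c * σ c) ^ (k - 1) * x) := by
      rw [← heven (k - 1) (by omega)]
      have e1 := hstep (2 * (k - 1)) (by omega)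
      rw [← e1]
      exact congrArg (fun y : Fin (2 * k) => l (Pi.single y (1 : F)))
        (Fin.ext (show 2 * k - 1 = 2 * (k - 1) + 1 by omega))
    rw [hodd] at hlast
    have e5 : c * σ (c * σ ((c * σ c) ^ (k - 1) * x)) = (c * σ c) ^ k * x := by
      simp only [map_mul, map_pow, hσ]
      rw [show k = k - 1 + 1 by omega, pow_succ, Nat.add_sub_cancel]
      ring
    rw [e5] at hlast
    have hx0 : x = 0 := by
      have e6 : (t + (c * σ c) ^ k) * x = 0 := by linear_combination -hlast
      rcases mul_eq_zero.1 e6 with h | h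
      · exact absurd (by linear_combination h) hc
      · exact h
    have hall : ∀ j (hj : j < 2 * k), l (Pi.single (⟨j, hj⟩ : Fin (2 * k)) 1) = 0 := by
      intro j
      induction j with
      | zero => intro hj; rw [← hx]; exact hx0
      | succ j ih => intro hj; rw [hstep j hj, ih (by omega), map_zero, mul_zero]
    exact l_zero l hall
  · have hcoord : ∀ i : Fin (2 * k), c * w i =
        (if 1 ≤ (i : ℕ) then σ (w ⟨i - 1, by have := i.isLt; omega⟩) else 0) +
        (if (i : ℕ) = 0 then -t else 0) * σ (w ⟨2 * k - 1, by omega⟩) := by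
      intro i
      have h1 := congrFun hw i
      rw [sm_apply, cm_mulVec k hk] at h1
      rw [Pi.smul_apply, smul_eq_mul] at h1
      rw [← h1]
      simp
    obtain ⟨y, hy⟩ : ∃ y, y = w ⟨2 * k - 1, by omega⟩ := ⟨_, rfl⟩
    rw [← hy] at hcoord
    have hstep : ∀ i (hi : i + 1 < 2 * k), w ⟨i, by omega⟩ = σ c * σ (w ⟨i + 1, hi⟩) := by
      intro i hi
      have h1 := hcoord ⟨i + 1, hi⟩
      rw [if_pos (by simp only; omega), if_neg (by simp only; omega), zero_mul, add_zero] at h1
      have h2 := congrArg σ h1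
      rw [map_mul, hσ] at h2
      rw [h2]
      rfl
    have hodd : ∀ j (hj : 2 * j < 2 * k), w ⟨2 * k - 1 - 2 * j, by omega⟩ = (c * σ c) ^ j * y := by
      intro j
      induction j with
      | zero => intro _; rw [pow_zero, one_mul, hy]; rfl
      | succ j ih =>
        intro hj
        have e1 := hstep (2 * k - 1 - 2 * (j + 1)) (by omega)
        have e2 := hstep (2 * k - 1 - 2 * (j + 1) + 1) (by omega)
        have e3 := ih (by omega)
        have e4 : w ⟨2 * k - 1 - 2 * (j + 1) + 1 + 1, by omega⟩ = w ⟨2 * k - 1 - 2 * j, by omega⟩ :=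
          congrArg w (Fin.ext (by simp only; omega))
        rw [e1, e2, e4, e3]
        simp only [map_mul, map_pow, hσ]
        rw [pow_succ]
        ring
    have h0 := hcoord ⟨0, by omega⟩
    rw [if_neg (by simp), if_pos rfl, zero_add] at h0
    have e1 : w ⟨0, by omega⟩ = σ c * σ (w ⟨1, by omega⟩) := hstep 0 (by omega)
    have e2 : w ⟨1, by omega⟩ = (c * σ c) ^ (k - 1) * y := by
      rw [← hodd (k - 1) (by omega)]
      exact congrArg w (Fin.ext (by simp only; omega))
    rw [e1, e2] at h0
    have e3 : c * (σ c * σ ((c * σ c) ^ (k - 1) * y)) = (c * σ c) ^ k * σ y := by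
      rw [map_mul σ _ y, map_pow, hN, show k = k - 1 + 1 by omega, pow_succ, Nat.add_sub_cancel]
      ring
    rw [e3] at h0
    have hy0 : y = 0 := by
      have e6 : (t + (c * σ c) ^ k) * σ y = 0 := by linear_combination h0
      rcases mul_eq_zero.1 e6 with h | h
      · exact absurd (by linear_combination h) hc
      · exact (map_eq_zero σ).1 h
    have hall : ∀ j (hj : j < 2 * k), w ⟨2 * k - 1 - j, by omega⟩ = 0 := by
      intro j
      induction j with
      | zero => intro hj; rw [← hy0, hy]; rfl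
      | succ j ih =>
        intro hj
        have e1 := hstep (2 * k - 1 - (j + 1)) (by omega)
        have e4 : w ⟨2 * k - 1 - (j + 1) + 1, by omega⟩ = w ⟨2 * k - 1 - j, by omega⟩ :=
          congrArg w (Fin.ext (by simp only; omega))
        rw [e1, e4, ih (by omega), map_zero, mul_zero]
    ext i
    have e1 := hall (2 * k - 1 - i) (by have := i.isLt; omega)
    rw [Pi.zero_apply, ← e1]
    exact congrArg w (Fin.ext (by have := i.isLt; simp only; omega))

/-- `X^{2k} + s X^k + t = 0` -/
theorem cm_nc_one (σ : F ≃+* F) (hσ : ∀ z, σ z = z) (k : ℕ) (hk : 1 ≤ k) (t s c : F)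
    (hc : c ^ (2 * k) + s * c ^ k + t ≠ 0) : NC σ (Cm k t s) c := by
  refine ⟨fun l hl => ?_, fun w hw => ?_⟩
  · obtain ⟨x, hx⟩ : ∃ x, x = l (Pi.single (⟨0, by omega⟩ : Fin (2 * k)) 1) := ⟨_, rfl⟩
    have hall : ∀ j (hj : j < 2 * k), l (Pi.single (⟨j, hj⟩ : Fin (2 * k)) 1) = c ^ j * x := by
      intro j
      induction j with
      | zero => intro hj; rw [pow_zero, one_mul, hx]
      | succ j ih =>
        intro hj
        rw [← sm_e σ t s j hj, hl, hσ, ih (by omega), pow_succ]
        ring
    have hlast := hl (Pi.single (⟨2 * k - 1, by omega⟩ : Fin (2 * k)) 1)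
    rw [sm_last hk, map_add, map_smul, map_smul, ← hx, hσ, hall, hall, smul_eq_mul,
      smul_eq_mul] at hlast
    have hx0 : x = 0 := by
      have e5 : c * (c ^ (2 * k - 1) * x) = c ^ (2 * k) * x := by
        rw [← mul_assoc, ← pow_succ', show 2 * k - 1 + 1 = 2 * k by omega]
      have e6 : (c ^ (2 * k) + s * c ^ k + t) * x = 0 := by
        linear_combination -hlast - e5
      rcases mul_eq_zero.1 e6 with h | h
      · exact absurd h hc
      · exact h
    refine l_zero l fun j hj => ?_
    rw [hall j hj, hx0, mul_zero]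
  · have hcoord : ∀ i : Fin (2 * k), c * w i =
        (if 1 ≤ (i : ℕ) then w ⟨i - 1, by have := i.isLt; omega⟩ else 0) +
        ((if (i : ℕ) = 0 then -t else 0) + (if (i : ℕ) = k then -s else 0)) *
          w ⟨2 * k - 1, by omega⟩ := by
      intro i
      have h1 := congrFun hw i
      have h2 : (fun i => σ (w i)) = w := by ext i; rw [hσ]
      rw [sm_apply, h2, cm_mulVec k hk, Pi.smul_apply, smul_eq_mul] at h1
      rw [← h1]
    obtain ⟨y, hy⟩ : ∃ y, y = w ⟨2 * k - 1, by omega⟩ := ⟨_, rfl⟩
    rw [← hy] at hcoord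
    have hstep : ∀ i (hi : i + 1 < 2 * k), w ⟨i, by omega⟩ = c * w ⟨i + 1, hi⟩ +
        (if i + 1 = k then s else 0) * y := by
      intro i hi
      have h1 := hcoord ⟨i + 1, hi⟩
      rw [if_pos (by simp only; omega), if_neg (by simp only; omega), zero_add] at h1
      have h2 : w ⟨i, by omega⟩ = w ⟨(⟨i + 1, hi⟩ : Fin (2 * k)) - 1, by simp only; omega⟩ := rfl
      rw [h2]
      by_cases h3 : i + 1 = k
      · rw [if_pos h3] at h1 ⊢
        linear_combination -h1
      · rw [if_neg h3] at h1 ⊢
        linear_combination -h1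
    have hhigh : ∀ j (hj : j < k), w ⟨2 * k - 1 - j, by omega⟩ = c ^ j * y := by
      intro j
      induction j with
      | zero => intro _; rw [pow_zero, one_mul, hy]; rfl
      | succ j ih =>
        intro hj
        have e1 := hstep (2 * k - 1 - (j + 1)) (by omega)
        have e4 : w ⟨2 * k - 1 - (j + 1) + 1, by omega⟩ = w ⟨2 * k - 1 - j, by omega⟩ :=
          congrArg w (Fin.ext (by simp only; omega))
        rw [e1, e4, ih (by omega), if_neg (by omega), pow_succ]
        ring
    have hlow : ∀ j (hj : j < k), w ⟨k - 1 - j, by omega⟩ = c ^ j * ((c ^ k + s) * y) := by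
      intro j
      induction j with
      | zero =>
        intro _
        have e1 := hstep (k - 1) (by omega)
        have e4 : w ⟨k - 1 + 1, by omega⟩ = w ⟨2 * k - 1 - (k - 1), by omega⟩ :=
          congrArg w (Fin.ext (by simp only; omega))
        rw [e4, hhigh (k - 1) (by omega), if_pos (by omega)] at e1
        have e5 : c * (c ^ (k - 1) * y) = c ^ k * y := by
          rw [← mul_assoc, ← pow_succ', show k - 1 + 1 = k by omega]
        have e6 : w ⟨k - 1 - 0, by omega⟩ = w ⟨k - 1, by omega⟩ := rfl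
        rw [e6, e1, e5, pow_zero]
        ring
      | succ j ih =>
        intro hj
        have e1 := hstep (k - 1 - (j + 1)) (by omega)
        have e4 : w ⟨k - 1 - (j + 1) + 1, by omega⟩ = w ⟨k - 1 - j, by omega⟩ :=
          congrArg w (Fin.ext (by simp only; omega))
        rw [e1, e4, ih (by omega), if_neg (by omega), pow_succ]
        ring
    have h0 := hcoord ⟨0, by omega⟩
    rw [if_neg (by simp), if_pos rfl, zero_add, if_neg (by simp only; omega), add_zero] at h0
    have e2 : w ⟨0, by omega⟩ = c ^ (k - 1) * ((c ^ k + s) * y) := by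
      rw [← hlow (k - 1) (by omega)]
      exact congrArg w (Fin.ext (by simp only; omega))
    rw [e2] at h0
    have hy0 : y = 0 := by
      have e5 : c * (c ^ (k - 1) * ((c ^ k + s) * y)) = (c ^ (2 * k) + s * c ^ k) * y := by
        rw [← mul_assoc, ← pow_succ', show k - 1 + 1 = k by omega, two_mul, pow_add]
        ring
      rw [e5] at h0
      have e6 : (c ^ (2 * k) + s * c ^ k + t) * y = 0 := by linear_combination h0
      rcases mul_eq_zero.1 e6 with h | h
      · exact absurd h hc
      · exact h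
    ext i
    rw [Pi.zero_apply]
    rcases Nat.lt_or_ge (i : ℕ) k with h | h
    · have e1 := hlow (k - 1 - i) (by omega)
      rw [hy0, mul_zero, mul_zero] at e1
      rw [← e1]
      exact congrArg w (Fin.ext (by simp only; omega))
    · have e1 := hhigh (2 * k - 1 - i) (by have := i.isLt; omega)
      rw [hy0, mul_zero] at e1
      rw [← e1]
      exact congrArg w (Fin.ext (by have := i.isLt; simp only; omega))

end Pool.Agent.CTC
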