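import Pool.Agent.CTC.RDefs

/-! Companion matrices: reality (module RCM2 of CTC). -/

set_option autoImplicit false

namespace Pool.Agent.CTC

open Matrix

variable {F : Type*} [Field F]

namespace RC2

/-- the matrix `e_j ↦ d_j e_{π j}` -/
def Gm {ι : Type*} [DecidableEq ι] (π : ι ≃ ι) (d : ι → F) : Matrix ι ι F := fun i j =>
  if i = π j then d j else 0

theorem gm_det {ι : Type*} [Fintype ι] [DecidableEq ι] (π : ι ≃ ι) (d : ι → F)
    (hd : ∀ j, d j ≠ 0) : (Gm π d).det ≠ 0 := by
  have h : (Matrix.of fun i j => if j = π i then (d i)⁻¹ else 0 : Matrix ι ι F) * Gm π d = 1 := by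
    ext i j
    rw [Matrix.mul_apply, Finset.sum_eq_single (π i)]
    · rw [Matrix.of_apply, if_pos rfl, Matrix.one_apply]
      unfold Gm
      by_cases hij : i = j
      · subst hij
        rw [if_pos rfl, if_pos rfl, inv_mul_cancel₀ (hd i)]
      · rw [if_neg hij, if_neg (fun h => hij (π.injective h)), mul_zero]
    · intro l _ hl
      rw [Matrix.of_apply, if_neg hl, zero_mul]
    · intro h
      exact absurd (Finset.mem_univ _) h
  intro h0
  have h1 := congrArg Matrix.det h
  rw [Matrix.det_mul, h0, mul_zero, Matrix.det_one] at h1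
  exact zero_ne_one h1

theorem mul_gm {ι : Type*} [Fintype ι] [DecidableEq ι] (π : ι ≃ ι) (d : ι → F)
    (A : Matrix ι ι F) (i j : ι) : (A * Gm π d) i j = A i (π j) * d j := by
  rw [Matrix.mul_apply, Finset.sum_eq_single (π j)]
  · unfold Gm
    rw [if_pos rfl]
  · intro l _ hl
    unfold Gm
    rw [if_neg hl, mul_zero]
  · intro h
    exact absurd (Finset.mem_univ _) h

theorem mul_cm_lt {k : ℕ} (t s : F) (B : Matrix (Fin (2 * k)) (Fin (2 * k)) F)
    (i j : Fin (2 * k)) (hj : (j : ℕ) + 1 < 2 * k) :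
    (B * Cm k t s) i j = B i ⟨j + 1, hj⟩ := by
  rw [Matrix.mul_apply, Finset.sum_eq_single ⟨j + 1, hj⟩]
  · unfold Cm
    rw [if_pos hj, if_pos rfl, mul_one]
  · intro l _ hl
    unfold Cm
    rw [if_pos hj, if_neg (fun h => hl (Fin.ext h)), mul_zero]
  · intro h
    exact absurd (Finset.mem_univ _) h

theorem mul_cm_last {k : ℕ} (hk : 1 ≤ k) (t s : F) (B : Matrix (Fin (2 * k)) (Fin (2 * k)) F)
    (i j : Fin (2 * k)) (hj : ¬ (j : ℕ) + 1 < 2 * k) :
    (B * Cm k t s) i j = B i ⟨0, by omega⟩ * (-t) + B i ⟨k, by omega⟩ * (-s) := by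
  rw [Matrix.mul_apply]
  have h1 : ∀ l : Fin (2 * k), B i l * Cm k t s l j =
      (if l = ⟨0, by omega⟩ then B i ⟨0, by omega⟩ * (-t) else 0) +
      (if l = ⟨k, by omega⟩ then B i ⟨k, by omega⟩ * (-s) else 0) := by
    intro l
    unfold Cm
    rw [if_neg hj, mul_add]
    congr 1
    · by_cases h : (l : ℕ) = 0
      · have h2 : l = ⟨0, by omega⟩ := Fin.ext h
        rw [if_pos h, if_pos h2, h2]
      · rw [if_neg h, if_neg (fun h2 => h (congrArg Fin.val h2)), mul_zero]
    · by_cases h : (l : ℕ) = k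
      · have h2 : l = ⟨k, by omega⟩ := Fin.ext h
        rw [if_pos h, if_pos h2, h2]
      · rw [if_neg h, if_neg (fun h2 => h (congrArg Fin.val h2)), mul_zero]
  rw [Finset.sum_congr rfl fun l _ => h1 l, Finset.sum_add_distrib, Finset.sum_ite_eq',
    Finset.sum_ite_eq', if_pos (Finset.mem_univ _), if_pos (Finset.mem_univ _)]

/-- `x, lam σ(x), lam σ(lam) x, ..` -/
def dq (σ : F ≃+* F) (lam x : F) : ℕ → F
  | 0 => x
  | j + 1 => lam * σ (dq σ lam x j)

theorem dq_ne (σ : F ≃+* F) (lam x : F) (hlam : lam ≠ 0) (hx : x ≠ 0) (j : ℕ) :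
    dq σ lam x j ≠ 0 := by
  induction j with
  | zero => exact hx
  | succ j ih => exact mul_ne_zero hlam ((map_ne_zero σ).2 ih)

theorem dq_even (σ : F ≃+* F) (hσ : ∀ z, σ (σ z) = z) (lam x : F) (i : ℕ) :
    dq σ lam x (2 * i) = (lam * σ lam) ^ i * x := by
  induction i with
  | zero => simp [dq]
  | succ i ih =>
    rw [show 2 * (i + 1) = 2 * i + 1 + 1 by ring, dq, dq, ih]
    simp only [map_mul, map_pow, hσ]
    rw [pow_succ]
    ring

end RC2

open RC2

/-- `g e_j = g_j e_{2k-1-j}`, `g_0 = 1`, `g_{j+1} = lam σ(g_j)` -/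
theorem cm_re (σ : F ≃+* F) (hσ : ∀ z, σ (σ z) = z) (k : ℕ) (hk : 1 ≤ k) (t lam : F)
    (hlam : lam ≠ 0) (ht : t * σ t = (lam * σ lam) ^ k) : Re σ (Cm k t 0) lam := by
  refine ⟨Gm Fin.revPerm fun j => dq σ lam 1 j, gm_det _ _ fun j => dq_ne σ lam 1 hlam one_ne_zero j,
    ?_⟩
  ext i j
  have hi := i.isLt
  have hj' := j.isLt
  rw [Matrix.smul_apply, Matrix.map_apply, smul_eq_mul]
  by_cases hj : (j : ℕ) + 1 < 2 * k
  · rw [mul_cm_lt _ _ _ _ _ hj, mul_gm, Matrix.map_apply]
    unfold Cm Gm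
    rw [if_pos (by simp only [Fin.revPerm_apply, Fin.val_rev]; omega)]
    by_cases h : (i : ℕ) = 2 * k - 1 - j
    · rw [if_pos (by simp only [Fin.revPerm_apply, Fin.val_rev]; omega),
        if_pos (Fin.ext (by simp only [Fin.revPerm_apply, Fin.val_rev]; omega)), map_one, one_mul]
      rfl
    · rw [if_neg (by simp only [Fin.revPerm_apply, Fin.val_rev]; omega),
        if_neg (show ¬ i = Fin.revPerm j from fun h2 => h (by
          have := congrArg Fin.val h2
          simp only [Fin.revPerm_apply, Fin.val_rev] at this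
          omega)), map_zero]
      ring
  · rw [mul_cm_last hk _ _ _ _ _ hj, neg_zero, mul_zero, add_zero, mul_gm, Matrix.map_apply]
    unfold Cm Gm
    rw [if_neg (by simp only [Fin.revPerm_apply, Fin.val_rev]; omega)]
    by_cases h : (i : ℕ) = 0
    · rw [if_pos h, if_pos (Fin.ext (by simp only [Fin.revPerm_apply, Fin.val_rev]; omega))]
      dsimp only
      have h2 : dq σ lam 1 (2 * (k - 1) + 1) = lam * σ (dq σ lam 1 (2 * (k - 1))) := rfl
      rw [show (j : ℕ) = 2 * (k - 1) + 1 by omega, h2, dq_even σ hσ]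
      have h3 : dq σ lam 1 0 = 1 := rfl
      have h4 : (lam * σ lam) ^ k = (lam * σ lam) ^ (k - 1) * (lam * σ lam) := by
        rw [← pow_succ, Nat.sub_add_cancel hk]
      rw [h3]
      rw [h4] at ht
      simp only [map_mul, map_pow, hσ, map_add, map_neg, neg_zero, ite_self, map_zero, map_one]
      linear_combination ht
    · rw [if_neg h, if_neg (show ¬ i = Fin.revPerm j from fun h2 => h (by
          have := congrArg Fin.val h2
          simp only [Fin.revPerm_apply, Fin.val_rev] at this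
          omega)), map_zero]
      simp

/-- `g e_j = lam^j e_{2k-1-j}` -/
theorem cm_re_one (σ : F ≃+* F) (hσ : ∀ z, σ z = z) (k : ℕ) (hk : 1 ≤ k) (s lam : F)
    (hlam : lam ≠ 0) : Re σ (Cm k (lam ^ k) s) lam := by
  refine ⟨Gm Fin.revPerm fun j => lam ^ (j : ℕ), gm_det _ _ fun j => pow_ne_zero _ hlam, ?_⟩
  ext i j
  have hi := i.isLt
  have hj' := j.isLt
  rw [Matrix.smul_apply, Matrix.map_apply, smul_eq_mul, hσ]
  by_cases hj : (j : ℕ) + 1 < 2 * k
  · rw [mul_cm_lt _ _ _ _ _ hj, mul_gm, Matrix.map_apply, hσ]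
    unfold Cm Gm
    rw [if_pos (by simp only [Fin.revPerm_apply, Fin.val_rev]; omega)]
    by_cases h : (i : ℕ) = 2 * k - 1 - j
    · rw [if_pos (by simp only [Fin.revPerm_apply, Fin.val_rev]; omega),
        if_pos (Fin.ext (by simp only [Fin.revPerm_apply, Fin.val_rev]; omega)), one_mul,
        pow_succ']
    · rw [if_neg (by simp only [Fin.revPerm_apply, Fin.val_rev]; omega),
        if_neg (show ¬ i = Fin.revPerm j from fun h2 => h (by
          have := congrArg Fin.val h2
          simp only [Fin.revPerm_apply, Fin.val_rev] at this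
          omega))]
      ring
  · rw [mul_cm_last hk _ _ _ _ _ hj, mul_gm, mul_gm, Matrix.map_apply, Matrix.map_apply, hσ, hσ]
    have h5 : Cm k (lam ^ k) s i (Fin.revPerm ⟨k, by omega⟩) = if (i : ℕ) = k then 1 else 0 := by
      unfold Cm
      rw [if_pos (by simp only [Fin.revPerm_apply, Fin.val_rev]; omega)]
      by_cases h : (i : ℕ) = k
      · rw [if_pos h, if_pos (by simp only [Fin.revPerm_apply, Fin.val_rev]; omega)]
      · rw [if_neg h, if_neg (by simp only [Fin.revPerm_apply, Fin.val_rev]; omega)]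
    have h6 : Cm k (lam ^ k) s i (Fin.revPerm ⟨0, by omega⟩) =
        (if (i : ℕ) = 0 then -lam ^ k else 0) + (if (i : ℕ) = k then -s else 0) := by
      unfold Cm
      rw [if_neg (by simp only [Fin.revPerm_apply, Fin.val_rev]; omega)]
    rw [h5, h6]
    unfold Gm
    have h7 : lam ^ (j : ℕ) * lam = lam ^ k * lam ^ k := by
      rw [← pow_succ, ← pow_add]
      congr 1
      omega
    by_cases h : (i : ℕ) = 0
    · rw [if_pos h, if_neg (by omega), if_neg (by omega),
        if_pos (Fin.ext (by simp only [Fin.revPerm_apply, Fin.val_rev]; omega))]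
      simp only [pow_zero]
      linear_combination -h7
    · rw [if_neg h, if_neg (show ¬ i = Fin.revPerm j from fun h2 => h (by
          have := congrArg Fin.val h2
          simp only [Fin.revPerm_apply, Fin.val_rev] at this
          omega))]
      by_cases h8 : (i : ℕ) = k
      · rw [if_pos h8, if_pos h8]
        simp only [pow_zero]
        ring
      · rw [if_neg h8, if_neg h8]
        ring

/-- the index `0 ↦ 0`, `j ↦ 2k - j` -/
private def negP (n : ℕ) (_ : 0 < n) : Fin n ≃ Fin n where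
  toFun j := if h : (j : ℕ) = 0 then j else ⟨n - j, by omega⟩
  invFun j := if h : (j : ℕ) = 0 then j else ⟨n - j, by omega⟩
  left_inv j := by
    have := j.isLt
    dsimp only
    by_cases h : (j : ℕ) = 0
    · rw [dif_pos h, dif_pos h]
    · rw [dif_neg h, dif_neg (by simp only; omega)]
      exact Fin.ext (by simp only; omega)
  right_inv j := by
    have := j.isLt
    dsimp only
    by_cases h : (j : ℕ) = 0
    · rw [dif_pos h, dif_pos h]
    · rw [dif_neg h, dif_neg (by simp only; omega)]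
      exact Fin.ext (by simp only; omega)

private lemma negP_zero (n : ℕ) (hn : 0 < n) (j : Fin n) (h : (j : ℕ) = 0) :
    ((negP n hn j : Fin n) : ℕ) = 0 := by
  have h1 : negP n hn j = if h : (j : ℕ) = 0 then j else ⟨n - j, by omega⟩ := rfl
  rw [h1, dif_pos h, h]

private lemma negP_ne (n : ℕ) (hn : 0 < n) (j : Fin n) (h : (j : ℕ) ≠ 0) :
    ((negP n hn j : Fin n) : ℕ) = n - j := by
  have h1 : negP n hn j = if h : (j : ℕ) = 0 then j else ⟨n - j, by omega⟩ := rfl
  rw [h1, dif_neg h]

/-- `g e_0 = e_0`, `g e_j = g_j e_{2k-j}` for `1 ≤ j`, `g_1 = - lam / σ t`, `g_{j+1} = lam σ(g_j)` -/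
theorem cm_re_sq (σ : F ≃+* F) (hσ : ∀ z, σ (σ z) = z) (k : ℕ) (hk : 1 ≤ k) (t lam : F)
    (hlam : lam ≠ 0) (ht : t ^ 2 = (lam * σ lam) ^ k) : Re σ (Cm k t 0) lam := by
  have ht0 : t ≠ 0 := by
    intro h
    rw [h, zero_pow two_ne_zero] at ht
    exact pow_ne_zero k (mul_ne_zero hlam ((map_ne_zero σ).2 hlam)) ht.symm
  have hst : σ t ≠ 0 := (map_ne_zero σ).2 ht0
  have hx0 : -lam / σ t ≠ 0 := div_ne_zero (neg_ne_zero.2 hlam) hst
  have hn : 0 < 2 * k := by omega
  let d : Fin (2 * k) → F := fun j =>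
    if (j : ℕ) = 0 then 1 else dq σ lam (-lam / σ t) (j - 1)
  have hd : ∀ j, d j ≠ 0 := by
    intro j
    change (if (j : ℕ) = 0 then (1 : F) else dq σ lam (-lam / σ t) (j - 1)) ≠ 0
    by_cases h : (j : ℕ) = 0
    · rw [if_pos h]
      exact one_ne_zero
    · rw [if_neg h]
      exact dq_ne _ _ _ hlam hx0 _
  refine ⟨Gm (negP (2 * k) hn) d, gm_det _ _ hd, ?_⟩
  ext i j
  have hi := i.isLt
  have hj' := j.isLt
  rw [Matrix.smul_apply, Matrix.map_apply, smul_eq_mul]
  by_cases hj : (j : ℕ) + 1 < 2 * k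
  · rw [mul_cm_lt _ _ _ _ _ hj, mul_gm, Matrix.map_apply]
    have h1 := negP_ne (2 * k) hn ⟨j + 1, hj⟩ (by simp only; omega)
    simp only at h1
    by_cases h0 : (j : ℕ) = 0
    · have h2 := negP_zero (2 * k) hn j h0
      have h3 : d ⟨j + 1, hj⟩ = -lam / σ t := by
        change (if (j : ℕ) + 1 = 0 then (1 : F) else dq σ lam (-lam / σ t) (j + 1 - 1)) = _
        rw [if_neg (by omega), h0]
        rfl
      have h4 : d j = 1 := if_pos h0
      rw [h3]
      unfold Cm Gm
      rw [if_neg (by omega)]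
      by_cases h : (i : ℕ) = 0
      · rw [if_pos h, if_pos (Fin.ext (by omega)), h4]
        simp only [map_neg, neg_zero, ite_self, add_zero, map_one]
        field_simp
      · have hne : ¬ i = negP (2 * k) hn j := fun h5 =>
          h (by have := congrArg Fin.val h5; omega)
        rw [if_neg h, if_neg hne]
        simp
    · have h2 := negP_ne (2 * k) hn j h0
      have h3 : d ⟨j + 1, hj⟩ = lam * σ (d j) := by
        change (if (j : ℕ) + 1 = 0 then (1 : F) else dq σ lam (-lam / σ t) (j + 1 - 1)) =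
          lam * σ (if (j : ℕ) = 0 then (1 : F) else dq σ lam (-lam / σ t) (j - 1))
        rw [if_neg (by omega), if_neg h0, Nat.add_sub_cancel]
        obtain ⟨l, hl⟩ := Nat.exists_eq_succ_of_ne_zero h0
        rw [hl]
        rfl
      rw [h3]
      unfold Cm Gm
      rw [if_pos (by omega)]
      by_cases h : (i : ℕ) = 2 * k - j
      · rw [if_pos (by omega), if_pos (Fin.ext (by omega)), map_one, one_mul]
      · rw [if_neg (by omega), if_neg (fun h5 => h (by have := congrArg Fin.val h5; omega)),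
          map_zero]
        ring
  · rw [mul_cm_last hk _ _ _ _ _ hj, neg_zero, mul_zero, add_zero, mul_gm, Matrix.map_apply]
    have h1 := negP_zero (2 * k) hn ⟨0, by omega⟩ rfl
    have h2 := negP_ne (2 * k) hn j (by omega)
    have h3 : d ⟨0, by omega⟩ = 1 := if_pos rfl
    have h4 : d j = (lam * σ lam) ^ (k - 1) * (-lam / σ t) := by
      change (if (j : ℕ) = 0 then (1 : F) else dq σ lam (-lam / σ t) (j - 1)) = _
      rw [if_neg (by omega), show (j : ℕ) - 1 = 2 * (k - 1) by omega, dq_even σ hσ]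
    rw [h3]
    unfold Cm Gm
    rw [if_pos (by omega)]
    by_cases h : (i : ℕ) = 1
    · rw [if_pos (by omega), if_pos (Fin.ext (by omega)), h4]
      have h5 : (lam * σ lam) ^ k = (lam * σ lam) ^ (k - 1) * (lam * σ lam) := by
        rw [← pow_succ, Nat.sub_add_cancel hk]
      rw [h5] at ht
      simp only [map_mul, map_pow, hσ, map_div₀, map_neg, map_one]
      field_simp
      linear_combination -ht
    · rw [if_neg (by omega), if_neg (fun h5 => h (by have := congrArg Fin.val h5; omega)),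
        map_zero]
      ring

end Pool.Agent.CTC
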