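import Mathlib

/-!
# CTC, module RNT: norms, Hilbert 90 and square roots for an involution of a finite field

`nt_one` is in `Pool.Agent.CTC.RNt1`.
-/

set_option autoImplicit false

namespace Pool.Agent.CTC

variable {F : Type*} [Field F]

/-- Hilbert 90: `w = 1 + x`, or `w = y - σ y` if `x = -1` -/
theorem nt_h90 (σ : F ≃+* F) (hσ : ∀ z, σ (σ z) = z) (h1 : ∃ z, σ z ≠ z) (x : F)
    (hx : x * σ x = 1) : ∃ w, w ≠ 0 ∧ x * σ w = w := by
  by_cases h : x = -1
  · obtain ⟨y, hy⟩ := h1
    refine ⟨y - σ y, fun h0 => hy (sub_eq_zero.1 h0).symm, ?_⟩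
    rw [map_sub, hσ, h]
    ring
  · refine ⟨1 + x, fun h0 => h (by linear_combination h0), ?_⟩
    rw [map_add, map_one]
    linear_combination hx

/-- the norm is surjective onto the fixed field -/
theorem nt_norm [Finite F] (σ : F ≃+* F) (hσ : ∀ z, σ (σ z) = z) (h1 : ∃ z, σ z ≠ z) (y : F)
    (hy : σ y = y) : ∃ x, x * σ x = y := by
  by_cases hy0 : y = 0
  · exact ⟨0, by rw [hy0, zero_mul]⟩
  let s : Fˣ →* Fˣ := Units.map (σ : F →* F)
  have hs : ∀ u : Fˣ, ((s u : Fˣ) : F) = σ (u : F) := fun u => rfl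
  let N : Fˣ →* Fˣ :=
    { toFun := fun u => u * s u
      map_one' := by rw [map_one, one_mul]
      map_mul' := fun u v => by rw [map_mul]; exact mul_mul_mul_comm _ _ _ _ }
  let T : Fˣ →* Fˣ :=
    { toFun := fun u => u * (s u)⁻¹
      map_one' := by rw [map_one, inv_one, one_mul]
      map_mul' := fun u v => by rw [map_mul, mul_inv]; exact mul_mul_mul_comm _ _ _ _ }
  have hN : ∀ u, N u = u * s u := fun _ => rfl
  have hT : ∀ u, T u = u * (s u)⁻¹ := fun _ => rfl
  have hss : ∀ u, s (s u) = u := fun u => Units.ext (hσ u)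
  have hker : N.ker = T.range := by
    ext u
    rw [MonoidHom.mem_ker, MonoidHom.mem_range]
    constructor
    · intro h
      have h2 : (u : F) * σ (u : F) = 1 := by
        have := congrArg (fun v : Fˣ => (v : F)) h
        simpa [hN, hs] using this
      obtain ⟨w, hw, h3⟩ := nt_h90 σ hσ h1 u h2
      refine ⟨Units.mk0 w hw, ?_⟩
      rw [hT, mul_inv_eq_iff_eq_mul]
      apply Units.ext
      rw [Units.val_mul, hs, Units.val_mk0, h3]
    · rintro ⟨w, rfl⟩
      rw [hN, hT, map_mul, map_inv, hss]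
      group
  have hle : N.range ≤ T.ker := by
    rintro _ ⟨u, rfl⟩
    rw [MonoidHom.mem_ker, hT, hN, map_mul, hss, mul_comm (s u) u, mul_inv_cancel]
  have e1 := Subgroup.card_mul_index N.ker
  have e2 := Subgroup.card_mul_index T.ker
  rw [Subgroup.index_ker] at e1 e2
  rw [hker] at e1
  have hpos : 0 < Nat.card T.range := Nat.card_pos
  have e3 : Nat.card N.range = Nat.card T.ker := by
    have : Nat.card T.range * Nat.card N.range = Nat.card T.range * Nat.card T.ker := by
      rw [e1, mul_comm, e2]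
    exact Nat.eq_of_mul_eq_mul_left hpos this
  have e4 : N.range = T.ker := Subgroup.eq_of_le_of_card_ge hle e3.ge
  have hmem : Units.mk0 y hy0 ∈ T.ker := by
    rw [MonoidHom.mem_ker, hT, mul_inv_eq_one]
    apply Units.ext
    rw [hs, Units.val_mk0, hy]
  rw [← e4] at hmem
  obtain ⟨u, hu⟩ := hmem
  refine ⟨u, ?_⟩
  have := congrArg (fun v : Fˣ => (v : F)) hu
  simpa [hN, hs] using this

/-- the elements `y / σ y` of norm one are not all `± 1` -/
theorem nt_two [Finite F] (σ : F ≃+* F) (hσ : ∀ z, σ (σ z) = z) (h1 : ∃ z, σ z ≠ z) :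
    ∃ x, x * σ x = 1 ∧ x ^ 2 ≠ 1 := by
  obtain ⟨z, hz⟩ := h1
  have key : ∀ y : F, σ y ≠ y → y ^ 2 ≠ σ y ^ 2 → ∃ x, x * σ x = 1 ∧ x ^ 2 ≠ 1 := by
    intro y h1 h2
    have hy : y ≠ 0 := fun h => h1 (by rw [h, map_zero])
    have hy' : σ y ≠ 0 := fun h => hy ((map_eq_zero σ).1 h)
    refine ⟨y / σ y, ?_, fun h => h2 ?_⟩
    · rw [map_div₀, hσ]
      field_simp
    · rw [div_pow, div_eq_one_iff_eq (pow_ne_zero 2 hy')] at h
      exact h
  by_cases h2 : z ^ 2 = σ z ^ 2
  · have h3 : σ z = -z := by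
      have : (σ z - z) * (σ z + z) = 0 := by linear_combination -h2
      rcases mul_eq_zero.1 this with h | h
      · exact absurd (sub_eq_zero.1 h) hz
      · linear_combination h
    have h4 : (2 : F) ≠ 0 := by
      intro h
      apply hz
      rw [h3]
      linear_combination (-z) * h
    have hz0 : z ≠ 0 := fun h => hz (by rw [h, map_zero])
    refine key (1 + z) ?_ ?_
    · rw [map_add, map_one, h3]
      intro h
      exact hz0 ((mul_eq_zero.1 (by linear_combination -h : (2 : F) * z = 0)).resolve_left h4)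
    · rw [map_add, map_one, h3]
      intro h
      have h5 : (2 : F) * ((2 : F) * z) = 0 := by linear_combination h
      exact hz0 ((mul_eq_zero.1 ((mul_eq_zero.1 h5).resolve_left h4)).resolve_left h4)
  · exact key z hz h2

/-- there are `q0 + 1 ≥ 5` elements of norm one -/
theorem nt_four [Finite F] (σ : F ≃+* F) (hσ : ∀ z, σ (σ z) = z) (h1 : ∃ z, σ z ≠ z)
    (hq : 4 ≤ Nat.card {z : F // σ z = z}) : ∃ x, x * σ x = 1 ∧ x ^ 4 ≠ 1 := by
  classical
  by_contra hcon
  push Not at hcon
  obtain ⟨z, hz⟩ := h1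
  have hne : ∀ c : {z : F // σ z = z}, z + c.1 ≠ 0 := by
    intro c h
    apply hz
    have : z = -c.1 := by linear_combination h
    rw [this, map_neg, c.2]
  have hne' : ∀ c : {z : F // σ z = z}, σ z + c.1 ≠ 0 := by
    intro c h
    apply hne c
    have := congrArg σ h
    rw [map_add, hσ, c.2, map_zero] at this
    exact this
  have hsub : z - σ z ≠ 0 := fun h => hz (sub_eq_zero.1 h).symm
  let f : Option {z : F // σ z = z} → {x : F // x ^ 4 = 1} := fun o => match o with
    | none => ⟨1, one_pow 4⟩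
    | some c => ⟨(z + c.1) / (σ z + c.1), hcon _ (by
        rw [map_div₀, map_add, map_add, hσ, c.2]
        have h1 := hne c
        have h2 := hne' c
        field_simp)⟩
  have hf : Function.Injective f := by
    rintro (_ | c) (_ | d) h
    · rfl
    · exfalso
      have h0 : (1 : F) = (z + d.1) / (σ z + d.1) := congrArg Subtype.val h
      rw [eq_div_iff (hne' d)] at h0
      exact hsub (by linear_combination -h0)
    · exfalso
      have h0 : (z + c.1) / (σ z + c.1) = (1 : F) := congrArg Subtype.val h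
      rw [div_eq_iff (hne' c)] at h0
      exact hsub (by linear_combination h0)
    · have h0 : (z + c.1) / (σ z + c.1) = (z + d.1) / (σ z + d.1) := congrArg Subtype.val h
      rw [div_eq_div_iff (hne' c) (hne' d)] at h0
      have h5 : (z - σ z) * (d.1 - c.1) = 0 := by linear_combination h0
      have h6 := (mul_eq_zero.1 h5).resolve_left hsub
      rw [show c = d from Subtype.ext (sub_eq_zero.1 h6).symm]
  have h5 : Nat.card (Option {z : F // σ z = z}) ≤ Nat.card {x : F // x ^ 4 = 1} :=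
    Nat.card_le_card_of_injective f hf
  rw [Finite.card_option] at h5
  have h6 : Nat.card {x : F // x ^ 4 = 1} ≤ 4 := by
    have h7 : Nat.card {x : F // x ^ 4 = 1} = (Polynomial.nthRoots 4 (1 : F)).toFinset.card := by
      refine Nat.subtype_card _ fun x => ?_
      rw [Multiset.mem_toFinset, Polynomial.mem_nthRoots (by norm_num : 0 < 4)]
    rw [h7]
    exact (Multiset.toFinset_card_le _).trans (Polynomial.card_nthRoots 4 1)
  omega

/-- if `λ` is not a square of a fixed element then it is the square of `α` with `σ α = - α` -/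
theorem nt_sqrt [Finite F] (σ : F ≃+* F) (hσ : ∀ z, σ (σ z) = z) (h1 : ∃ z, σ z ≠ z) (y : F)
    (hy : σ y = y) (hn : ¬ ∃ r, σ r = r ∧ r ^ 2 = y) : ∃ a, a ^ 2 = y ∧ σ a = -a := by
  classical
  let K : Subfield F := (σ : F →+* F).eqLocusField (RingHom.id F)
  have hK : ∀ x : F, x ∈ K ↔ σ x = x := fun x => Iff.rfl
  have : Fintype K := Fintype.ofFinite K
  have hsq : ∀ x : K, ¬ IsSquare x → ¬ ∃ r : F, σ r = r ∧ r ^ 2 = (x : F) := by
    rintro x hx ⟨r, hr, h⟩
    apply hx
    refine ⟨⟨r, hr⟩, Subtype.ext ?_⟩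
    rw [← h, sq]
    rfl
  have hsq' : ∀ x : K, (¬ ∃ r : F, σ r = r ∧ r ^ 2 = (x : F)) → ¬ IsSquare x := by
    rintro x hx ⟨r, h⟩
    apply hx
    refine ⟨r, (hK _).1 r.2, ?_⟩
    rw [h, sq]
    rfl
  let v : K := ⟨y, hy⟩
  have hv : ¬ IsSquare v := hsq' v hn
  by_cases hc : ringChar K = 2
  · exact absurd (FiniteField.isSquare_of_char_two hc v) hv
  obtain ⟨z, hz⟩ := h1
  set w : F := z - σ z with hw
  have hw0 : w ≠ 0 := fun h => hz (sub_eq_zero.1 h).symm
  have hσw : σ w = -w := by rw [hw, map_sub, hσ]; ring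
  have h2 : (2 : F) ≠ 0 := by
    intro h
    apply Ring.two_ne_zero hc
    have h3 : K.subtype (2 : K) = 0 := by rw [map_ofNat]; exact h
    exact (map_eq_zero K.subtype).1 h3
  let u : K := ⟨w ^ 2, by rw [hK, map_pow, hσw]; ring⟩
  have hu : ¬ IsSquare u := by
    apply hsq'
    rintro ⟨r, hr, h⟩
    have h3 : (r - w) * (r + w) = 0 := by
      have h4 : r ^ 2 = w ^ 2 := h
      linear_combination h4
    have h5 : σ w = w := by
      rcases mul_eq_zero.1 h3 with h6 | h6
      · rw [← sub_eq_zero.1 h6, hr]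
      · have : w = -r := by linear_combination h6
        rw [this, map_neg, hr]
    rw [hσw] at h5
    exact hw0 ((mul_eq_zero.1 (by linear_combination -h5 : (2 : F) * w = 0)).resolve_left h2)
  have e1 : quadraticChar K u = -1 := quadraticChar_neg_one_iff_not_isSquare.2 hu
  have e2 : quadraticChar K v = -1 := quadraticChar_neg_one_iff_not_isSquare.2 hv
  have e3 : quadraticChar K (u * v) = 1 := by rw [map_mul, e1, e2]; norm_num
  have hu0 : u ≠ 0 := fun h => hu (h ▸ IsSquare.zero)
  have hv0 : v ≠ 0 := fun h => hv (h ▸ IsSquare.zero)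
  obtain ⟨s, hs⟩ := (quadraticChar_one_iff_isSquare (mul_ne_zero hu0 hv0)).1 e3
  have hs' : w ^ 2 * y = (s : F) * s := congrArg Subtype.val hs
  refine ⟨(s : F) / w, ?_, ?_⟩
  · rw [div_pow, div_eq_iff (pow_ne_zero 2 hw0)]
    linear_combination -hs'
  · rw [map_div₀, hσw, (hK _).1 s.2, div_neg]

end Pool.Agent.CTC
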