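import Pool.Agent.CTC.RDefs

/-! Powers in a finite field (helper93; statement by helper47). -/

set_option autoImplicit false

namespace Pool.Agent.CTC

variable {F : Type*} [Field F]

/-- `H` = the group of `h`-th powers: if `|H|` is even then `-1 ∈ H`, if it is odd then every
element of `H` is a square of an element of `H` -/
theorem nt_one [Finite F] (h : ℕ) (D κ : F) (hκ : κ ≠ 0) (hD : D ^ 2 = κ ^ (2 * h)) :
    ∃ lam, lam ≠ 0 ∧ lam ^ (2 * h) = D ^ 2 ∧
      (D = lam ^ h ∨ (D = -lam ^ h ∧ ∃ r, r ^ 2 = lam)) := by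
  have hD' : D ^ 2 = (κ ^ h) ^ 2 := by rw [hD, mul_comm 2 h, pow_mul]
  rcases sq_eq_sq_iff_eq_or_eq_neg.1 hD' with h1 | h1
  · exact ⟨κ, hκ, hD.symm, Or.inl h1⟩
  · let H : Subgroup Fˣ := (powMonoidHom h : Fˣ →* Fˣ).range
    by_cases hm : Even (Nat.card H)
    · have : Fact (Nat.Prime 2) := ⟨Nat.prime_two⟩
      obtain ⟨x, hx⟩ := exists_prime_orderOf_dvd_card' (G := H) 2 hm.two_dvd
      obtain ⟨u, hu⟩ := x.2
      have hx2 : (((x : Fˣ) : F)) ^ 2 = 1 := by
        have h2 : x ^ 2 = 1 := by rw [← hx]; exact pow_orderOf_eq_one x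
        have h3 : ((x : Fˣ)) ^ 2 = 1 := by
          rw [← Subgroup.coe_pow, h2]; rfl
        rw [← Units.val_pow_eq_pow_val, h3, Units.val_one]
      have hx1 : ((x : Fˣ) : F) ≠ 1 := by
        intro h2
        have h3 : x = 1 := by
          apply Subtype.ext
          apply Units.ext
          rw [h2]; rfl
        rw [h3, orderOf_one] at hx
        norm_num at hx
      have hx3 : ((x : Fˣ) : F) = -1 := by
        rcases mul_self_eq_one_iff.1 ((sq _).symm.trans hx2) with h2 | h2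
        · exact absurd h2 hx1
        · exact h2
      have hu' : (u : F) ^ h = -1 := by
        rw [← hx3, ← hu]
        simp
      refine ⟨u * κ, mul_ne_zero u.ne_zero hκ, ?_, Or.inl ?_⟩
      · rw [mul_pow, hD, mul_comm 2 h, pow_mul (u : F), hu']
        ring
      · rw [mul_pow, hu', h1]; ring
    · have hodd : Odd (Nat.card H) := Nat.not_even_iff_odd.1 hm
      obtain ⟨j, hj⟩ := hodd
      let y : H := ⟨(Units.mk0 κ hκ) ^ h, ⟨Units.mk0 κ hκ, rfl⟩⟩
      have hy : y ^ (2 * j + 1) = 1 := by rw [← hj]; exact pow_card_eq_one'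
      have hy2 : (y ^ (j + 1)) ^ 2 = y := by
        calc (y ^ (j + 1)) ^ 2 = y ^ (2 * j + 1) * y := by
              rw [← pow_mul, ← pow_succ]; congr 1; ring
          _ = y := by rw [hy, one_mul]
      obtain ⟨v, hv⟩ := (y ^ (j + 1)).2
      have hv2 : ((v : F) ^ 2) ^ h = κ ^ h := by
        have e1 : ((v ^ h) ^ 2 : Fˣ) = (Units.mk0 κ hκ) ^ h := by
          have e2 : (powMonoidHom h : Fˣ →* Fˣ) v = v ^ h := rfl
          rw [← e2, hv, ← Subgroup.coe_pow, hy2]
        have e3 := congrArg (fun z : Fˣ => (z : F)) e1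
        simp only [Units.val_pow_eq_pow_val, Units.val_mk0] at e3
        rw [← e3]; ring
      refine ⟨(v : F) ^ 2, pow_ne_zero _ v.ne_zero, ?_, Or.inr ⟨?_, v, rfl⟩⟩
      · rw [mul_comm 2 h, pow_mul, hv2, hD']
      · rw [hv2, h1]

end Pool.Agent.CTC
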