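import Pool.Agent.CTC.Asm
import Pool.Agent.CTC.RBlk
import Pool.Agent.CTC.RCm1
import Pool.Agent.CTC.RCm2
import Pool.Agent.CTC.RNt
import Pool.Agent.CTC.RNt1

/-! Existence of real classes, `σ = 1` (helper93; statement by helper47). -/

set_option autoImplicit false

namespace Pool.Agent.CTC

open Matrix

variable {F : Type*} [Field F]

private lemma rex_reindex [Finite F] (σ : F ≃+* F) {ι : Type} [Fintype ι] [DecidableEq ι] {n : ℕ}
    (hn : Fintype.card ι = n) (D : F) (X : Matrix ι ι F) (hX : X.det = D) (hF : FactS σ X)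
    (hR : RealS σ X) : ∃ X : Matrix (Fin n) (Fin n) F, X.det = D ∧ FactS σ X ∧ RealS σ X := by
  let e : Fin n ≃ ι := (Fintype.equivOfCardEq (by rw [Fintype.card_fin, hn]))
  refine ⟨X.submatrix e e, ?_, fact_reindex σ e X hF, real_reindex σ e X hR⟩
  rw [Matrix.det_submatrix_equiv_self, hX]

private lemma rex_even [Finite F] (σ : F ≃+* F) (hσ : ∀ z, σ z = z) (k : ℕ) (hk : 1 ≤ k)
    (D lam s c d : F) (hlam : lam ≠ 0) (hc : c ≠ 0) (hd : d ≠ 0) (hcd : d ≠ c)
    (h1 : c ^ (2 * k) + s * c ^ k + lam ^ k ≠ 0) (h2 : d ^ (2 * k) + s * d ^ k + lam ^ k ≠ 0)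
    (hRe : Re σ (Bl (Bl (Cm k (lam ^ k) s) d) c) lam) (hdet : lam ^ k * d * c = D)
    (hDD : D * D = lam ^ (2 * k + 2)) :
    ∃ X : Matrix (Fin (2 * (k + 1))) (Fin (2 * (k + 1))) F,
      X.det = D ∧ FactS σ X ∧ RealS σ X := by
  have hdt : (Bl (Bl (Cm k (lam ^ k) s) d) c).det = D := by
    rw [bl_det, bl_det, cm_det k hk, hdet]
  refine rex_reindex σ (ι := (Fin (2 * k) ⊕ Unit) ⊕ Unit) (by simp; ring) D
    (Bl (Bl (Cm k (lam ^ k) s) d) c) hdt ?_ ?_
  · refine fact_bl σ (by simp; omega) _ c ?_ hc ?_ ?_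
    · rw [bl_det, cm_det k hk]
      exact mul_ne_zero (pow_ne_zero _ hlam) hd
    · exact cy_bl σ _ d hd (cm_cy σ k hk _ _) (cm_nc_one σ hσ k hk _ _ _ h2)
    · refine nc_bl σ _ d c (cm_nc_one σ hσ k hk _ _ _ h1) ?_
      intro y hy
      rw [hσ]
      have : d * y ≠ c * y := fun h => hcd (mul_right_cancel₀ hy h)
      exact ⟨this, this⟩
  · refine real_bl σ _ c lam hlam hRe ?_
    rw [hdt, hσ, hDD]
    congr 1
    simp

theorem real_ex_one [Finite F] (σ : F ≃+* F) (hσ : ∀ z, σ z = z) {n : ℕ} (hn : 3 ≤ n) (D κ : F)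
    (hD : D ≠ 0) (hκ : D * σ D = κ ^ n) (h : Odd n ∨ 4 ≤ Nat.card {z : F // σ z = z}) :
    ∃ X : Matrix (Fin n) (Fin n) F, X.det = D ∧ FactS σ X ∧ RealS σ X := by
  rw [hσ] at hκ
  have hσσ : ∀ z, σ (σ z) = z := fun z => by rw [hσ, hσ]
  have hκ0 : κ ≠ 0 := by
    rintro rfl
    rw [zero_pow (by omega)] at hκ
    exact hD (by simpa using hκ)
  rcases Nat.even_or_odd n with hev | hodd
  · -- even
    obtain ⟨m, hm⟩ := hev
    obtain ⟨k, rfl⟩ : ∃ k, m = k + 1 := ⟨m - 1, by omega⟩
    have hk : 1 ≤ k := by omega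
    obtain rfl : n = 2 * (k + 1) := by omega
    have hcard : 4 ≤ Nat.card {z : F // σ z = z} := by
      rcases h with h | h
      · exfalso
        obtain ⟨j, hj⟩ := h
        omega
      · exact h
    have hcF : 4 ≤ Nat.card F := hcard.trans (Nat.card_le_card_of_injective _
      Subtype.val_injective)
    have hD2 : D ^ 2 = κ ^ (2 * (k + 1)) := by rw [← hκ]; ring
    obtain ⟨lam, hlam, hl1, hl2⟩ := nt_one (k + 1) D κ hκ0 hD2
    have hDD : D * D = lam ^ (2 * k + 2) := by
      rw [← sq, ← hl1]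
      congr 1
    -- case (i)
    have key : D = lam ^ (k + 1) → ∃ X : Matrix (Fin (2 * (k + 1))) (Fin (2 * (k + 1))) F,
        X.det = D ∧ FactS σ X ∧ RealS σ X := by
      intro hDl
      obtain ⟨c, hc0, hc1⟩ : ∃ c : F, c ≠ 0 ∧ c ^ 2 ≠ lam := by
        classical
        have : Fintype F := Fintype.ofFinite F
        by_contra hcon
        push Not at hcon
        have hsub : (Finset.univ : Finset F) ⊆ insert 0 ((Polynomial.X ^ 2 -
            Polynomial.C lam : Polynomial F).roots.toFinset) := by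
          intro x _
          rw [Finset.mem_insert]
          by_cases hx : x = 0
          · exact Or.inl hx
          · right
            rw [Multiset.mem_toFinset, Polynomial.mem_roots']
            constructor
            · exact Polynomial.X_pow_sub_C_ne_zero (by norm_num) lam
            · rw [Polynomial.IsRoot, Polynomial.eval_sub, Polynomial.eval_pow,
                Polynomial.eval_X, Polynomial.eval_C, hcon x hx, sub_self]
        have h1 := Finset.card_le_card hsub
        have h2 : ((Polynomial.X ^ 2 - Polynomial.C lam : Polynomial F).roots.toFinset).card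
            ≤ 2 := by
          refine (Multiset.toFinset_card_le _).trans ?_
          refine (Polynomial.card_roots' _).trans ?_
          rw [Polynomial.natDegree_X_pow_sub_C]
        have h3 := (Finset.card_insert_le (0 : F) ((Polynomial.X ^ 2 -
            Polynomial.C lam : Polynomial F).roots.toFinset))
        rw [Finset.card_univ, ← Nat.card_eq_fintype_card] at h1
        omega
      obtain ⟨s, hs⟩ : ∃ s : F, c ^ (2 * k) + s * c ^ k + lam ^ k ≠ 0 := by
        by_cases h0 : c ^ (2 * k) + lam ^ k = 0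
        · refine ⟨1, ?_⟩
          rw [one_mul, add_right_comm, h0, zero_add]
          exact pow_ne_zero _ hc0
        · refine ⟨0, ?_⟩
          rw [zero_mul, add_zero]
          exact h0
      have hd0 : lam / c ≠ 0 := div_ne_zero hlam hc0
      refine rex_even σ hσ k hk D lam s c (lam / c) hlam hc0 hd0 ?_ hs ?_ ?_ ?_ hDD
      · intro h
        apply hc1
        rw [div_eq_iff hc0] at h
        rw [h]; ring
      · intro h
        apply hs
        have e1 : (c ^ (2 * k) + s * c ^ k + lam ^ k) * lam ^ k =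
            ((lam / c) ^ (2 * k) + s * (lam / c) ^ k + lam ^ k) * c ^ (2 * k) := by
          rw [div_pow, div_pow]
          field_simp
          ring
        rw [h, zero_mul] at e1
        rcases mul_eq_zero.1 e1 with h | h
        · exact h
        · exact absurd h (pow_ne_zero _ hlam)
      · refine re_swap σ hσσ _ lam hlam (cm_re_one σ hσ k hk s lam hlam) c (lam / c) ?_
        rw [hσ, div_mul_cancel₀ _ hc0]
      · rw [mul_assoc, div_mul_cancel₀ _ hc0, hDl, pow_succ]
    rcases hl2 with hl2 | ⟨hl2, r, hr⟩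
    · exact key hl2
    · by_cases h2 : (2 : F) = 0
      · apply key
        rw [hl2]
        have : (2 : F) * lam ^ (k + 1) = 0 := by rw [h2, zero_mul]
        linear_combination -this
      · have hr0 : r ≠ 0 := by
          rintro rfl
          apply hlam
          rw [← hr]; simp
        have hrk : r ^ (2 * k) = lam ^ k := by rw [pow_mul, hr]
        have hrk' : (-r) ^ (2 * k) = lam ^ k := by rw [pow_mul, neg_sq, hr]
        have h2l : lam ^ k + lam ^ k ≠ 0 := by
          rw [← two_mul]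
          exact mul_ne_zero h2 (pow_ne_zero _ hlam)
        refine rex_even σ hσ k hk D lam 0 r (-r) hlam hr0 (neg_ne_zero.2 hr0) ?_ ?_ ?_ ?_ ?_ hDD
        · intro h
          have : (2 : F) * r = 0 := by linear_combination -h
          exact (mul_ne_zero h2 hr0) this
        · rw [hrk, zero_mul, add_zero]; exact h2l
        · rw [hrk', zero_mul, add_zero]; exact h2l
        · refine re_bl σ _ lam (re_bl σ _ lam (cm_re_one σ hσ k hk 0 lam hlam) (-r) 1 one_ne_zero ?_)
            r 1 one_ne_zero ?_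
          · rw [hσ, hσ, ← hr]; ring
          · rw [hσ, hσ, ← hr]; ring
        · rw [hl2, pow_succ, ← hr]; ring
  · -- odd
    obtain ⟨k, rfl⟩ := hodd
    have hk : 1 ≤ k := by omega
    have hκk : κ ^ k ≠ 0 := pow_ne_zero _ hκ0
    have hc0 : D / κ ^ k ≠ 0 := div_ne_zero hD hκk
    have hc2 : (D / κ ^ k) * (D / κ ^ k) = κ := by
      field_simp
      rw [sq, hκ]
      ring
    have hck : (D / κ ^ k) ^ (2 * k) = κ ^ k := by rw [pow_mul, sq, hc2]
    obtain ⟨s, hs⟩ : ∃ s : F, (D / κ ^ k) ^ (2 * k) + s * (D / κ ^ k) ^ k + κ ^ k ≠ 0 := by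
      by_cases h2 : (2 : F) = 0
      · refine ⟨1, ?_⟩
        rw [hck, one_mul]
        have : κ ^ k + (D / κ ^ k) ^ k + κ ^ k = (D / κ ^ k) ^ k := by
          have h3 : (2 : F) * κ ^ k = 0 := by rw [h2, zero_mul]
          linear_combination h3
        rw [this]
        exact pow_ne_zero _ hc0
      · refine ⟨0, ?_⟩
        rw [hck, zero_mul, add_zero, ← two_mul]
        exact mul_ne_zero h2 hκk
    have hdt : (Bl (Cm k (κ ^ k) s) (D / κ ^ k)).det = D := by
      rw [bl_det, cm_det k hk, mul_div_cancel₀ _ hκk]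
    refine rex_reindex σ (ι := Fin (2 * k) ⊕ Unit) (by simp) D
      (Bl (Cm k (κ ^ k) s) (D / κ ^ k)) hdt ?_ ?_
    · refine fact_bl σ (by simp; omega) _ _ ?_ hc0 (cm_cy σ k hk _ _)
        (cm_nc_one σ hσ k hk _ _ _ hs)
      rw [cm_det k hk]
      exact hκk
    · refine real_bl σ _ _ κ hκ0 ?_ ?_
      · refine re_bl σ _ κ (cm_re_one σ hσ k hk s κ hκ0) _ 1 one_ne_zero ?_
        rw [hσ, hσ, mul_one, mul_one, hc2]
      · rw [hdt, hσ, hκ]
        congr 1
        simp

end Pool.Agent.CTC
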