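import Pool.Agent.CTC.Asm
import Pool.Agent.CTC.RBlk
import Pool.Agent.CTC.RCm1
import Pool.Agent.CTC.RCm2
import Pool.Agent.CTC.RNt
import Pool.Agent.CTC.RNt1

/-! CTC REX2: real classes, `σ` of order two, `n` odd (helper26). -/

set_option autoImplicit false

namespace Pool.Agent.CTC

open Matrix

variable {F : Type*} [Field F]

theorem real_ex_odd [Finite F] (σ : F ≃+* F) (hσ : ∀ z, σ (σ z) = z) (h1 : ∃ z, σ z ≠ z) {n : ℕ}
    (hn : 3 ≤ n) (D κ : F) (hD : D ≠ 0) (hκ : D * σ D = κ ^ n) (h : Odd n) :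
    ∃ X : Matrix (Fin n) (Fin n) F, X.det = D ∧ FactS σ X ∧ RealS σ X := by
  obtain ⟨k, hk⟩ := h
  have hk1 : 1 ≤ k := by omega
  have hσD : σ D ≠ 0 := by rwa [map_ne_zero_iff _ σ.injective]
  have hκ0 : κ ≠ 0 := by
    rintro rfl
    rw [zero_pow (by omega)] at hκ
    exact mul_ne_zero hD hσD hκ
  have hσκ0 : σ κ ≠ 0 := by rwa [map_ne_zero_iff _ σ.injective]
  -- `κ ^ n` is fixed
  have hfix : (σ κ) ^ n = κ ^ n := by
    rw [← map_pow, ← hκ, map_mul, hσ, mul_comm]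
  -- the element `t`
  obtain ⟨t, ht, htσ⟩ : ∃ t : F, t * σ t = (κ * σ κ) ^ k ∧ σ t ≠ t := by
    by_cases hc : σ (κ ^ k) = κ ^ k
    · obtain ⟨x, hx, hx2⟩ := nt_two σ hσ h1
      refine ⟨κ ^ k * x, ?_, ?_⟩
      · rw [map_mul, map_pow]
        calc κ ^ k * x * (σ κ ^ k * σ x) = (κ * σ κ) ^ k * (x * σ x) := by rw [mul_pow]; ring
          _ = (κ * σ κ) ^ k := by rw [hx, mul_one]
      · rw [map_mul, hc]
        intro h2
        have h3 : σ x = x := mul_left_cancel₀ (pow_ne_zero k hκ0) h2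
        rw [h3] at hx
        exact hx2 (by rw [sq]; exact hx)
    · refine ⟨κ ^ k, ?_, hc⟩
      rw [map_pow, mul_pow]
  have ht0 : t ≠ 0 := by
    rintro rfl
    rw [zero_mul] at ht
    exact pow_ne_zero k (mul_ne_zero hκ0 hσκ0) ht.symm
  have hσt0 : σ t ≠ 0 := by rwa [map_ne_zero_iff _ σ.injective]
  obtain ⟨c, hcdef⟩ : ∃ c : F, t * c = D := ⟨D / t, by field_simp⟩
  have hc0 : c ≠ 0 := by
    rintro rfl
    rw [mul_zero] at hcdef
    exact hD hcdef.symm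
  have hσc0 : σ c ≠ 0 := by rwa [map_ne_zero_iff _ σ.injective]
  have hcc : (κ * σ κ) ^ k * (c * σ c) = κ ^ n := by
    rw [← ht, ← hκ, ← hcdef, map_mul]
    ring
  have hcc2 : (c * σ c) ^ 2 = κ * σ κ := by
    have h2 : (κ * σ κ) ^ (2 * k) * (c * σ c) ^ 2 = (κ * σ κ) ^ (2 * k) * (κ * σ κ) := by
      calc (κ * σ κ) ^ (2 * k) * (c * σ c) ^ 2 = ((κ * σ κ) ^ k * (c * σ c)) ^ 2 := by ring
        _ = κ ^ n * κ ^ n := by rw [hcc, sq]
        _ = κ ^ n * (σ κ) ^ n := by rw [hfix]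
        _ = (κ * σ κ) ^ (2 * k) * (κ * σ κ) := by rw [← mul_pow, hk, pow_succ]
    exact mul_left_cancel₀ (pow_ne_zero _ (mul_ne_zero hκ0 hσκ0)) h2
  have hccσ : σ (c * σ c) = c * σ c := by rw [map_mul, hσ, mul_comm]
  have htc : t ≠ -(c * σ c) ^ k := by
    intro h2
    apply htσ
    rw [h2, map_neg, map_pow, hccσ]
  -- Hilbert 90
  obtain ⟨z, hz, hzx⟩ := nt_h90 σ hσ h1 (κ / (c * σ c)) (by
    rw [map_div₀, hccσ, div_mul_div_comm, ← sq (c * σ c), hcc2]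
    exact div_self (mul_ne_zero hκ0 hσκ0))
  have hzx' : σ c * z * c = κ * σ z := by
    have h2 : c * σ c ≠ 0 := mul_ne_zero hc0 hσc0
    rw [div_mul_eq_mul_div, div_eq_iff h2] at hzx
    rw [hzx]; ring
  have hdet : (Cm k t 0 : Matrix (Fin (2 * k)) (Fin (2 * k)) F).det = t := cm_det k hk1 t 0
  have hdetB : (Bl (Cm k t 0) c).det = D := by rw [bl_det, hdet, hcdef]
  have hre : Re σ (Bl (Cm k t 0) c) κ :=
    re_bl σ _ κ (cm_re σ hσ k hk1 t κ hκ0 ht) c z hz hzx'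
  have hfact : FactS σ (Bl (Cm k t 0) c) :=
    fact_bl σ (by rw [Fintype.card_fin]; omega) _ c (by rw [hdet]; exact ht0) hc0
      (cm_cy σ k hk1 t 0) (cm_nc σ hσ k hk1 t c htc)
  have hreal : RealS σ (Bl (Cm k t 0) c) :=
    real_bl σ _ c κ hκ0 hre (by rw [hdetB, hκ, Fintype.card_fin, hk])
  have e : Fin n ≃ (Fin (2 * k) ⊕ Unit) := Fintype.equivOfCardEq (by
    rw [Fintype.card_fin, Fintype.card_sum, Fintype.card_fin, Fintype.card_unit, hk])
  exact ⟨(Bl (Cm k t 0) c).submatrix e e, by rw [Matrix.det_submatrix_equiv_self, hdetB],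
    fact_reindex σ e _ hfact, real_reindex σ e _ hreal⟩

end Pool.Agent.CTC
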