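import Pool.Agent.CTC.Asm
import Pool.Agent.CTC.RBlk
import Pool.Agent.CTC.RCm1
import Pool.Agent.CTC.RCm2
import Pool.Agent.CTC.RNt
import Pool.Agent.CTC.RNt1

/-! Existence of real classes, `σ` of order 2, `n` even, case A (helper49; statement by helper47). -/

set_option autoImplicit false

namespace Pool.Agent.CTC

open Matrix

variable {F : Type*} [Field F]

private lemma rex3_reindex [Finite F] (σ : F ≃+* F) {ι : Type} [Fintype ι] [DecidableEq ι] {n : ℕ}
    (hn : Fintype.card ι = n) (D : F) (X : Matrix ι ι F) (hX : X.det = D) (hF : FactS σ X)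
    (hR : RealS σ X) : ∃ X : Matrix (Fin n) (Fin n) F, X.det = D ∧ FactS σ X ∧ RealS σ X := by
  let e : Fin n ≃ ι := (Fintype.equivOfCardEq (by rw [Fintype.card_fin, hn]))
  refine ⟨X.submatrix e e, ?_, fact_reindex σ e X hF, real_reindex σ e X hR⟩
  rw [Matrix.det_submatrix_equiv_self, hX]

/-- a fixed element which is not zero and whose square is not `lam0` -/
private lemma rex3_c0 [Finite F] (σ : F ≃+* F) (lam0 : F)
    (hq : 4 ≤ Nat.card {z : F // σ z = z}) : ∃ c0 : F, σ c0 = c0 ∧ c0 ≠ 0 ∧ c0 ^ 2 ≠ lam0 := by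
  classical
  have : Fintype F := Fintype.ofFinite F
  by_contra hcon
  push Not at hcon
  have hsub : (Finset.univ.filter fun z : F => σ z = z) ⊆ insert 0 ((Polynomial.X ^ 2 -
      Polynomial.C lam0 : Polynomial F).roots.toFinset) := by
    intro x hx
    rw [Finset.mem_filter] at hx
    rw [Finset.mem_insert]
    by_cases hx0 : x = 0
    · exact Or.inl hx0
    · right
      rw [Multiset.mem_toFinset, Polynomial.mem_roots']
      constructor
      · exact Polynomial.X_pow_sub_C_ne_zero (by norm_num) lam0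
      · rw [Polynomial.IsRoot, Polynomial.eval_sub, Polynomial.eval_pow,
          Polynomial.eval_X, Polynomial.eval_C, hcon x hx.2 hx0, sub_self]
  have h1 := Finset.card_le_card hsub
  have h2 : ((Polynomial.X ^ 2 - Polynomial.C lam0 : Polynomial F).roots.toFinset).card
      ≤ 2 := by
    refine (Multiset.toFinset_card_le _).trans ?_
    refine (Polynomial.card_roots' _).trans ?_
    rw [Polynomial.natDegree_X_pow_sub_C]
  have h3 := (Finset.card_insert_le (0 : F) ((Polynomial.X ^ 2 -
      Polynomial.C lam0 : Polynomial F).roots.toFinset))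
  rw [Nat.card_eq_fintype_card, Fintype.card_subtype] at hq
  omega

/-- the construction from `c` with `t = D / (c d)` not fixed -/
private lemma rex3_core [Finite F] (σ : F ≃+* F) (hσ : ∀ z, σ (σ z) = z) (k : ℕ) (hk : 1 ≤ k)
    (D lam c d t : F) (hD : D ≠ 0) (hlam : lam ≠ 0) (hc : c ≠ 0) (hd : d ≠ 0)
    (hcd : d * σ c = lam) (hcc : (c * σ c) ^ 2 ≠ lam * σ lam) (htcd : t * d * c = D)
    (ht : σ t ≠ t) (htt : t * σ t = (lam * σ lam) ^ k)
    (hDD : D * σ D = lam ^ (2 * (k + 1))) :
    ∃ X : Matrix (Fin (2 * (k + 1))) (Fin (2 * (k + 1))) F,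
      X.det = D ∧ FactS σ X ∧ RealS σ X := by
  have ht0 : t ≠ 0 := by
    rintro rfl
    exact ht (map_zero σ)
  have hdt : (Bl (Bl (Cm k t 0) d) c).det = D := by
    rw [bl_det, bl_det, cm_det k hk, htcd]
  have hnc : ∀ x : F, t ≠ -(x * σ x) ^ k := by
    intro x h
    apply ht
    rw [h, map_neg, map_pow, map_mul, hσ, mul_comm (σ x) x]
  refine rex3_reindex σ (ι := (Fin (2 * k) ⊕ Unit) ⊕ Unit) (by simp; ring) D
    (Bl (Bl (Cm k t 0) d) c) hdt ?_ ?_
  · refine fact_bl σ (by simp; omega) _ c ?_ hc ?_ ?_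
    · rw [bl_det, cm_det k hk]
      exact mul_ne_zero ht0 hd
    · exact cy_bl σ _ d hd (cm_cy σ k hk _ _) (cm_nc σ hσ k hk _ _ (hnc d))
    · refine nc_bl σ _ d c (cm_nc σ hσ k hk _ _ (hnc c)) ?_
      have hN : d * σ d ≠ c * σ c := by
        intro h
        apply hcc
        rw [← hcd, map_mul, hσ]
        have : d * σ c * (σ d * c) = (d * σ d) * (c * σ c) := by ring
        rw [this, h]
        ring
      intro y hy
      have hy2 : y * σ y ≠ 0 := mul_ne_zero hy (by
        intro h
        exact hy ((map_eq_zero_iff σ σ.injective).1 h))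
      constructor
      · intro h
        apply hN
        have h2 := congrArg σ h
        rw [map_mul, map_mul, hσ] at h2
        have h3 : (d * σ d) * (y * σ y) = (c * σ c) * (y * σ y) := by
          calc (d * σ d) * (y * σ y) = (d * y) * (σ d * σ y) := by ring
            _ = (c * σ y) * (σ c * y) := by rw [h, h2]
            _ = _ := by ring
        exact mul_right_cancel₀ hy2 h3
      · intro h
        apply hN
        have h2 := congrArg σ h
        rw [map_mul, map_mul, hσ] at h2
        have h3 : (d * σ d) * (y * σ y) = (c * σ c) * (y * σ y) := by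
          calc (d * σ d) * (y * σ y) = (d * σ y) * (σ d * y) := by ring
            _ = (c * y) * (σ c * σ y) := by rw [h, h2]
            _ = _ := by ring
        exact mul_right_cancel₀ hy2 h3
  · refine real_bl σ _ c lam hlam (re_swap σ hσ _ lam hlam (cm_re σ hσ k hk t lam hlam htt) c d hcd) ?_
    rw [hdt, hDD]
    congr 1
    simp
    ring

theorem real_ex_A [Finite F] (σ : F ≃+* F) (hσ : ∀ z, σ (σ z) = z) (h1 : ∃ z, σ z ≠ z) {n h : ℕ}
    (hn : 3 ≤ n) (D κ : F) (hD : D ≠ 0) (hκ : D * σ D = κ ^ n) (hh : n = 2 * h)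
    (hA : σ (κ ^ h) = κ ^ h) (hq : 4 ≤ Nat.card {z : F // σ z = z}) :
    ∃ X : Matrix (Fin n) (Fin n) F, X.det = D ∧ FactS σ X ∧ RealS σ X := by
  have hκ0 : κ ≠ 0 := by
    rintro rfl
    rw [zero_pow (by omega)] at hκ
    rcases mul_eq_zero.1 hκ with h2 | h2
    · exact hD h2
    · exact hD ((map_eq_zero_iff σ σ.injective).1 h2)
  obtain ⟨k, rfl⟩ : ∃ k, h = k + 1 := ⟨h - 1, by omega⟩
  have hk : 1 ≤ k := by omega
  subst hh
  have hσκ0 : σ κ ≠ 0 := fun h => hκ0 ((map_eq_zero_iff σ σ.injective).1 h)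
  have hl0 : κ * σ κ ≠ 0 := mul_ne_zero hκ0 hσκ0
  obtain ⟨c0, hc1, hc2, hc3⟩ := rex3_c0 σ (κ * σ κ) hq
  obtain ⟨c, hc⟩ := nt_norm σ hσ h1 c0 hc1
  have hc0 : c ≠ 0 := by
    rintro rfl
    apply hc2
    rw [← hc, zero_mul]
  have hσ0 : ∀ z : F, z ≠ 0 → σ z ≠ 0 := fun z hz h => hz ((map_eq_zero_iff σ σ.injective).1 h)
  -- the construction for a general `c` with norm `c0`
  have hDD : D * σ D = (κ * σ κ) ^ (k + 1) := by
    rw [hκ, mul_pow, ← map_pow, hA, ← pow_add]
    congr 1
    ring
  have main : ∀ c : F, c * σ c = c0 → c ≠ 0 → σ (D / (c * (κ / σ c))) ≠ D / (c * (κ / σ c)) →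
      ∃ X : Matrix (Fin (2 * (k + 1))) (Fin (2 * (k + 1))) F,
      X.det = D ∧ FactS σ X ∧ RealS σ X := by
    intro c hc hc0 ht
    have hσc := hσ0 c hc0
    refine rex3_core σ hσ k hk D κ c (κ / σ c) (D / (c * (κ / σ c))) hD hκ0 hc0
      (div_ne_zero hκ0 hσc) (div_mul_cancel₀ _ hσc) (by rw [hc]; exact hc3) ?_ ht ?_ hκ
    · field_simp
    · rw [map_div₀, map_mul, map_div₀, hσ]
      have h5 : D / (c * (κ / σ c)) * (σ D / (σ c * (σ κ / c))) = D * σ D / (κ * σ κ) := by
        field_simp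
      rw [h5, hDD, pow_succ, mul_div_cancel_right₀ _ hl0]
  by_cases ht : σ (D / (c * (κ / σ c))) = D / (c * (κ / σ c))
  · obtain ⟨x, hx1, hx2⟩ := nt_four σ hσ h1 hq
    have hx0 : x ≠ 0 := by
      rintro rfl
      rw [zero_mul] at hx1
      exact zero_ne_one hx1
    have hσx : σ x = x⁻¹ := eq_inv_of_mul_eq_one_right hx1
    refine main (c * x) ?_ (mul_ne_zero hc0 hx0) ?_
    · rw [map_mul, ← hc]
      calc c * x * (σ c * σ x) = c * σ c * (x * σ x) := by ring
        _ = _ := by rw [hx1, mul_one]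
    · intro h
      apply hx2
      have hσc := hσ0 c hc0
      set t := D / (c * (κ / σ c)) with htdef
      have ht0 : t ≠ 0 := div_ne_zero hD (mul_ne_zero hc0 (div_ne_zero hκ0 hσc))
      have h6 : D / (c * x * (κ / σ (c * x))) = t / x ^ 2 := by
        rw [htdef, map_mul, hσx]
        field_simp
      rw [h6, map_div₀, ht, map_pow, hσx] at h
      field_simp at h
      have h7 : x ^ 2 * x ^ 2 = 1 := by
        have := h
        first
          | linear_combination h
          | linear_combination -h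
          | exact h
      rw [← h7]
      ring
  · exact main c hc hc0 ht

end Pool.Agent.CTC
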