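import Pool.Agent.CTC.Asm
import Pool.Agent.CTC.RBlk
import Pool.Agent.CTC.RCm1
import Pool.Agent.CTC.RCm2
import Pool.Agent.CTC.RNt
import Pool.Agent.CTC.RNt1

/-! CTC REX4: real classes, `σ` of order two, `n` even, case B1 (helper26). -/

set_option autoImplicit false

namespace Pool.Agent.CTC

open Matrix

variable {F : Type*} [Field F]

theorem real_ex_B1 [Finite F] (σ : F ≃+* F) (hσ : ∀ z, σ (σ z) = z) (h1 : ∃ z, σ z ≠ z) {n h : ℕ}
    (hn : 3 ≤ n) (D κ : F) (hD : D ≠ 0) (hκ : D * σ D = κ ^ n) (hh : n = 2 * h)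
    (hB : σ (κ ^ h) = -κ ^ h) (h2 : (2 : F) ≠ 0) (s : F) (hs : σ s = s) (hs2 : s ^ 2 = κ * σ κ) :
    ∃ X : Matrix (Fin n) (Fin n) F, X.det = D ∧ FactS σ X ∧ RealS σ X := by
  obtain ⟨k, hk⟩ : ∃ k, h = k + 1 := ⟨h - 1, by omega⟩
  have hk1 : 1 ≤ k := by omega
  have hσD : σ D ≠ 0 := by rwa [map_ne_zero_iff _ σ.injective]
  have hκ0 : κ ≠ 0 := by
    rintro rfl
    rw [zero_pow (by omega)] at hκ
    exact mul_ne_zero hD hσD hκ
  have hσκ0 : σ κ ≠ 0 := by rwa [map_ne_zero_iff _ σ.injective]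
  have hs0 : s ≠ 0 := by
    rintro rfl
    rw [zero_pow (by norm_num)] at hs2
    exact mul_ne_zero hκ0 hσκ0 hs2.symm
  -- `D σ D = -(κ σ κ)^h`
  have hDD : D * σ D = -(κ * σ κ) ^ h := by
    rw [hκ, hh, mul_pow, ← map_pow, hB]
    ring
  obtain ⟨c₁, hc₁⟩ := nt_norm σ hσ h1 s hs
  obtain ⟨d, hd⟩ := nt_norm σ hσ h1 (-s) (by rw [map_neg, hs])
  have hc₁0 : c₁ ≠ 0 := by
    rintro rfl
    rw [zero_mul] at hc₁
    exact hs0 hc₁.symm
  have hd0 : d ≠ 0 := by
    rintro rfl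
    rw [zero_mul] at hd
    exact hs0 (neg_eq_zero.1 hd.symm)
  have hσd0 : σ d ≠ 0 := by rwa [map_ne_zero_iff _ σ.injective]
  -- the elements `c` and `t`
  obtain ⟨c, t, hc, hctd, htσ⟩ : ∃ c t : F, c * σ c = s ∧ t * d * c = D ∧ σ t ≠ t := by
    obtain ⟨t₁, ht₁⟩ : ∃ t₁ : F, t₁ * d * c₁ = D := ⟨D / (c₁ * d), by field_simp⟩
    by_cases hc : σ t₁ = t₁
    · obtain ⟨x, hx, hx2⟩ := nt_two σ hσ h1
      have hx0 : x ≠ 0 := by
        rintro rfl
        rw [zero_mul] at hx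
        exact zero_ne_one hx
      have ht₁0 : t₁ ≠ 0 := by
        rintro rfl
        rw [zero_mul, zero_mul] at ht₁
        exact hD ht₁.symm
      refine ⟨c₁ * x, t₁ * σ x, ?_, ?_, ?_⟩
      · rw [map_mul]
        calc c₁ * x * (σ c₁ * σ x) = (c₁ * σ c₁) * (x * σ x) := by ring
          _ = s := by rw [hx, hc₁, mul_one]
      · calc t₁ * σ x * d * (c₁ * x) = (t₁ * d * c₁) * (x * σ x) := by ring
          _ = D := by rw [hx, ht₁, mul_one]
      · rw [map_mul, hσ, hc]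
        intro h3
        have h4 : x = σ x := mul_left_cancel₀ ht₁0 h3
        rw [← h4] at hx
        exact hx2 (by rw [sq]; exact hx)
    · exact ⟨c₁, t₁, hc₁, ht₁, hc⟩
  have hc0 : c ≠ 0 := by
    rintro rfl
    rw [zero_mul] at hc
    exact hs0 hc.symm
  have hσc0 : σ c ≠ 0 := by rwa [map_ne_zero_iff _ σ.injective]
  have ht0 : t ≠ 0 := by
    rintro rfl
    rw [zero_mul, zero_mul] at hctd
    exact hD hctd.symm
  have ht : t * σ t = (κ * σ κ) ^ k := by
    have h3 : D * σ D = (t * σ t) * ((d * σ d) * (c * σ c)) := by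
      rw [← hctd, map_mul, map_mul]; ring
    rw [hDD, hd, hc, hk, pow_succ, ← hs2] at h3
    have h4 : s ^ 2 ≠ 0 := pow_ne_zero 2 hs0
    rw [← hs2]
    apply mul_right_cancel₀ h4
    linear_combination h3
  have hccσ : σ (c * σ c) = c * σ c := by rw [map_mul, hσ, mul_comm]
  have hddσ : σ (d * σ d) = d * σ d := by rw [map_mul, hσ, mul_comm]
  have htc : t ≠ -(c * σ c) ^ k := by
    intro h3
    apply htσ
    rw [h3, map_neg, map_pow, hccσ]
  have htd : t ≠ -(d * σ d) ^ k := by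
    intro h3
    apply htσ
    rw [h3, map_neg, map_pow, hddσ]
  -- Hilbert 90
  obtain ⟨z, hz, hzx⟩ := nt_h90 σ hσ h1 (κ / s) (by
    rw [map_div₀, hs, div_mul_div_comm, ← sq s, hs2]
    exact div_self (mul_ne_zero hκ0 hσκ0))
  have hzx' : σ c * z * c = κ * σ z := by
    rw [div_mul_eq_mul_div, div_eq_iff hs0, ← hc] at hzx
    rw [hzx]; ring
  obtain ⟨w, hw, hwx⟩ := nt_h90 σ hσ h1 (κ / (-s)) (by
    rw [map_div₀, map_neg, hs, div_mul_div_comm, neg_mul_neg, ← sq s, hs2]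
    exact div_self (mul_ne_zero hκ0 hσκ0))
  have hwx' : σ d * w * d = κ * σ w := by
    rw [div_mul_eq_mul_div, div_eq_iff (neg_ne_zero.2 hs0), ← hd] at hwx
    rw [hwx]; ring
  have hdet : (Cm k t 0 : Matrix (Fin (2 * k)) (Fin (2 * k)) F).det = t := cm_det k hk1 t 0
  have hdet1 : (Bl (Cm k t 0) d).det = t * d := by rw [bl_det, hdet]
  have hdetB : (Bl (Bl (Cm k t 0) d) c).det = D := by rw [bl_det, hdet1, hctd]
  have hre : Re σ (Bl (Bl (Cm k t 0) d) c) κ :=
    re_bl σ _ κ (re_bl σ _ κ (cm_re σ hσ k hk1 t κ hκ0 ht) d w hw hwx') c z hz hzx'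
  have hnc : NC σ (Bl (Cm k t 0) d) c := by
    refine nc_bl σ _ d c (cm_nc σ hσ k hk1 t c htc) ?_
    intro y hy
    have hσy : σ y ≠ 0 := by rwa [map_ne_zero_iff _ σ.injective]
    have key : (d * σ d) * (y * σ y) ≠ (c * σ c) * (y * σ y) := by
      rw [hd, hc]
      intro h3
      have h4 : -s = s := mul_right_cancel₀ (mul_ne_zero hy hσy) h3
      have h5 : 2 * s = 0 := by linear_combination -h4
      exact (mul_ne_zero h2 hs0) h5
    constructor
    · intro h3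
      apply key
      have h4 := congrArg σ h3
      rw [map_mul, map_mul, hσ] at h4
      calc (d * σ d) * (y * σ y) = (d * y) * (σ d * σ y) := by ring
        _ = (c * σ y) * (σ c * y) := by rw [h3, h4]
        _ = _ := by ring
    · intro h3
      apply key
      have h4 := congrArg σ h3
      rw [map_mul, map_mul, hσ] at h4
      calc (d * σ d) * (y * σ y) = (d * σ y) * (σ d * y) := by ring
        _ = (c * y) * (σ c * σ y) := by rw [h3, h4]
        _ = _ := by ring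
  have hfact : FactS σ (Bl (Bl (Cm k t 0) d) c) :=
    fact_bl σ (by rw [Fintype.card_sum, Fintype.card_fin]; omega) _ c
      (by rw [hdet1]; exact mul_ne_zero ht0 hd0) hc0
      (cy_bl σ _ d hd0 (cm_cy σ k hk1 t 0) (cm_nc σ hσ k hk1 t d htd)) hnc
  have hreal : RealS σ (Bl (Bl (Cm k t 0) d) c) :=
    real_bl σ _ c κ hκ0 hre (by
      rw [hdetB, hκ, Fintype.card_sum, Fintype.card_fin, Fintype.card_unit, hh, hk]
      congr 1)
  have e : Fin n ≃ ((Fin (2 * k) ⊕ Unit) ⊕ Unit) := Fintype.equivOfCardEq (by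
    rw [Fintype.card_fin, Fintype.card_sum, Fintype.card_sum, Fintype.card_fin,
      Fintype.card_unit, hh, hk]
    omega)
  exact ⟨(Bl (Bl (Cm k t 0) d) c).submatrix e e,
    by rw [Matrix.det_submatrix_equiv_self, hdetB], fact_reindex σ e _ hfact,
    real_reindex σ e _ hreal⟩

end Pool.Agent.CTC
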