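import Pool.Agent.CTC.Asm
import Pool.Agent.CTC.RBlk
import Pool.Agent.CTC.RCm1
import Pool.Agent.CTC.RCm2
import Pool.Agent.CTC.RNt
import Pool.Agent.CTC.RNt1

/-! Existence of real classes, `σ` of order 2, case B2 (module REX5 of CTC). -/

set_option autoImplicit false

namespace Pool.Agent.CTC

open Matrix

variable {F : Type*} [Field F]

namespace RX5

theorem hx_of {σ : F ≃+* F} (hσ : ∀ z, σ (σ z) = z) {x c : F} (h : x * σ x ≠ c * σ c) :
    ∀ y : F, y ≠ 0 → x * y ≠ c * σ y ∧ x * σ y ≠ c * y := by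
  intro y hy
  have hy2 : y * σ y ≠ 0 := mul_ne_zero hy (by simpa using hy)
  constructor
  · intro e
    apply h
    have e2 := congrArg (fun z => z * σ z) e
    simp only [map_mul, hσ] at e2
    exact mul_right_cancel₀ hy2 (by linear_combination e2)
  · intro e
    apply h
    have e2 := congrArg (fun z => z * σ z) e
    simp only [map_mul, hσ] at e2
    exact mul_right_cancel₀ hy2 (by linear_combination e2)

theorem fix_norm {σ : F ≃+* F} (hσ : ∀ z, σ (σ z) = z) (c : F) : σ (c * σ c) = c * σ c := by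
  rw [map_mul, hσ, mul_comm]

/-- `t` is not fixed, `(c σ c)^k` is -/
theorem t_ne {σ : F ≃+* F} (hσ : ∀ z, σ (σ z) = z) (h2 : (2 : F) ≠ 0) {t : F} (ht0 : t ≠ 0)
    (ht : σ t = -t) (k : ℕ) (c : F) : t ≠ -(c * σ c) ^ k := by
  intro e
  have e2 : σ t = t := by
    rw [e, map_neg, map_pow, fix_norm hσ]
  rw [ht] at e2
  have e3 : (2 : F) * t = 0 := by linear_combination -e2
  rcases mul_eq_zero.1 e3 with h | h
  · exact h2 h
  · exact ht0 h

/-- reindexing to `Fin n` -/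
theorem toFin {ι : Type} [Fintype ι] [DecidableEq ι] {σ : F ≃+* F} {n : ℕ}
    (hn : Fintype.card ι = n) {D : F} (X : Matrix ι ι F) (h1 : X.det = D) (h2 : FactS σ X)
    (h3 : RealS σ X) : ∃ X : Matrix (Fin n) (Fin n) F, X.det = D ∧ FactS σ X ∧ RealS σ X := by
  obtain ⟨e⟩ : Nonempty (Fin n ≃ ι) := ⟨Fintype.equivOfCardEq (by rw [Fintype.card_fin, hn])⟩
  exact ⟨X.submatrix e e, by rw [Matrix.det_submatrix_equiv_self, h1], fact_reindex σ e X h2,
    real_reindex σ e X h3⟩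

theorem exists_f [Finite F] {σ : F ≃+* F} (hq : 4 ≤ Nat.card {z : F // σ z = z}) :
    ∃ f : F, σ f = f ∧ f ≠ 0 ∧ f ^ 2 ≠ 1 := by
  classical
  by_contra hcon
  push Not at hcon
  have h1 : ∀ z : {z : F // σ z = z}, z.1 = 0 ∨ z.1 = 1 ∨ z.1 = -1 := by
    intro z
    by_cases h0 : z.1 = 0
    · exact Or.inl h0
    · have h3 := hcon z.1 z.2 h0
      have h4 : (z.1 - 1) * (z.1 + 1) = 0 := by linear_combination h3
      rcases mul_eq_zero.1 h4 with h5 | h5
      · exact Or.inr (Or.inl (sub_eq_zero.1 h5))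
      · exact Or.inr (Or.inr (eq_neg_of_add_eq_zero_left h5))
  have h2 : Set.range (fun z : {z : F // σ z = z} => z.1) ⊆ ({0, 1, -1} : Set F) := by
    rintro _ ⟨z, rfl⟩
    rcases h1 z with h | h | h
    · simp [h]
    · simp [h]
    · simp [h]
  have h3 := Set.ncard_le_ncard h2 (Set.toFinite _)
  have h4 : (Set.range (fun z : {z : F // σ z = z} => z.1)).ncard = Nat.card {z : F // σ z = z} := by
    rw [← Set.image_univ, Set.ncard_image_of_injective _ Subtype.val_injective, Set.ncard_univ]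
  have h5 : ({0, 1, -1} : Set F).ncard ≤ 3 := by
    refine (Set.ncard_insert_le _ _).trans ?_
    have := Set.ncard_insert_le (1 : F) ({-1} : Set F)
    rw [Set.ncard_singleton] at this
    omega
  omega

end RX5

open RX5

theorem real_ex_B2 [Finite F] (σ : F ≃+* F) (hσ : ∀ z, σ (σ z) = z) (h1 : ∃ z, σ z ≠ z) {n h : ℕ}
    (hn : 3 ≤ n) (D κ : F) (hD : D ≠ 0) (hκ : D * σ D = κ ^ n) (hh : n = 2 * h)
    (hB : σ (κ ^ h) = -κ ^ h) (h2 : (2 : F) ≠ 0)
    (hs : ¬ ∃ r, σ r = r ∧ r ^ 2 = κ * σ κ) (hq : 4 ≤ Nat.card {z : F // σ z = z}) :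
    ∃ X : Matrix (Fin n) (Fin n) F, X.det = D ∧ FactS σ X ∧ RealS σ X := by
  classical
  obtain ⟨a, ha, hσa⟩ := nt_sqrt σ hσ h1 (κ * σ κ) (fix_norm hσ κ) hs
  have hσ0 : ∀ {z : F}, z ≠ 0 → σ z ≠ 0 := fun {z} hz => by simpa using hz
  have hκ0 : κ ≠ 0 := by
    rintro rfl
    rw [zero_pow (by omega)] at hκ
    exact mul_ne_zero hD (hσ0 hD) hκ
  have hl0 : κ * σ κ ≠ 0 := mul_ne_zero hκ0 (hσ0 hκ0)
  have ha0 : a ≠ 0 := by
    rintro rfl
    rw [zero_pow (by norm_num)] at ha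
    exact hl0 ha.symm
  -- the norm of `D`
  have hN : D * σ D = -(κ * σ κ) ^ h := by
    have e1 : (κ * σ κ) ^ h = κ ^ h * σ (κ ^ h) := by rw [mul_pow, map_pow]
    rw [e1, hB, hκ, hh, two_mul, pow_add]
    ring
  -- two elements of equal norm with product of norms `lam0`
  have hne : ∀ {c d : F}, c ≠ 0 → d * σ c = κ → d * σ d ≠ c * σ c := by
    intro c d hc hd e
    apply hs
    refine ⟨c * σ c, fix_norm hσ c, ?_⟩
    have e1 : κ * σ κ = (d * σ d) * (c * σ c) := by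
      rw [← hd, map_mul, hσ]; ring
    rw [e1, e, sq]
  obtain ⟨k, rfl⟩ : ∃ k, h = k + 1 := ⟨h - 1, by omega⟩
  have hk : 1 ≤ k := by omega
  rcases Nat.even_or_odd k with hev | hodd
  · -- `k` even
    obtain ⟨m, rfl⟩ : ∃ m, k = m + 1 := ⟨k - 1, by omega⟩
    have hm : Odd m := by
      rcases Nat.even_or_odd m with h3 | h3
      · exact absurd hev (by rw [Nat.not_even_iff_odd]; exact h3.add_one)
      · exact h3
    have hm1 : 1 ≤ m := hm.pos
    obtain ⟨t, rfl⟩ : ∃ t, t = a ^ m := ⟨_, rfl⟩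
    have ht0 : a ^ m ≠ 0 := pow_ne_zero _ ha0
    have ht : σ (a ^ m) = -a ^ m := by rw [map_pow, hσa, hm.neg_pow]
    have ht2 : (a ^ m) ^ 2 = (κ * σ κ) ^ m := by rw [← ha, ← pow_mul, ← pow_mul, mul_comm]
    have hx : D / (a ^ m * κ ^ 2) * σ (D / (a ^ m * κ ^ 2)) = 1 := by
      have e0 : a ^ m * κ ^ 2 ≠ 0 := mul_ne_zero ht0 (pow_ne_zero _ hκ0)
      have e0' : σ (a ^ m * κ ^ 2) ≠ 0 := hσ0 e0
      rw [map_div₀, div_mul_div_comm, div_eq_one_iff_eq (mul_ne_zero e0 e0'), hN]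
      have e1 : a ^ m * κ ^ 2 * σ (a ^ m * κ ^ 2) = -((a ^ m) ^ 2 * (κ * σ κ) ^ 2) := by
        rw [map_mul, ht, map_pow]; ring
      rw [e1, ht2, ← pow_add]
    obtain ⟨w, hw0, hw⟩ := nt_h90 σ hσ h1 _ hx
    -- a good multiple of `w`
    obtain ⟨c, hc0, hc, hc1, hc2⟩ : ∃ c : F, c ≠ 0 ∧ D / (a ^ m * κ ^ 2) * σ c = c ∧
        c * σ c ≠ 1 ∧ c * σ c ≠ κ * σ κ := by
      obtain ⟨f, hf, hf0, hf2⟩ := exists_f hq
      have hsq : ∀ r : F, σ r = r → r ^ 2 ≠ κ * σ κ := fun r hr hr2 => hs ⟨r, hr, hr2⟩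
      by_cases h3 : w * σ w = 1
      · refine ⟨f * w, mul_ne_zero hf0 hw0, ?_, ?_, ?_⟩
        · rw [map_mul, hf]
          calc _ = f * (D / (a ^ m * κ ^ 2) * σ w) := by ring
            _ = f * w := by rw [hw]
        · have e : f * w * σ (f * w) = f ^ 2 := by
            rw [map_mul, hf]
            calc _ = f ^ 2 * (w * σ w) := by ring
              _ = f ^ 2 := by rw [h3, mul_one]
          rw [e]; exact hf2
        · have e : f * w * σ (f * w) = f ^ 2 := by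
            rw [map_mul, hf]
            calc _ = f ^ 2 * (w * σ w) := by ring
              _ = f ^ 2 := by rw [h3, mul_one]
          rw [e]; exact hsq f hf
      · by_cases h4 : w * σ w = κ * σ κ
        · have e : f * w * σ (f * w) = f ^ 2 * (κ * σ κ) := by
            rw [map_mul, hf, ← h4]; ring
          refine ⟨f * w, mul_ne_zero hf0 hw0, ?_, ?_, ?_⟩
          · rw [map_mul, hf]
            calc _ = f * (D / (a ^ m * κ ^ 2) * σ w) := by ring
              _ = f * w := by rw [hw]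
          · rw [e]
            intro h5
            refine hsq f⁻¹ (by rw [map_inv₀, hf]) ?_
            have hf3 : f ^ 2 ≠ 0 := pow_ne_zero _ hf0
            rw [inv_pow]
            exact (eq_inv_of_mul_eq_one_right h5).symm
          · rw [e]
            intro h5
            apply hf2
            exact mul_right_cancel₀ hl0 (by rw [h5, one_mul])
        · exact ⟨w, hw0, hw, h3, h4⟩
    have hσc0 : σ c ≠ 0 := hσ0 hc0
    obtain ⟨d, hd⟩ : ∃ d, d = κ / σ c := ⟨_, rfl⟩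
    have hd0 : d ≠ 0 := by rw [hd]; exact div_ne_zero hκ0 hσc0
    have hdc : d * σ c = κ := by rw [hd]; field_simp
    have hdd : d * σ d * (c * σ c) = κ * σ κ := by
      rw [← hdc, map_mul, hσ]; ring
    have hd1 : d * σ d ≠ 1 := by
      intro e
      rw [e, one_mul] at hdd
      exact hc2 hdd
    have hd2 : d * σ d ≠ κ * σ κ := by
      intro e
      rw [e] at hdd
      apply hc1
      exact mul_left_cancel₀ hl0 (by rw [hdd, mul_one])
    have h1l : κ * σ κ ≠ 1 * σ 1 := by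
      intro e
      exact hs ⟨1, map_one σ, by rw [e, map_one]; ring⟩
    have hone : ∀ {x : F}, x * σ x ≠ 1 → (1 : F) * σ 1 ≠ x * σ x := by
      intro x hx e
      apply hx
      rw [← e, map_one, one_mul]
    have NCc : ∀ x : F, NC σ (Cm m (a ^ m) 0) x := fun x =>
      cm_nc σ hσ m hm1 _ _ (t_ne hσ h2 ht0 ht m x)
    -- the first sum
    have C1 : Cy σ (Bl (Cm m (a ^ m) 0) κ) :=
      cy_bl σ _ _ hκ0 (cm_cy σ m hm1 _ _) (NCc κ)
    have N1 : ∀ x : F, κ * σ κ ≠ x * σ x → NC σ (Bl (Cm m (a ^ m) 0) κ) x := fun x hx =>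
      nc_bl σ _ _ _ (NCc x) (hx_of hσ hx)
    have C2 : Cy σ (Bl (Bl (Cm m (a ^ m) 0) κ) 1) :=
      cy_bl σ _ _ one_ne_zero C1 (N1 1 h1l)
    have N2 : ∀ x : F, κ * σ κ ≠ x * σ x → x * σ x ≠ 1 →
        NC σ (Bl (Bl (Cm m (a ^ m) 0) κ) 1) x := fun x hx hx1 =>
      nc_bl σ _ _ _ (N1 x hx) (hx_of hσ (hone hx1))
    have C3 : Cy σ (Bl (Bl (Bl (Cm m (a ^ m) 0) κ) 1) d) :=
      cy_bl σ _ _ hd0 C2 (N2 d (Ne.symm hd2) hd1)
    have N3 : NC σ (Bl (Bl (Bl (Cm m (a ^ m) 0) κ) 1) d) c :=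
      nc_bl σ _ _ _ (N2 c (Ne.symm hc2) hc1) (hx_of hσ (hne hc0 hdc))
    have hdet3 : (Bl (Bl (Bl (Cm m (a ^ m) 0) κ) 1) d).det = a ^ m * κ * d := by
      rw [bl_det, bl_det, bl_det, cm_det m hm1, mul_one]
    have hdet : (Bl (Bl (Bl (Bl (Cm m (a ^ m) 0) κ) 1) d) c).det = D := by
      rw [bl_det, hdet3, hd]
      have e0 : a ^ m * κ ^ 2 ≠ 0 := mul_ne_zero ht0 (pow_ne_zero _ hκ0)
      have e1 : D * σ c = c * (a ^ m * κ ^ 2) := by
        rw [div_mul_eq_mul_div, div_eq_iff e0] at hc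
        exact hc
      field_simp
      linear_combination -e1
    have R1 : Re σ (Cm m (a ^ m) 0) κ := cm_re_sq σ hσ m hm1 _ _ hκ0 ht2
    have R2 : Re σ (Bl (Bl (Cm m (a ^ m) 0) κ) 1) κ :=
      re_swap σ hσ _ _ hκ0 R1 1 κ (by rw [map_one, mul_one])
    have R3 : Re σ (Bl (Bl (Bl (Bl (Cm m (a ^ m) 0) κ) 1) d) c) κ :=
      re_swap σ hσ _ _ hκ0 R2 c d hdc
    refine toFin ?_ _ hdet (fact_bl σ ?_ _ _ ?_ hc0 C3 N3) (real_bl σ _ _ κ hκ0 R3 ?_)
    · simp only [Fintype.card_sum, Fintype.card_fin, Fintype.card_unit]; omega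
    · simp only [Fintype.card_sum, Fintype.card_fin, Fintype.card_unit]; omega
    · rw [hdet3]
      exact mul_ne_zero (mul_ne_zero ht0 hκ0) hd0
    · rw [hdet, hκ]
      congr 1
      simp only [Fintype.card_sum, Fintype.card_fin, Fintype.card_unit]; omega
  · -- `k` odd
    have ht0 : a ^ k ≠ 0 := pow_ne_zero _ ha0
    have ht : σ (a ^ k) = -a ^ k := by rw [map_pow, hσa, hodd.neg_pow]
    have ht2 : (a ^ k) ^ 2 = (κ * σ κ) ^ k := by rw [← ha, ← pow_mul, ← pow_mul, mul_comm]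
    have hx : D / (a ^ k * κ) * σ (D / (a ^ k * κ)) = 1 := by
      have e0 : a ^ k * κ ≠ 0 := mul_ne_zero ht0 hκ0
      have e0' : σ (a ^ k * κ) ≠ 0 := hσ0 e0
      rw [map_div₀, div_mul_div_comm, div_eq_one_iff_eq (mul_ne_zero e0 e0'), hN]
      have e1 : a ^ k * κ * σ (a ^ k * κ) = -((a ^ k) ^ 2 * (κ * σ κ)) := by
        rw [map_mul, ht]; ring
      rw [e1, ht2, ← pow_succ]
    obtain ⟨c, hc0, hc⟩ := nt_h90 σ hσ h1 _ hx
    have hσc0 : σ c ≠ 0 := hσ0 hc0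
    obtain ⟨d, hd⟩ : ∃ d, d = κ / σ c := ⟨_, rfl⟩
    have hd0 : d ≠ 0 := by rw [hd]; exact div_ne_zero hκ0 hσc0
    have hdc : d * σ c = κ := by rw [hd]; field_simp
    have NCc : ∀ x : F, NC σ (Cm k (a ^ k) 0) x := fun x =>
      cm_nc σ hσ k hk _ _ (t_ne hσ h2 ht0 ht k x)
    have C1 : Cy σ (Bl (Cm k (a ^ k) 0) d) := cy_bl σ _ _ hd0 (cm_cy σ k hk _ _) (NCc d)
    have N1 : NC σ (Bl (Cm k (a ^ k) 0) d) c :=
      nc_bl σ _ _ _ (NCc c) (hx_of hσ (hne hc0 hdc))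
    have hdet1 : (Bl (Cm k (a ^ k) 0) d).det = a ^ k * d := by rw [bl_det, cm_det k hk]
    have hdet : (Bl (Bl (Cm k (a ^ k) 0) d) c).det = D := by
      rw [bl_det, hdet1, hd]
      have e0 : a ^ k * κ ≠ 0 := mul_ne_zero ht0 hκ0
      have e1 : D * σ c = c * (a ^ k * κ) := by
        rw [div_mul_eq_mul_div, div_eq_iff e0] at hc
        exact hc
      field_simp
      linear_combination -e1
    have R1 : Re σ (Cm k (a ^ k) 0) κ := cm_re_sq σ hσ k hk _ _ hκ0 ht2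
    have R2 : Re σ (Bl (Bl (Cm k (a ^ k) 0) d) c) κ := re_swap σ hσ _ _ hκ0 R1 c d hdc
    refine toFin ?_ _ hdet (fact_bl σ ?_ _ _ ?_ hc0 C1 N1) (real_bl σ _ _ κ hκ0 R2 ?_)
    · simp only [Fintype.card_sum, Fintype.card_fin, Fintype.card_unit]; omega
    · simp only [Fintype.card_sum, Fintype.card_fin, Fintype.card_unit]; omega
    · rw [hdet1]
      exact mul_ne_zero ht0 hd0
    · rw [hdet, hκ]
      congr 1
      simp only [Fintype.card_sum, Fintype.card_fin, Fintype.card_unit]; omega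

end Pool.Agent.CTC
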