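import Pool.Agent.CTC.Irr
import Pool.Agent.CTC.Pack2
import Pool.Agent.CTC.REx1
import Pool.Agent.CTC.REx2
import Pool.Agent.CTC.REx3
import Pool.Agent.CTC.REx4
import Pool.Agent.CTC.REx5

/-! The final assembly (helper47). -/

set_option autoImplicit false

namespace Pool.Agent.CTC

open Matrix CosetT Module
open scoped Pointwise

variable {F : Type*} [Field F]

/-- existence of a matrix with prescribed determinant and `FactS` -/
theorem fact_irr [Finite F] (σ : F ≃+* F) {n : ℕ} (hn : 3 ≤ n) (D : F) (hD : D ≠ 0) :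
    ∃ X : Matrix (Fin n) (Fin n) F, X.det = D ∧ FactS σ X := by
  obtain ⟨m, rfl⟩ : ∃ m, n = m + 1 := ⟨n - 1, by omega⟩
  obtain ⟨Θ, hΘ, hΘi, hr⟩ := exists_irr σ m (by omega)
  have hME := sl_eq σ Θ hΘ
  set ME : Matrix (Fin m) (Fin m) F := fun i j => Θ (Pi.single j 1) i
  have hε : ME.det ≠ 0 := det_ne_of_inj σ Θ hΘi ME hME
  have hr' : Irr F (sm σ ME) := by
    intro W hW
    exact hr W (fun w hw => by rw [hME]; exact hW w hw)
  have hD' : ME.det * (ME.det⁻¹ * D) = D := by rw [← mul_assoc, mul_inv_cancel₀ hε, one_mul]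
  have hc : ME.det⁻¹ * D ≠ 0 := mul_ne_zero (inv_ne_zero hε) hD
  have hcy : Cy σ ME := by
    refine ⟨Pi.single ⟨0, by omega⟩ 1, ?_⟩
    intro W heW hW
    rcases hr' W hW with h | h
    · exfalso
      rw [h, Submodule.mem_bot] at heW
      have := congrFun heW ⟨0, by omega⟩
      simp at this
    · exact h
  have hnc : NC σ ME (ME.det⁻¹ * D) := by
    constructor
    · intro l hl
      rcases hr' (LinearMap.ker l) (by
        intro w hw
        rw [LinearMap.mem_ker] at hw ⊢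
        rw [hl, hw, map_zero, mul_zero]) with h | h
      · exfalso
        have h1 := LinearMap.finrank_le_finrank_of_injective (LinearMap.ker_eq_bot.1 h)
        rw [finrank_fin_fun, finrank_self] at h1
        omega
      · exact LinearMap.ker_eq_top.1 h
    · intro w hw
      by_contra hne
      rcases hr' (Submodule.span F {w}) (by
        intro v hv
        obtain ⟨a, rfl⟩ := Submodule.mem_span_singleton.1 hv
        rw [sm_sl, hw, smul_smul]
        exact Submodule.smul_mem _ _ (Submodule.mem_span_singleton_self _)) with h2 | h2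
      · rw [Submodule.span_singleton_eq_bot] at h2
        exact hne h2
      · have h3 := finrank_span_singleton (K := F) hne
        rw [h2, finrank_top, finrank_fin_fun] at h3
        omega
  have h1 := fact_fin σ (by omega) ME (ME.det⁻¹ * D) hε hc hcy hnc
  have hdet : (Bl ME (ME.det⁻¹ * D)).det = D := by
    rw [show Bl ME (ME.det⁻¹ * D) = Mo ME (ME.det⁻¹ * D) from rfl, det_Mo, hD']
  let e : Fin (m + 1) ≃ Fin m ⊕ Unit := (Fintype.equivFinOfCardEq (by simp)).symm
  exact ⟨_, by rw [Matrix.det_submatrix_equiv_self, hdet], fact_reindex σ e _ h1⟩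

/-- existence of a real class -/
theorem real_ex [Finite F] (σ : F ≃+* F) (hσ : ∀ z, σ (σ z) = z) {n : ℕ} (hn : 3 ≤ n) (D κ : F)
    (hD : D ≠ 0) (hκ : D * σ D = κ ^ n) (h : Odd n ∨ 4 ≤ Nat.card {z : F // σ z = z}) :
    ∃ X : Matrix (Fin n) (Fin n) F, X.det = D ∧ FactS σ X ∧ RealS σ X := by
  by_cases h1 : ∀ z, σ z = z
  · exact real_ex_one σ h1 hn D κ hD hκ h
  push Not at h1
  rcases Nat.even_or_odd n with he | ho
  · have hq : 4 ≤ Nat.card {z : F // σ z = z} := by
      rcases h with h | h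
      · exact absurd he (Nat.not_even_iff_odd.2 h)
      · exact h
    obtain ⟨k, hk⟩ := he
    have hk2 : n = 2 * k := by omega
    have hy : (σ (κ ^ k) - κ ^ k) * (σ (κ ^ k) + κ ^ k) = 0 := by
      have e1 : κ ^ k * κ ^ k = D * σ D := by rw [hκ, hk, pow_add]
      have e2 : σ (κ ^ k) * σ (κ ^ k) = D * σ D := by
        rw [← map_mul, e1, map_mul, hσ, mul_comm]
      linear_combination e2 - e1
    rcases mul_eq_zero.1 hy with hA | hB
    · exact real_ex_A σ hσ h1 hn D κ hD hκ hk2 (sub_eq_zero.1 hA) hq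
    · have hB' : σ (κ ^ k) = -κ ^ k := eq_neg_of_add_eq_zero_left hB
      by_cases h2 : (2 : F) = 0
      · refine real_ex_A σ hσ h1 hn D κ hD hκ hk2 ?_ hq
        rw [hB']
        linear_combination -(κ ^ k) * h2
      · by_cases hs : ∃ r, σ r = r ∧ r ^ 2 = κ * σ κ
        · obtain ⟨r, hr, hr2⟩ := hs
          exact real_ex_B1 σ hσ h1 hn D κ hD hκ hk2 hB' h2 r hr hr2
        · exact real_ex_B2 σ hσ h1 hn D κ hD hκ hk2 hB' h2 hs hq
  · exact real_ex_odd σ hσ h1 hn D κ hD hκ ho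

/-- **Main theorem.** -/
theorem main [Finite F] (σ : F ≃+* F) {n : ℕ} (hn : 3 ≤ n) (A : Matrix (Fin n) (Fin n) F)
    (hA : A.det ≠ 0) (α : MulAut (PSLn n F)) (hα : Ind α A σ)
    (h : Odd n ∨ 4 ≤ Nat.card {z : F // σ z = z} ∨ (∃ z, σ (σ z) ≠ z) ∨
      α ^ 2 ∉ Set.range (MulAut.conj : PSLn n F →* MulAut (PSLn n F))) :
    ∃ x ∈ coset α, cls x * cls x = coset (α ^ 2) := by
  by_cases h1 : (∃ z, σ (σ z) ≠ z) ∨
      α ^ 2 ∉ Set.range (MulAut.conj : PSLn n F →* MulAut (PSLn n F))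
  · obtain ⟨X, hX, hF⟩ := fact_irr σ hn A.det hA
    exact pack_eq hn A hA α hα X hX hF (Or.inr h1)
  · push Not at h1
    obtain ⟨h2, g, hg⟩ := h1
    obtain ⟨κ, hκ⟩ := kappa h2 A hA α hα ⟨g, hg⟩
    obtain ⟨X, hX, hF, hR⟩ := real_ex σ h2 hn A.det κ hA hκ (by
      rcases h with h | h | ⟨z, hz⟩ | h
      · exact Or.inl h
      · exact Or.inr h
      · exact absurd (h2 z) hz
      · exact absurd ⟨g, hg⟩ h)
    exact pack_eq hn A hA α hα X hX hF (Or.inl hR)

end Pool.Agent.CTC
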