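import Pool.Agent.CTC.Fin

/-! The field with three elements (helper47): `det A = -1`, the class of
`Cm k 1 0 ⊕ (-1) ⊕ 1`. -/

set_option autoImplicit false

namespace Pool.Agent.CTC

open Matrix CosetT Module
open scoped Pointwise

variable {F : Type*} [Field F]

private lemma reindex3 [Finite F] (σ : F ≃+* F) {ι : Type} [Fintype ι] [DecidableEq ι] {n : ℕ}
    (hn : Fintype.card ι = n) (D : F) (X : Matrix ι ι F) (hX : X.det = D) (hF : FactS σ X)
    (hR : RealS σ X) : ∃ X : Matrix (Fin n) (Fin n) F, X.det = D ∧ FactS σ X ∧ RealS σ X := by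
  let e : Fin n ≃ ι := (Fintype.equivOfCardEq (by rw [Fintype.card_fin, hn]))
  refine ⟨X.submatrix e e, ?_, fact_reindex σ e X hF, real_reindex σ e X hR⟩
  rw [Matrix.det_submatrix_equiv_self, hX]

theorem real_ex_neg [Finite F] (σ : F ≃+* F) (hσ : ∀ z, σ z = z) (k : ℕ) (hk : 1 ≤ k)
    (h2 : (2 : F) ≠ 0) :
    ∃ X : Matrix (Fin (2 * (k + 1))) (Fin (2 * (k + 1))) F,
      X.det = -1 ∧ FactS σ X ∧ RealS σ X := by
  have hdt : (Bl (Bl (Cm k ((1 : F) ^ k) 0) (-1)) 1).det = -1 := by
    rw [bl_det, bl_det, cm_det k hk]; simp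
  have hne : (-1 : F) ≠ 1 := by
    intro h
    apply h2
    linear_combination -h
  refine reindex3 σ (ι := (Fin (2 * k) ⊕ Unit) ⊕ Unit) (by simp; ring) (-1)
    (Bl (Bl (Cm k ((1 : F) ^ k) 0) (-1)) 1) hdt ?_ ?_
  · refine fact_bl σ (by simp; omega) _ 1 ?_ one_ne_zero ?_ ?_
    · rw [bl_det, cm_det k hk]; simp
    · refine cy_bl σ _ (-1) (neg_ne_zero.2 one_ne_zero) (cm_cy σ k hk _ _)
        (cm_nc_one σ hσ k hk _ _ _ ?_)
      intro h
      apply h2
      rw [pow_mul] at h
      simp only [even_two, Even.neg_pow, one_pow, zero_mul, add_zero] at h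
      linear_combination h
    · refine nc_bl σ _ (-1) 1 (cm_nc_one σ hσ k hk _ _ _ ?_) ?_
      · intro h
        apply h2
        simp only [one_pow, zero_mul, add_zero] at h
        linear_combination h
      · intro y hy
        rw [hσ]
        have : (-1) * y ≠ 1 * y := fun h => hne (mul_right_cancel₀ hy h)
        exact ⟨this, this⟩
  · refine real_bl σ _ 1 1 one_ne_zero ?_ ?_
    · refine re_bl σ _ 1 (re_bl σ _ 1 (cm_re_one σ hσ k hk 0 1 one_ne_zero) (-1) 1 one_ne_zero ?_)
        1 1 one_ne_zero ?_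
      · rw [hσ, hσ]; ring
      · simp
    · rw [hdt, hσ]; simp

/-- **Main theorem**, with the field of three elements. -/
theorem main3 [Finite F] (σ : F ≃+* F) {n : ℕ} (hn : 3 ≤ n) (A : Matrix (Fin n) (Fin n) F)
    (hA : A.det ≠ 0) (α : MulAut (PSLn n F)) (hα : Ind α A σ)
    (h : Odd n ∨ 4 ≤ Nat.card {z : F // σ z = z} ∨ (∃ z, σ (σ z) ≠ z) ∨
      α ^ 2 ∉ Set.range (MulAut.conj : PSLn n F →* MulAut (PSLn n F)) ∨
      (Nat.card F = 3 ∧ α ∉ Set.range (MulAut.conj : PSLn n F →* MulAut (PSLn n F)))) :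
    ∃ x ∈ coset α, cls x * cls x = coset (α ^ 2) := by
  by_cases ho : Odd n
  · exact main σ hn A hA α hα (Or.inl ho)
  rcases h with h | h | h | h | ⟨h3, hin⟩
  · exact absurd h ho
  · exact main σ hn A hA α hα (Or.inr (Or.inl h))
  · exact main σ hn A hA α hα (Or.inr (Or.inr (Or.inl h)))
  · exact main σ hn A hA α hα (Or.inr (Or.inr (Or.inr h)))
  · have : Fintype F := Fintype.ofFinite F
    have hc : Fintype.card F = 3 := by rw [← Nat.card_eq_fintype_card, h3]
    have h30 : (3 : F) = 0 := by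
      have h4 := FiniteField.cast_card_eq_zero F
      rw [hc] at h4
      exact_mod_cast h4
    have h2 : (2 : F) ≠ 0 := by
      intro h4
      apply one_ne_zero (α := F)
      linear_combination h30 - h4
    have hall : ∀ z : F, z = 0 ∨ z = 1 ∨ z = -1 := by
      intro z
      by_cases hz : z = 0
      · exact Or.inl hz
      have h5 := FiniteField.pow_card_sub_one_eq_one z hz
      rw [hc] at h5
      have h6 : (z - 1) * (z + 1) = 0 := by linear_combination h5
      rcases mul_eq_zero.1 h6 with h7 | h7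
      · exact Or.inr (Or.inl (sub_eq_zero.1 h7))
      · exact Or.inr (Or.inr (eq_neg_of_add_eq_zero_left h7))
    have hσ : ∀ z, σ z = z := by
      intro z
      rcases hall z with rfl | rfl | rfl <;> simp
    have hdet : A.det = -1 := by
      rcases hall A.det with h | h | h
      · exact absurd h hA
      · exfalso
        apply hin
        have hs : σ = RingEquiv.refl F := by ext z; exact hσ z
        refine ⟨mk ⟨A, h⟩, ?_⟩
        have h5 := ind_conj (⟨A, h⟩ : SpecialLinearGroup (Fin n) F)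
        rw [← hs] at h5
        exact Ind.eq hA h5 hα
      · exact h
    obtain ⟨k, hk⟩ : ∃ k, n = 2 * (k + 1) := by
      obtain ⟨m, hm⟩ := Nat.not_odd_iff_even.1 ho
      exact ⟨m - 1, by omega⟩
    subst hk
    obtain ⟨X, hX, hF, hR⟩ := real_ex_neg σ hσ k (by omega) h2
    exact pack_eq hn A hA α hα X (by rw [hX, hdet]) hF (Or.inl hR)

end Pool.Agent.CTC
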