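import Pool.Agent.CTC.Defs

/-! Irreducible semilinear maps over finite fields. -/

set_option autoImplicit false
set_option linter.all false

namespace Pool.Agent.CTC
open Module Finset

namespace IrrAux

section abs
variable {F R : Type*} [Field F] [CommRing R] [Nontrivial R] (σ : F ≃+* F) (ι : F →+* R)
  (S : R ≃+* R) (d : ℕ)

/-- The partial norm. -/
def P (S : R ≃+* R) (u : R) (j : ℕ) : R := ∏ i ∈ range j, S^[i] u

lemma P_succ (u : R) (j : ℕ) : P S u (j + 1) = u * S (P S u j) := by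
  unfold P
  rw [prod_range_succ', map_prod, mul_comm]
  congr 1
  exact prod_congr rfl fun i _ => Function.iterate_succ_apply' _ _ _

lemma iter_theta (u w : R) (j : ℕ) : (fun r => u * S r)^[j] w = P S u j * S^[j] w := by
  induction j with
  | zero => simp [P]
  | succ j ih =>
    rw [Function.iterate_succ_apply', ih, P_succ, Function.iterate_succ_apply', map_mul]
    ring

/-- Stable ideals. -/
lemma ideal_top (h0 : ∀ w : R, w ≠ 0 → ∃ a : F, IsUnit (∑ j ∈ range d, S^[j] (ι a * w)))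
    (I : Ideal R) (hI : ∀ r ∈ I, S r ∈ I) (hne : I ≠ ⊥) : I = ⊤ := by
  obtain ⟨w, hw, hw0⟩ := (Submodule.ne_bot_iff I).1 hne
  obtain ⟨a, ha⟩ := h0 w hw0
  refine Ideal.eq_top_of_isUnit_mem I ?_ ha
  refine Ideal.sum_mem I fun j _ => ?_
  have : ∀ (j : ℕ) (r : R), r ∈ I → S^[j] r ∈ I := by
    intro j
    induction j with
    | zero => exact fun r hr => hr
    | succ j ih =>
      intro r hr
      rw [Function.iterate_succ_apply']
      exact hI _ (ih r hr)
  exact this j _ (I.mul_mem_left _ hw)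

/-- Hilbert 90. -/
lemma h90 (h0 : ∀ w : R, w ≠ 0 → ∃ a : F, IsUnit (∑ j ∈ range d, S^[j] (ι a * w)))
    (h1 : ∀ c : ℕ → R, c 0 ≠ 0 → ∃ a : F, ∑ j ∈ range d, c j * S^[j] (ι a) ≠ 0)
    (h2 : ∀ r, S^[d] r = r) (u : R) (hu : IsUnit u) (hN : P S u d = 1) :
    ∃ w : R, IsUnit w ∧ u * S w = w := by
  obtain ⟨a, ha⟩ := h1 (P S u) (by simp [P])
  set w := ∑ j ∈ range d, P S u j * S^[j] (ι a) with hw
  have hSw : u * S w = w := by
    have e1 : u * S w = ∑ j ∈ range d, P S u (j + 1) * S^[j + 1] (ι a) := by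
      rw [hw, map_sum, mul_sum]
      refine sum_congr rfl fun j _ => ?_
      rw [P_succ, Function.iterate_succ_apply', map_mul, mul_assoc]
    have e2 := sum_range_succ' (fun j => P S u j * S^[j] (ι a)) d
    have e3 := sum_range_succ (fun j => P S u j * S^[j] (ι a)) d
    rw [e1]
    have e4 : P S u 0 = 1 := by simp [P]
    rw [hN, h2] at e3
    rw [e4] at e2
    simp only [Function.iterate_zero, id_eq] at e2
    rw [e3] at e2
    rw [hw]
    exact (add_right_cancel e2).symm
  refine ⟨w, ?_, hSw⟩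
  have hI := ideal_top ι S d h0 (Ideal.span {w}) (by
    intro r hr
    rw [Ideal.mem_span_singleton] at hr ⊢
    obtain ⟨t, rfl⟩ := hr
    obtain ⟨v, rfl⟩ := hu
    refine ⟨(↑v⁻¹ : R) * S t, ?_⟩
    rw [map_mul]
    have h3 : S w = (↑v⁻¹ : R) * w := by
      calc S w = (↑v⁻¹ : R) * ((v : R) * S w) := by rw [← mul_assoc, Units.inv_mul, one_mul]
        _ = (↑v⁻¹ : R) * w := by rw [hSw]
    rw [h3]
    ring) (by
    intro h
    exact ha (by
      have : w ∈ Ideal.span {w} := Ideal.mem_span_singleton_self w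
      rw [h] at this
      simpa using this))
  exact Ideal.span_singleton_eq_top.1 hI

/-- The norm is onto the fixed units. -/
lemma norm_surj [Finite R]
    (h0 : ∀ w : R, w ≠ 0 → ∃ a : F, IsUnit (∑ j ∈ range d, S^[j] (ι a * w)))
    (h1 : ∀ c : ℕ → R, c 0 ≠ 0 → ∃ a : F, ∑ j ∈ range d, c j * S^[j] (ι a) ≠ 0)
    (h2 : ∀ r, S^[d] r = r) (κ : R) (hκ : IsUnit κ) (hfix : S κ = κ) :
    ∃ u : R, IsUnit u ∧ P S u d = κ := by
  let Su : Rˣ →* Rˣ := (Units.map (S : R →* R))
  have hSu : ∀ (j : ℕ) (v : Rˣ), ((Su^[j] v : Rˣ) : R) = S^[j] (v : R) := by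
    intro j
    induction j with
    | zero => exact fun v => rfl
    | succ j ih =>
      intro v
      rw [Function.iterate_succ_apply', Function.iterate_succ_apply', ← ih]
      rfl
  let N : Rˣ →* Rˣ :=
    { toFun := fun v => ∏ i ∈ range d, Su^[i] v
      map_one' := by
        refine prod_eq_one fun i _ => ?_
        exact iterate_map_one Su i
      map_mul' := fun v w => by
        rw [← prod_mul_distrib]
        exact prod_congr rfl fun i _ => iterate_map_mul Su i v w }
  have hNv : ∀ v : Rˣ, ((N v : Rˣ) : R) = P S (v : R) d := by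
    intro v
    show ((∏ i ∈ range d, Su^[i] v : Rˣ) : R) = _
    rw [Units.coe_prod]
    exact prod_congr rfl fun i _ => hSu i v
  let φ : Rˣ →* Rˣ :=
    { toFun := fun v => v / Su v
      map_one' := by simp
      map_mul' := fun v w => by
        rw [map_mul, mul_div_mul_comm] }
  have hNφ : N.ker ≤ φ.range := by
    intro v hv
    rw [MonoidHom.mem_ker] at hv
    have h3 : P S (v : R) d = 1 := by rw [← hNv, hv]; rfl
    obtain ⟨w, ⟨w', rfl⟩, hw⟩ := h90 ι S d h0 h1 h2 (v : R) v.isUnit h3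
    refine ⟨w', ?_⟩
    show w' / Su w' = v
    rw [div_eq_iff_eq_mul]
    ext
    exact hw.symm
  have hrange : N.range ≤ φ.ker := by
    rintro x ⟨v, rfl⟩
    rw [MonoidHom.mem_ker]
    show N v / Su (N v) = 1
    rw [div_eq_one]
    ext
    have e1 : ((Su (N v) : Rˣ) : R) = S (P S (v : R) d) := by rw [← hNv]; rfl
    rw [e1, hNv]
    -- u * S (P d) = P (d + 1) = P d * S^d u
    have e2 := P_succ S (v : R) d
    have e3 : P S (v : R) (d + 1) = P S (v : R) d * v := by
      unfold P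
      rw [prod_range_succ, h2]
    rw [e3, mul_comm] at e2
    exact v.isUnit.mul_left_cancel e2
  have c1 := φ.ker.card_mul_index
  have c2 := N.ker.card_mul_index
  rw [Subgroup.index_ker] at c1 c2
  have c3 : Nat.card N.ker ≤ Nat.card φ.range := Subgroup.card_le_of_le hNφ
  have c4 : 0 < Nat.card φ.range := Nat.card_pos
  have c5 : Nat.card φ.ker ≤ Nat.card N.range := by
    by_contra hc
    push Not at hc
    have : Nat.card N.ker * Nat.card N.range < Nat.card φ.range * Nat.card φ.ker :=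
      lt_of_le_of_lt (Nat.mul_le_mul_right _ c3) (Nat.mul_lt_mul_of_pos_left hc c4)
    rw [c2, mul_comm, c1] at this
    exact lt_irrefl _ this
  have c6 : N.range = φ.ker := Subgroup.eq_of_le_of_card_ge hrange c5
  obtain ⟨κ', rfl⟩ := hκ
  have h5 : κ' ∈ φ.ker := by
    rw [MonoidHom.mem_ker]
    show κ' / Su κ' = 1
    rw [div_eq_one]
    ext
    exact hfix.symm
  rw [← c6] at h5
  obtain ⟨v, hv⟩ := h5
  exact ⟨v, v.isUnit, by rw [← hNv, hv]⟩

end abs

/-- Independence of the powers of an automorphism. -/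
lemma dedekind {F : Type*} [Field F] (σ : F ≃+* F) (d : ℕ)
    (hinj : ∀ i < d, ∀ j < d, (∀ a, σ^[i] a = σ^[j] a) → i = j) (c : ℕ → F)
    (h : ∀ a : F, ∑ j ∈ range d, c j * σ^[j] a = 0) : ∀ j < d, c j = 0 := by
  have hm : ∀ (j : ℕ), σ^[j] 1 = 1 := fun j => iterate_map_one σ j
  have hmul : ∀ (j : ℕ) (a b : F), σ^[j] (a * b) = σ^[j] a * σ^[j] b :=
    fun j a b => iterate_map_mul σ j a b
  let g : Fin d → (F →* F) := fun j =>
    { toFun := fun a => σ^[(j : ℕ)] a
      map_one' := hm j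
      map_mul' := hmul j }
  have hg : Function.Injective g := by
    intro i j hij
    apply Fin.ext
    refine hinj i i.2 j j.2 fun a => ?_
    exact DFunLike.congr_fun hij a
  have hli := (linearIndependent_monoidHom F F).comp g hg
  rw [Fintype.linearIndependent_iff] at hli
  have h2 := hli (fun j => c j) (by
    ext a
    rw [Finset.sum_apply]
    have h3 := h a
    rw [← Fin.sum_univ_eq_sum_range (fun j => c j * σ^[j] a) d] at h3
    simpa [g] using h3)
  intro j hj
  exact h2 ⟨j, hj⟩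

/-- the fixed field -/
def F0 {F : Type*} [Field F] (σ : F ≃+* F) : Subfield F where
  carrier := {a | σ a = a}
  mul_mem' := fun {a b} ha hb => by
    show σ (a * b) = a * b
    rw [map_mul, show σ a = a from ha, show σ b = b from hb]
  one_mem' := map_one σ
  add_mem' := fun {a b} ha hb => by
    show σ (a + b) = a + b
    rw [map_add, show σ a = a from ha, show σ b = b from hb]
  zero_mem' := map_zero σ
  neg_mem' := fun {a} ha => by
    show σ (-a) = -a
    rw [map_neg, show σ a = a from ha]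
  inv_mem' := fun a ha => by
    show σ (a⁻¹) = a⁻¹
    rw [map_inv₀, show σ a = a from ha]

open TensorProduct

section conc
variable {F : Type*} [Field F] [Finite F] (σ : F ≃+* F) {K : Type*} [Field K] [Finite K]
  [Algebra (F0 σ) K]

/-- `σ` as an automorphism over the fixed field -/
def sE : F ≃ₐ[F0 σ] F := { σ with commutes' := fun r => r.2 }

/-- `σ ⊗ 1` -/
noncomputable def SA (K : Type*) [Field K] [Algebra (F0 σ) K] : (F ⊗[F0 σ] K) ≃+* (F ⊗[F0 σ] K) :=
  (Algebra.TensorProduct.congr (sE σ) (AlgEquiv.refl : K ≃ₐ[F0 σ] K)).toRingEquiv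

lemma SA_tmul (a : F) (y : K) : SA σ K (a ⊗ₜ y) = (σ a) ⊗ₜ y := rfl

lemma SA_smul (a : F) (r : F ⊗[F0 σ] K) : SA σ K (a • r) = σ a • SA σ K r := by
  induction r using TensorProduct.induction_on with
  | zero => rw [smul_zero, map_zero, smul_zero]
  | tmul b y =>
    rw [TensorProduct.smul_tmul', SA_tmul, SA_tmul, TensorProduct.smul_tmul', smul_eq_mul,
      smul_eq_mul, map_mul]
  | add x y hx hy => rw [smul_add, map_add, map_add, smul_add, hx, hy]

lemma SA_one_tmul (y : K) : SA σ K (1 ⊗ₜ y) = 1 ⊗ₜ y := by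
  rw [SA_tmul, map_one]

variable {m : ℕ} (b : Basis (Fin m) (F0 σ) K)

/-- the basis over `F` -/
noncomputable def BB : Basis (Fin m) F (F ⊗[F0 σ] K) := Algebra.TensorProduct.basis F b

lemma BB_apply (i : Fin m) : BB σ b i = 1 ⊗ₜ b i := Algebra.TensorProduct.basis_apply b i

lemma repr_SA (r : F ⊗[F0 σ] K) (i : Fin m) :
    (BB σ b).repr (SA σ K r) i = σ ((BB σ b).repr r i) := by
  have h1 : SA σ K r = ∑ k, σ ((BB σ b).repr r k) • BB σ b k := by
    conv_lhs => rw [← (BB σ b).sum_repr r]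
    rw [map_sum]
    refine sum_congr rfl fun k _ => ?_
    rw [SA_smul, BB_apply, SA_one_tmul]
  rw [h1, map_sum, Finsupp.finset_sum_apply]
  simp only [map_smul, Basis.repr_self, Finsupp.smul_apply, Finsupp.single_apply, smul_eq_mul]
  simp

lemma repr_SA_iter (r : F ⊗[F0 σ] K) (i : Fin m) (j : ℕ) :
    (BB σ b).repr ((SA σ K)^[j] r) i = σ^[j] ((BB σ b).repr r i) := by
  induction j with
  | zero => rfl
  | succ j ih => rw [Function.iterate_succ_apply', Function.iterate_succ_apply', repr_SA, ih]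

include b

lemma SA_iter_d (d : ℕ) (hd : ∀ a, σ^[d] a = a) (r : F ⊗[F0 σ] K) : (SA σ K)^[d] r = r := by
  apply (BB σ b).repr.injective
  ext i
  rw [repr_SA_iter, hd]

/-- fixed elements -/
lemma fixed (r : F ⊗[F0 σ] K) (hr : SA σ K r = r) : ∃ y : K, r = 1 ⊗ₜ y := by
  have h1 : ∀ i, (BB σ b).repr r i ∈ F0 σ := by
    intro i
    show σ _ = _
    rw [← repr_SA, hr]
  refine ⟨∑ i, (⟨_, h1 i⟩ : F0 σ) • b i, ?_⟩
  rw [TensorProduct.tmul_sum]
  conv_lhs => rw [← (BB σ b).sum_repr r]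
  refine sum_congr rfl fun i _ => ?_
  rw [BB_apply, TensorProduct.tmul_smul, TensorProduct.smul_tmul', TensorProduct.smul_tmul']
  rfl

lemma h0' (d : ℕ) (hd0 : 0 < d) (hd : ∀ a, σ^[d] a = a)
    (hinj : ∀ i < d, ∀ j < d, (∀ a, σ^[i] a = σ^[j] a) → i = j)
    (w : F ⊗[F0 σ] K) (hw : w ≠ 0) :
    ∃ a : F, IsUnit (∑ j ∈ range d, (SA σ K)^[j] (algebraMap F (F ⊗[F0 σ] K) a * w)) := by
  obtain ⟨i, hi⟩ : ∃ i, (BB σ b).repr w i ≠ 0 := by
    by_contra hc
    push Not at hc
    apply hw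
    apply (BB σ b).repr.injective
    ext i
    rw [hc i, map_zero]
    rfl
  obtain ⟨c, hc⟩ : ∃ c : F, ∑ j ∈ range d, σ^[j] c ≠ 0 := by
    by_contra hc
    push Not at hc
    have := dedekind σ d hinj (fun _ => 1) (fun a => by simpa using hc a) 0 hd0
    exact one_ne_zero this
  refine ⟨c / (BB σ b).repr w i, ?_⟩
  set a := c / (BB σ b).repr w i with ha
  set t := ∑ j ∈ range d, (SA σ K)^[j] (algebraMap F (F ⊗[F0 σ] K) a * w) with ht
  have haw : ∀ r : F ⊗[F0 σ] K, algebraMap F (F ⊗[F0 σ] K) a * r = a • r := fun r =>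
    (Algebra.smul_def a r).symm
  have hfix : SA σ K t = t := by
    have e1 : SA σ K t = ∑ j ∈ range d, (SA σ K)^[j + 1] (algebraMap F (F ⊗[F0 σ] K) a * w) := by
      rw [ht, map_sum]
      exact sum_congr rfl fun j _ => (Function.iterate_succ_apply' _ _ _).symm
    have e2 := sum_range_succ' (fun j => (SA σ K)^[j] (algebraMap F (F ⊗[F0 σ] K) a * w)) d
    have e3 := sum_range_succ (fun j => (SA σ K)^[j] (algebraMap F (F ⊗[F0 σ] K) a * w)) d
    rw [SA_iter_d σ b d hd] at e3
    rw [e3] at e2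
    rw [e1]
    exact (add_right_cancel e2).symm
  have hti : (BB σ b).repr t i = ∑ j ∈ range d, σ^[j] c := by
    rw [ht, map_sum, Finsupp.finset_sum_apply]
    refine sum_congr rfl fun j _ => ?_
    rw [repr_SA_iter, haw, map_smul, Finsupp.smul_apply, smul_eq_mul, ha, div_mul_cancel₀ _ hi]
  obtain ⟨y, hy⟩ := fixed σ b t hfix
  have hy0 : y ≠ 0 := by
    rintro rfl
    rw [TensorProduct.tmul_zero] at hy
    rw [hy] at hti
    apply hc
    rw [← hti]
    simp
  rw [hy]
  have : IsUnit (Algebra.TensorProduct.includeRight (R := F0 σ) (A := F) y : F ⊗[F0 σ] K) :=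
    (isUnit_iff_ne_zero.2 hy0).map _
  exact this

lemma h1' (d : ℕ) (hd0 : 0 < d)
    (hinj : ∀ i < d, ∀ j < d, (∀ a, σ^[i] a = σ^[j] a) → i = j)
    (c : ℕ → F ⊗[F0 σ] K) (hc : c 0 ≠ 0) :
    ∃ a : F, ∑ j ∈ range d, c j * (SA σ K)^[j] (algebraMap F (F ⊗[F0 σ] K) a) ≠ 0 := by
  obtain ⟨i, hi⟩ : ∃ i, (BB σ b).repr (c 0) i ≠ 0 := by
    by_contra hcc
    push Not at hcc
    apply hc
    apply (BB σ b).repr.injective
    ext i
    rw [hcc i, map_zero]
    rfl
  have hS : ∀ (j : ℕ) (a : F), (SA σ K)^[j] (algebraMap F (F ⊗[F0 σ] K) a) =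
      algebraMap F (F ⊗[F0 σ] K) (σ^[j] a) := by
    intro j a
    induction j with
    | zero => rfl
    | succ j ih =>
      rw [Function.iterate_succ_apply', Function.iterate_succ_apply', ih]
      rfl
  by_contra hall
  push Not at hall
  refine hi (dedekind σ d hinj (fun j => (BB σ b).repr (c j) i) ?_ 0 hd0)
  intro a
  have h1 := hall a
  have h2 : (BB σ b).repr (∑ j ∈ range d, c j * (SA σ K)^[j] (algebraMap F (F ⊗[F0 σ] K) a)) i
      = 0 := by
    rw [h1, map_zero]
    rfl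
  rw [map_sum, Finsupp.finset_sum_apply] at h2
  rw [← h2]
  refine sum_congr rfl fun j _ => ?_
  rw [hS, mul_comm (c j), ← Algebra.smul_def, map_smul, Finsupp.smul_apply, smul_eq_mul, mul_comm]

end conc

/-- invariant subspaces are ideals -/
lemma irr_sub {F : Type*} [Field F] [Finite F] (σ : F ≃+* F) {K : Type*} [Field K] [Finite K]
    [Algebra (F0 σ) K] {m : ℕ} (b : Basis (Fin m) (F0 σ) K) (d : ℕ) (hd0 : 0 < d)
    (hd : ∀ a, σ^[d] a = a) (hinj : ∀ i < d, ∀ j < d, (∀ a, σ^[i] a = σ^[j] a) → i = j)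
    [Nontrivial (F ⊗[F0 σ] K)]
    (g : Kˣ) (hg : ∀ y : Kˣ, y ∈ Submonoid.powers g) (u : F ⊗[F0 σ] K) (hu : IsUnit u)
    (hN : P (SA σ K) u d = 1 ⊗ₜ (g : K)) (W : Submodule F (F ⊗[F0 σ] K))
    (hW : ∀ r ∈ W, u * SA σ K r ∈ W) : W = ⊥ ∨ W = ⊤ := by
  have hκ : ∀ r ∈ W, ((1 : F) ⊗ₜ[F0 σ] (g : K)) * r ∈ W := by
    intro r hr
    have h1 : ∀ j : ℕ, (fun r => u * SA σ K r)^[j] r ∈ W := by
      intro j
      induction j with
      | zero => exact hr
      | succ j ih =>
        rw [Function.iterate_succ_apply']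
        exact hW _ ih
    have h2 := h1 d
    rw [iter_theta, hN, SA_iter_d σ b d hd] at h2
    exact h2
  have hpow : ∀ (k : ℕ) (r : F ⊗[F0 σ] K), r ∈ W →
      ((1 : F) ⊗ₜ[F0 σ] ((g : K) ^ k)) * r ∈ W := by
    intro k
    induction k with
    | zero =>
      intro r hr
      rw [pow_zero, ← Algebra.TensorProduct.one_def, one_mul]
      exact hr
    | succ k ih =>
      intro r hr
      have h3 : ((1 : F) ⊗ₜ[F0 σ] ((g : K) ^ (k + 1))) =
          ((1 : F) ⊗ₜ[F0 σ] ((g : K) ^ k)) * ((1 : F) ⊗ₜ[F0 σ] (g : K)) := by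
        rw [Algebra.TensorProduct.tmul_mul_tmul, one_mul, pow_succ]
      rw [h3, mul_assoc]
      exact ih _ (hκ r hr)
  have hy : ∀ (y : K) (r : F ⊗[F0 σ] K), r ∈ W → ((1 : F) ⊗ₜ[F0 σ] y) * r ∈ W := by
    intro y r hr
    by_cases h0 : y = 0
    · rw [h0, TensorProduct.tmul_zero, zero_mul]
      exact W.zero_mem
    · obtain ⟨k, hk⟩ := hg (Units.mk0 y h0)
      have h4 : (g : K) ^ k = y := by
        have := congrArg (fun z : Kˣ => (z : K)) hk
        simpa using this
      rw [← h4]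
      exact hpow k r hr
  have hall : ∀ (s r : F ⊗[F0 σ] K), r ∈ W → s * r ∈ W := by
    intro s r hr
    induction s using TensorProduct.induction_on with
    | zero => rw [zero_mul]; exact W.zero_mem
    | tmul a y =>
      have h5 : (a ⊗ₜ[F0 σ] y) * r = a • (((1 : F) ⊗ₜ[F0 σ] y) * r) := by
        rw [← smul_mul_assoc, TensorProduct.smul_tmul', smul_eq_mul, mul_one]
      rw [h5]
      exact W.smul_mem _ (hy y r hr)
    | add x y hx hy => rw [add_mul]; exact W.add_mem hx hy
  let I : Ideal (F ⊗[F0 σ] K) :=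
    { carrier := W
      add_mem' := fun {a b} ha hb => W.add_mem ha hb
      zero_mem' := W.zero_mem
      smul_mem' := fun c x hx => hall c x hx }
  have hI : ∀ r, r ∈ I ↔ r ∈ W := fun r => Iff.rfl
  have hS : ∀ r ∈ I, SA σ K r ∈ I := by
    intro r hr
    obtain ⟨v, rfl⟩ := hu
    have h6 : SA σ K r = (↑v⁻¹ : F ⊗[F0 σ] K) * ((v : F ⊗[F0 σ] K) * SA σ K r) := by
      rw [← mul_assoc, Units.inv_mul, one_mul]
    rw [h6]
    exact I.mul_mem_left _ (hW r hr)
  by_cases hbot : I = ⊥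
  · left
    rw [eq_bot_iff]
    intro r hr
    have : r ∈ I := hr
    rw [hbot] at this
    simpa using this
  · right
    have htop := ideal_top (algebraMap F (F ⊗[F0 σ] K)) (SA σ K) d
      (h0' σ b d hd0 hd hinj) I hS hbot
    rw [eq_top_iff]
    intro r _
    have : r ∈ I := by rw [htop]; trivial
    exact this

end IrrAux

open IrrAux TensorProduct in
/-- (IRR) -/
theorem exists_irr {F : Type*} [Field F] [Finite F] (σ : F ≃+* F) (m : ℕ) (hm : 1 ≤ m) :
    ∃ Θ : (Fin m → F) →+ (Fin m → F), SL σ Θ ∧ Function.Injective Θ ∧ Irr F Θ := by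
  classical
  haveI hfa : Finite (F ≃+* F) :=
    Finite.of_injective (fun e : F ≃+* F => (e : F → F)) DFunLike.coe_injective
  have hit : ∀ (j : ℕ) (a : F), (((σ : RingAut F) ^ j : RingAut F) : F ≃+* F) a = σ^[j] a := by
    intro j
    induction j with
    | zero => exact fun a => rfl
    | succ j ih =>
      intro a
      rw [pow_succ', Function.iterate_succ_apply', ← ih]
      rfl
  haveI : Finite (RingAut F) := hfa
  set d := orderOf (σ : RingAut F) with hdd
  have hd0 : 0 < d := orderOf_pos _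
  have hd : ∀ a, σ^[d] a = a := by
    intro a
    rw [← hit, pow_orderOf_eq_one]
    rfl
  have hinj : ∀ i < d, ∀ j < d, (∀ a, σ^[i] a = σ^[j] a) → i = j := by
    intro i hi j hj h
    have h1 : ((σ : RingAut F) ^ i : RingAut F) = (σ : RingAut F) ^ j := by
      apply RingEquiv.ext
      intro a
      exact (hit i a).trans ((h a).trans (hit j a).symm)
    exact pow_injOn_Iio_orderOf hi hj h1
  obtain ⟨p, hp⟩ := CharP.exists F
  haveI := hp
  haveI : Fact p.Prime := ⟨CharP.char_is_prime F p⟩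
  haveI : CharP (F0 σ) p := RingHom.charP (algebraMap (F0 σ) F) (algebraMap (F0 σ) F).injective p
  haveI : NeZero m := ⟨by omega⟩
  let K := FiniteField.Extension (F0 σ) p m
  have hfin : Module.finrank (F0 σ) K = m := FiniteField.finrank_extension (F0 σ) p m
  let b : Basis (Fin m) (F0 σ) K := Module.finBasisOfFinrankEq (F0 σ) K hfin
  haveI : Nontrivial (F ⊗[F0 σ] K) := ⟨⟨BB σ b ⟨0, hm⟩, 0, (BB σ b).ne_zero _⟩⟩
  haveI : Finite (F ⊗[F0 σ] K) := Finite.of_injective _ (BB σ b).equivFun.injective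
  obtain ⟨g, hg⟩ := IsCyclic.exists_monoid_generator (α := Kˣ)
  have hκu : IsUnit ((1 : F) ⊗ₜ[F0 σ] (g : K)) := by
    have : IsUnit (Algebra.TensorProduct.includeRight (R := F0 σ) (A := F) (g : K) :
        F ⊗[F0 σ] K) := g.isUnit.map _
    exact this
  obtain ⟨u, hu, hN⟩ := norm_surj (algebraMap F (F ⊗[F0 σ] K)) (SA σ K) d
    (h0' σ b d hd0 hd hinj) (h1' σ b d hd0 hinj) (SA_iter_d σ b d hd) _ hκu
    (SA_one_tmul σ (g : K))
  let e := (BB σ b).equivFun
  let Θ : (Fin m → F) →+ (Fin m → F) :=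
    { toFun := fun v => e (u * SA σ K (e.symm v))
      map_zero' := by simp
      map_add' := fun v w => by rw [map_add, map_add, mul_add, map_add] }
  have hΘ : ∀ v, Θ v = e (u * SA σ K (e.symm v)) := fun v => rfl
  refine ⟨Θ, ?_, ?_, ?_⟩
  · intro a v
    rw [hΘ, hΘ, map_smul, SA_smul, mul_smul_comm, map_smul]
  · intro v w h
    rw [hΘ, hΘ] at h
    exact e.symm.injective ((SA σ K).injective (hu.mul_left_cancel (e.injective h)))
  · intro W hW
    have h1 := irr_sub σ b d hd0 hd hinj g hg u hu hN (W.comap (e : (F ⊗[F0 σ] K) →ₗ[F] _)) (by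
      intro r hr
      rw [Submodule.mem_comap] at hr ⊢
      have h2 := hW _ hr
      rw [hΘ] at h2
      simpa using h2)
    rcases h1 with h1 | h1
    · left
      rw [eq_bot_iff]
      intro w hw
      have h3 : e.symm w ∈ W.comap (e : (F ⊗[F0 σ] K) →ₗ[F] _) := by
        rw [Submodule.mem_comap]
        simpa using hw
      rw [h1, Submodule.mem_bot] at h3
      rw [Submodule.mem_bot, ← e.apply_symm_apply w, h3, map_zero]
    · right
      rw [eq_top_iff]
      intro w _
      have h3 : e.symm w ∈ W.comap (e : (F ⊗[F0 σ] K) →ₗ[F] _) := by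
        rw [h1]; trivial
      rw [Submodule.mem_comap] at h3
      simpa using h3

end Pool.Agent.CTC
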