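import Pool.Agent.CTC.Defs

/-! Semilinear maps given by matrices (helper47). -/

set_option autoImplicit false

namespace Pool.Agent.CTC

open Module Matrix

variable {F : Type*} [Field F]

/-- the semilinear map of a matrix -/
def sm {ι κ : Type*} [Fintype κ] (σ : F ≃+* F) (M : Matrix ι κ F) : (κ → F) →+ (ι → F) where
  toFun v := M *ᵥ (fun i => σ (v i))
  map_zero' := by
    have : (fun i : κ => σ ((0 : κ → F) i)) = 0 := by ext i; simp
    rw [this, Matrix.mulVec_zero]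
  map_add' v w := by
    have : (fun i : κ => σ ((v + w) i)) = (fun i => σ (v i)) + (fun i => σ (w i)) := by
      ext i; simp
    rw [this, Matrix.mulVec_add]

theorem sm_apply {ι κ : Type*} [Fintype κ] (σ : F ≃+* F) (M : Matrix ι κ F) (v : κ → F) :
    sm σ M v = M *ᵥ (fun i => σ (v i)) := rfl

theorem sm_sl {ι κ : Type*} [Fintype κ] (σ : F ≃+* F) (M : Matrix ι κ F) : SL σ (sm σ M) := by
  intro a v
  rw [sm_apply, sm_apply, ← Matrix.mulVec_smul]
  congr 1
  ext i
  simp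

theorem map_mulVec' {ι κ : Type*} [Fintype κ] (σ : F ≃+* F) (M : Matrix ι κ F) (v : κ → F) :
    (fun i => σ ((M *ᵥ v) i)) = (M.map σ) *ᵥ (fun i => σ (v i)) := by
  ext i
  simp [Matrix.mulVec, dotProduct, map_sum]

theorem sm_sm {ι κ l : Type*} [Fintype κ] [Fintype l] (σ τ : F ≃+* F) (M : Matrix ι κ F)
    (N : Matrix κ l F) (v : l → F) : sm σ M (sm τ N v) = sm (τ.trans σ) (M * N.map σ) v := by
  rw [sm_apply, sm_apply, sm_apply, map_mulVec', Matrix.mulVec_mulVec]
  rfl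

theorem sm_mulVec {ι κ l : Type*} [Fintype κ] [Fintype l] (σ : F ≃+* F) (M : Matrix ι κ F)
    (N : Matrix κ l F) (v : l → F) : sm σ M (N *ᵥ v) = sm σ (M * N.map σ) v := by
  rw [sm_apply, sm_apply, map_mulVec', Matrix.mulVec_mulVec]

theorem mulVec_sm {ι κ l : Type*} [Fintype κ] [Fintype l] (σ : F ≃+* F) (M : Matrix ι κ F)
    (N : Matrix κ l F) (v : l → F) : M *ᵥ (sm σ N v) = sm σ (M * N) v := by
  rw [sm_apply, sm_apply, Matrix.mulVec_mulVec]

theorem sm_injective {ι : Type*} [Fintype ι] [DecidableEq ι] (σ : F ≃+* F) {M : Matrix ι ι F}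
    (hM : M.det ≠ 0) : Function.Injective (sm σ M) := by
  intro v w h
  have h1 := Matrix.mulVec_injective_of_isUnit ((Matrix.isUnit_iff_isUnit_det M).2
    (isUnit_iff_ne_zero.2 hM)) (show M *ᵥ (fun i => σ (v i)) = M *ᵥ (fun i => σ (w i)) from h)
  ext i
  exact σ.injective (congrFun h1 i)

theorem sl_eq {ι κ : Type*} [Fintype κ] [DecidableEq κ] (σ : F ≃+* F) (T : (κ → F) →+ (ι → F))
    (hT : SL σ T) (v : κ → F) :
    T v = sm σ (fun i j => T (Pi.single j 1) i) v := by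
  have h1 : v = ∑ j, v j • (Pi.single j 1 : κ → F) := by
    ext i
    simp [Finset.sum_apply, Pi.single_apply]
  conv_lhs => rw [h1]
  rw [map_sum]
  ext i
  rw [Finset.sum_apply, sm_apply]
  simp only [Matrix.mulVec, dotProduct]
  apply Finset.sum_congr rfl
  intro j _
  rw [hT, Pi.smul_apply, smul_eq_mul, mul_comm]

theorem SL.sum {V W ι : Type*} [AddCommGroup V] [Module F V] [AddCommGroup W] [Module F W]
    {σ : F ≃+* F} {T : V →+ W} (hT : SL σ T) (s : Finset ι) (a : ι → F) (v : ι → V) :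
    T (∑ i ∈ s, a i • v i) = ∑ i ∈ s, σ (a i) • T (v i) := by
  rw [map_sum]
  exact Finset.sum_congr rfl fun i _ => hT _ _

theorem mat_mulVec {ι : Type*} [Fintype ι] (C : ι → ι → F) (x : ι → F) :
    (Mat C) *ᵥ x = ∑ k, x k • C k := by
  ext i
  rw [Finset.sum_apply]
  simp only [Matrix.mulVec, dotProduct, Mat]
  exact Finset.sum_congr rfl fun k _ => mul_comm _ _

/-- the model: `Θ` on the first coordinates, `c` on the last one -/
def Mo {m : ℕ} (ME : Matrix (Fin m) (Fin m) F) (c : F) :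
    Matrix (Fin m ⊕ Unit) (Fin m ⊕ Unit) F := Matrix.fromBlocks ME 0 0 (fun _ _ => c)

theorem det_Mo {m : ℕ} (ME : Matrix (Fin m) (Fin m) F) (c : F) : (Mo ME c).det = ME.det * c := by
  rw [Mo, Matrix.det_fromBlocks_zero₂₁]
  congr 1
  simp [Matrix.det_unique]

theorem Mo_mul {m : ℕ} (M N : Matrix (Fin m) (Fin m) F) (c d : F) :
    Mo M c * Mo N d = Mo (M * N) (c * d) := by
  rw [Mo, Mo, Mo, Matrix.fromBlocks_multiply]
  simp
  ext i j
  simp [Matrix.mul_apply]

theorem Mo_map {m : ℕ} (σ : F ≃+* F) (M : Matrix (Fin m) (Fin m) F) (c : F) :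
    (Mo M c).map σ = Mo (M.map σ) (σ c) := by
  ext i j
  rcases i with i | i <;> rcases j with j | j <;> simp [Mo]

theorem sm_Mo {m : ℕ} (σ : F ≃+* F) (M : Matrix (Fin m) (Fin m) F) (c : F)
    (v : Fin m ⊕ Unit → F) : sm σ (Mo M c) v =
      Sum.elim (sm σ M (fun i => v (Sum.inl i))) (fun _ => c * σ (v (Sum.inr ()))) := by
  ext i
  rw [sm_apply]
  rcases i with i | i
  · simp [Mo, Matrix.mulVec, dotProduct, sm_apply]
  · simp [Mo, Matrix.mulVec, dotProduct]

end Pool.Agent.CTC
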