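import Pool.Agent.Helper49.Coset.Main
import Pool.Agent.CTC.Defs

/-!
# CTC PACK: from matrices to automorphisms of `PSL_n(F)`, `n ≥ 3`

The matrix-level statement `ML σ` (products of two `σ`-conjugates of one matrix) gives the
statement on classes of automorphisms.
-/

set_option autoImplicit false

namespace Pool.Agent.CTC

open Matrix CosetT
open scoped Pointwise

/-- The matrix-level statement: for every size `m + 1 ≥ 3` and every `D ≠ 0` there is a matrix `X`
of determinant `D` such that every matrix `B` of determinant `D σ(D)`, scalar matrices excluded if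
`σ² = 1`, is a product `P σ(Q)` of `σ`-conjugates `P`, `Q` of `X`. -/
def ML {F : Type*} [Field F] (σ : F ≃+* F) : Prop :=
  ∀ m : ℕ, 2 ≤ m → ∀ D : F, D ≠ 0 → ∃ X : Matrix (Fin m ⊕ Unit) (Fin m ⊕ Unit) F, X.det = D ∧
    ∀ B : Matrix (Fin m ⊕ Unit) (Fin m ⊕ Unit) F, B.det = D * σ D →
      ¬ ((∀ z, σ (σ z) = z) ∧ ∃ b : F, B = b • (1 : Matrix (Fin m ⊕ Unit) (Fin m ⊕ Unit) F)) →
      ∃ a b P Q : Matrix (Fin m ⊕ Unit) (Fin m ⊕ Unit) F, a.det = 1 ∧ b.det = 1 ∧
        P * a.map σ = a * X ∧ Q * b.map σ = b * X ∧ B = P * Q.map σ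

/-- `ML` for matrices indexed by `Fin n`, `n ≥ 3` -/
theorem ml_fin {F : Type*} [Field F] {σ : F ≃+* F} (hml : ML σ) {n : ℕ} (hn : 3 ≤ n) {D : F}
    (hD : D ≠ 0) :
    ∃ X : Matrix (Fin n) (Fin n) F, X.det = D ∧
      ∀ B : Matrix (Fin n) (Fin n) F, B.det = D * σ D →
        ¬ ((∀ z, σ (σ z) = z) ∧ ∃ b : F, B = b • (1 : Matrix (Fin n) (Fin n) F)) →
        ∃ a b P Q : Matrix (Fin n) (Fin n) F, a.det = 1 ∧ b.det = 1 ∧
          P * a.map σ = a * X ∧ Q * b.map σ = b * X ∧ B = P * Q.map σ := by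
  obtain ⟨m, rfl⟩ : ∃ m, n = m + 1 := ⟨n - 1, by omega⟩
  obtain ⟨X, hX, h⟩ := hml m (by omega) D hD
  let e : Fin m ⊕ Unit ≃ Fin (m + 1) := (Fintype.equivFinOfCardEq (by simp))
  have hmul : ∀ M N : Matrix (Fin m ⊕ Unit) (Fin m ⊕ Unit) F,
      (M * N).submatrix e.symm e.symm = M.submatrix e.symm e.symm * N.submatrix e.symm e.symm := by
    intro M N
    rw [Matrix.submatrix_mul_equiv]
  have hmap : ∀ M : Matrix (Fin m ⊕ Unit) (Fin m ⊕ Unit) F,
      (M.map σ).submatrix e.symm e.symm = (M.submatrix e.symm e.symm).map σ := fun M => rfl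
  refine ⟨X.submatrix e.symm e.symm, by rw [Matrix.det_submatrix_equiv_self, hX], ?_⟩
  intro B hB hsc
  obtain ⟨a, b, P, Q, ha, hb, hP, hQ, hBPQ⟩ := h (B.submatrix e e)
    (by rw [Matrix.det_submatrix_equiv_self, hB]) (by
      rintro ⟨h1, b, hb⟩
      apply hsc
      refine ⟨h1, b, ?_⟩
      have h2 : B = (B.submatrix e e).submatrix e.symm e.symm := by
        ext i j
        simp
      rw [h2, hb]
      ext i j
      simp [Matrix.one_apply])
  refine ⟨a.submatrix e.symm e.symm, b.submatrix e.symm e.symm, P.submatrix e.symm e.symm,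
    Q.submatrix e.symm e.symm, by rw [Matrix.det_submatrix_equiv_self, ha],
    by rw [Matrix.det_submatrix_equiv_self, hb], ?_, ?_, ?_⟩
  · rw [← hmap, ← hmul, hP, hmul]
  · rw [← hmap, ← hmul, hQ, hmul]
  · rw [← hmap, ← hmul, ← hBPQ]
    ext i j
    simp

/-- an element of `x G` times an element of `x G` -/
theorem mem_cls_mul {G : Type*} [Group G] {x y : MulAut G}
    (h : ∃ u v : G, y = (MulAut.conj u * x * (MulAut.conj u)⁻¹) *
      (MulAut.conj v * x * (MulAut.conj v)⁻¹)) : y ∈ cls x * cls x := by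
  obtain ⟨u, v, rfl⟩ := h
  refine ⟨_, ⟨u⁻¹, rfl⟩, _, ⟨v⁻¹, rfl⟩, ?_⟩
  simp only [map_inv, inv_inv]

/-- an automorphism induced by a scalar matrix and the identity of `F` is the identity -/
theorem eq_one_of_scalar {F : Type*} [Field F] {n : ℕ} {σ : F ≃+* F} (h2 : ∀ z, σ (σ z) = z)
    {b : F} {y : MulAut (PSLn n F)}
    (hb : ((b • (1 : Matrix (Fin n) (Fin n) F)) : Matrix (Fin n) (Fin n) F).det ≠ 0)
    (hb0 : b ≠ 0) (hy : Ind y (b • (1 : Matrix (Fin n) (Fin n) F)) (σ.trans σ)) : y = 1 := by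
  refine Ind.eq hb hy ?_
  intro g g' hg
  have h3 : (g : Matrix (Fin n) (Fin n) F).map (σ.trans σ) = g := by
    ext i j
    exact h2 _
  rw [h3, Matrix.mul_smul, Matrix.smul_mul, mul_one, one_mul] at hg
  have h4 : (g' : Matrix (Fin n) (Fin n) F) = g := smul_right_injective _ hb0 hg
  rw [MulAut.one_apply, show g' = g from Subtype.ext h4]

/-- **PACK.** -/
theorem pack {F : Type*} [Field F] {σ : F ≃+* F} (hml : ML σ) {n : ℕ} (hn : 3 ≤ n)
    (A : Matrix (Fin n) (Fin n) F) (hA : A.det ≠ 0) (α : MulAut (PSLn n F)) (hα : Ind α A σ) :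
    ∃ x ∈ coset α, coset (α ^ 2) \ {1} ⊆ cls x * cls x ∧ cls x * cls x ⊆ coset (α ^ 2) ∧
      (((∃ z, σ (σ z) ≠ z) ∨ α ^ 2 ∉ Set.range (MulAut.conj : PSLn n F →* MulAut (PSLn n F))) →
        cls x * cls x = coset (α ^ 2)) := by
  obtain ⟨X, hXdet, hX⟩ := ml_fin hml hn hA
  have hX0 : X.det ≠ 0 := by rw [hXdet]; exact hA
  set W : Matrix (Fin n) (Fin n) F := (A⁻¹ * X).map σ.symm with hW
  have hWdet : W.det = 1 := by
    rw [hW, map_det', Matrix.det_mul, Matrix.det_nonsing_inv, hXdet, Ring.inverse_eq_inv',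
      inv_mul_cancel₀ hA, map_one]
  have hWσ : A * W.map σ = X := by
    have e1 : W.map σ = A⁻¹ * X := by
      ext i j; rw [hW, Matrix.map_apply, Matrix.map_apply, RingEquiv.apply_symm_apply]
    rw [e1, ← mul_assoc, Matrix.mul_nonsing_inv _ (isUnit_iff_ne_zero.2 hA), one_mul]
  set w0 : SpecialLinearGroup (Fin n) F := ⟨W, hWdet⟩ with hw0'
  have hxInd : Ind (α * MulAut.conj (mk w0)) X σ := by
    have h1 := Ind.mul hA (det_one_ne hWdet) hα (ind_conj w0)
    have e1 : A * (w0 : Matrix (Fin n) (Fin n) F).map σ = X := hWσ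
    have e2 : (RingEquiv.refl F).trans σ = σ := by ext z; rfl
    rw [e1, e2] at h1
    exact h1
  have hx : α * MulAut.conj (mk w0) ∈ coset α := ⟨mk w0, rfl⟩
  -- the main point
  have key : ∀ y ∈ coset (α ^ 2), ((∃ z, σ (σ z) ≠ z) ∨ y ≠ 1) →
      y ∈ cls (α * MulAut.conj (mk w0)) * cls (α * MulAut.conj (mk w0)) := by
    rintro y ⟨g0, rfl⟩ hy1
    obtain ⟨g0, rfl⟩ := mk_surj g0
    have h1 := Ind.mul hA hA hα hα
    have hAA : (A * A.map σ).det ≠ 0 := by
      rw [Matrix.det_mul, map_det']; exact mul_ne_zero hA (by simpa using hA)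
    have h2 := Ind.mul hAA (det_one_ne g0.2) h1 (ind_conj g0)
    have e2 : (RingEquiv.refl F).trans (σ.trans σ) = σ.trans σ := by ext z; rfl
    rw [e2, ← pow_two] at h2
    set B := A * A.map σ * (g0 : Matrix (Fin n) (Fin n) F).map (σ.trans σ) with hB
    have hBdet : B.det = A.det * σ A.det := by
      rw [hB, Matrix.det_mul, Matrix.det_mul, map_det', map_det', g0.2, map_one, mul_one]
    have hB0 : B.det ≠ 0 := by
      rw [hBdet]; exact mul_ne_zero hA (by simpa using hA)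
    have hsc : ¬ ((∀ z, σ (σ z) = z) ∧ ∃ b : F, B = b • (1 : Matrix (Fin n) (Fin n) F)) := by
      rintro ⟨h3, b, hb⟩
      rcases hy1 with ⟨z, hz⟩ | hy1
      · exact hz (h3 z)
      · apply hy1
        have hb0 : b ≠ 0 := by
          rintro rfl
          have : Nonempty (Fin n) := ⟨⟨0, by omega⟩⟩
          apply hB0
          rw [hb, zero_smul, Matrix.det_zero]
        rw [hb] at h2 hB0
        exact eq_one_of_scalar h3 hB0 hb0 h2
    obtain ⟨a, b, P, Q, ha, hb, hP, hQ, hBPQ⟩ := hX B hBdet hsc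
    apply mem_cls_mul
    refine aut_level (g := 1) hX0 hxInd h2 (by simp) ⟨a, ha, hP⟩ ⟨b, hb, hQ⟩ ?_
    rw [Matrix.map_one _ (map_zero _) (map_one _), mul_one, one_mul, hBPQ]
  refine ⟨α * MulAut.conj (mk w0), hx, ?_, cls_mul_subset hx, ?_⟩
  · rintro y ⟨hy, hy1⟩
    exact key y hy (Or.inr hy1)
  · intro h
    apply Set.Subset.antisymm (cls_mul_subset hx)
    intro y hy
    refine key y hy ?_
    rcases h with h | h
    · exact Or.inl h
    · right
      rintro rfl
      apply h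
      obtain ⟨g, hg⟩ := hy
      refine ⟨g⁻¹, ?_⟩
      rw [map_inv]
      exact (eq_inv_of_mul_eq_one_left hg.symm).symm

end Pool.Agent.CTC
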