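import Pool.Agent.CTC.Pack

/-!
# CTC PACKS: from matrices to automorphisms of `PSL_n(F)`, `n ≥ 3`, sharper form

As `Pack`, from a matrix-level statement for one determinant up to `n`-th powers, with the identity
as a product for odd `n`.
-/

set_option autoImplicit false

namespace Pool.Agent.CTC

open Matrix CosetT
open scoped Pointwise

/-- The matrix-level statement for the size `m + 1` and the determinant `D`: for some `μ ≠ 0` there is
a matrix `X` of determinant `D μ^(m+1)` such that every matrix `B` of determinant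
`det X · σ(det X)`, scalar matrices excluded if `σ² = 1`, is a product `P σ(Q)` of `σ`-conjugates
`P`, `Q` of `X`; and if `m` is even, `σ² = 1` and `D σ(D)` is an `(m+1)`-th power, some scalar matrix is
`P σ(X)` with a `σ`-conjugate `P` of `X`. -/
def MLS {F : Type*} [Field F] (σ : F ≃+* F) (m : ℕ) (D : F) : Prop :=
  ∃ (μ : F) (X : Matrix (Fin m ⊕ Unit) (Fin m ⊕ Unit) F), μ ≠ 0 ∧ X.det = D * μ ^ (m + 1) ∧
    (∀ B : Matrix (Fin m ⊕ Unit) (Fin m ⊕ Unit) F, B.det = X.det * σ X.det →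
      ¬ ((∀ z, σ (σ z) = z) ∧ ∃ b : F, B = b • (1 : Matrix (Fin m ⊕ Unit) (Fin m ⊕ Unit) F)) →
      ∃ a b P Q : Matrix (Fin m ⊕ Unit) (Fin m ⊕ Unit) F, a.det = 1 ∧ b.det = 1 ∧
        P * a.map σ = a * X ∧ Q * b.map σ = b * X ∧ B = P * Q.map σ) ∧
    (Even m → (∀ z, σ (σ z) = z) → (∃ κ : F, κ ≠ 0 ∧ D * σ D = κ ^ (m + 1)) →
      ∃ (g P : Matrix (Fin m ⊕ Unit) (Fin m ⊕ Unit) F) (lam : F), g.det = 1 ∧ lam ≠ 0 ∧
        P * g.map σ = g * X ∧
        P * X.map σ = lam • (1 : Matrix (Fin m ⊕ Unit) (Fin m ⊕ Unit) F))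

/-- `MLS` for matrices indexed by `Fin (m + 1)` -/
theorem mls_fin {F : Type*} [Field F] {σ : F ≃+* F} {m : ℕ} {D : F} (hml : MLS σ m D) :
    ∃ (μ : F) (X : Matrix (Fin (m + 1)) (Fin (m + 1)) F), μ ≠ 0 ∧ X.det = D * μ ^ (m + 1) ∧
      (∀ B : Matrix (Fin (m + 1)) (Fin (m + 1)) F, B.det = X.det * σ X.det →
        ¬ ((∀ z, σ (σ z) = z) ∧ ∃ b : F, B = b • (1 : Matrix (Fin (m + 1)) (Fin (m + 1)) F)) →
        ∃ a b P Q : Matrix (Fin (m + 1)) (Fin (m + 1)) F, a.det = 1 ∧ b.det = 1 ∧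
          P * a.map σ = a * X ∧ Q * b.map σ = b * X ∧ B = P * Q.map σ) ∧
      (Even m → (∀ z, σ (σ z) = z) → (∃ κ : F, κ ≠ 0 ∧ D * σ D = κ ^ (m + 1)) →
        ∃ (g P : Matrix (Fin (m + 1)) (Fin (m + 1)) F) (lam : F), g.det = 1 ∧ lam ≠ 0 ∧
          P * g.map σ = g * X ∧
          P * X.map σ = lam • (1 : Matrix (Fin (m + 1)) (Fin (m + 1)) F)) := by
  obtain ⟨μ, X, hμ, hX, h, h'⟩ := hml
  let e : Fin m ⊕ Unit ≃ Fin (m + 1) := (Fintype.equivFinOfCardEq (by simp))
  have hmul : ∀ M N : Matrix (Fin m ⊕ Unit) (Fin m ⊕ Unit) F,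
      (M * N).submatrix e.symm e.symm = M.submatrix e.symm e.symm * N.submatrix e.symm e.symm := by
    intro M N
    rw [Matrix.submatrix_mul_equiv]
  have hmap : ∀ M : Matrix (Fin m ⊕ Unit) (Fin m ⊕ Unit) F,
      (M.map σ).submatrix e.symm e.symm = (M.submatrix e.symm e.symm).map σ := fun M => rfl
  have hsc : ∀ b : F, (b • (1 : Matrix (Fin m ⊕ Unit) (Fin m ⊕ Unit) F)).submatrix e.symm e.symm =
      b • (1 : Matrix (Fin (m + 1)) (Fin (m + 1)) F) := by
    intro b
    ext i j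
    simp [Matrix.one_apply]
  refine ⟨μ, X.submatrix e.symm e.symm, hμ, by rw [Matrix.det_submatrix_equiv_self, hX], ?_, ?_⟩
  · intro B hB hns
    rw [Matrix.det_submatrix_equiv_self] at hB
    have h2 : B = (B.submatrix e e).submatrix e.symm e.symm := by
      ext i j
      simp
    obtain ⟨a, b, P, Q, ha, hb, hP, hQ, hBPQ⟩ := h (B.submatrix e e)
      (by rw [Matrix.det_submatrix_equiv_self, hB]) (by
        rintro ⟨h1, b, hb⟩
        apply hns
        refine ⟨h1, b, ?_⟩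
        rw [h2, hb, hsc])
    refine ⟨a.submatrix e.symm e.symm, b.submatrix e.symm e.symm, P.submatrix e.symm e.symm,
      Q.submatrix e.symm e.symm, by rw [Matrix.det_submatrix_equiv_self, ha],
      by rw [Matrix.det_submatrix_equiv_self, hb], ?_, ?_, ?_⟩
    · rw [← hmap, ← hmul, hP, hmul]
    · rw [← hmap, ← hmul, hQ, hmul]
    · rw [← hmap, ← hmul, ← hBPQ]
      exact h2
  · intro hm h2 hκ
    obtain ⟨g, P, lam, hg, hl, h3, h4⟩ := h' hm h2 hκ
    refine ⟨g.submatrix e.symm e.symm, P.submatrix e.symm e.symm, lam,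
      by rw [Matrix.det_submatrix_equiv_self, hg], hl, ?_, ?_⟩
    · rw [← hmap, ← hmul, h3, hmul]
    · rw [← hmap, ← hmul, h4, hsc]

/-- the identity is induced by every nonzero scalar matrix -/
theorem ind_one_scalar {F : Type*} [Field F] {n : ℕ} {σ : F ≃+* F} (h2 : ∀ z, σ (σ z) = z)
    {b : F} (hb0 : b ≠ 0) :
    Ind (1 : MulAut (PSLn n F)) (b • (1 : Matrix (Fin n) (Fin n) F)) (σ.trans σ) := by
  intro g g' hg
  have h3 : (g : Matrix (Fin n) (Fin n) F).map (σ.trans σ) = g := by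
    ext i j
    exact h2 _
  rw [h3, Matrix.mul_smul, Matrix.smul_mul, mul_one, one_mul] at hg
  have h4 : (g' : Matrix (Fin n) (Fin n) F) = g := smul_right_injective _ hb0 hg
  rw [MulAut.one_apply, show g' = g from Subtype.ext h4]

/-- **PACKS.** -/
theorem packS {F : Type*} [Field F] {σ : F ≃+* F} {m : ℕ}
    (A : Matrix (Fin (m + 1)) (Fin (m + 1)) F) (hA : A.det ≠ 0) (hml : MLS σ m A.det)
    (α : MulAut (PSLn (m + 1) F)) (hα : Ind α A σ) :
    ∃ x ∈ coset α, coset (α ^ 2) \ {1} ⊆ cls x * cls x ∧ cls x * cls x ⊆ coset (α ^ 2) ∧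
      ((Odd (m + 1) ∨ (∃ z, σ (σ z) ≠ z) ∨
          α ^ 2 ∉ Set.range (MulAut.conj : PSLn (m + 1) F →* MulAut (PSLn (m + 1) F))) →
        cls x * cls x = coset (α ^ 2)) := by
  obtain ⟨μ, X, hμ0, hXdet, hX, hX1⟩ := mls_fin hml
  have hX0 : X.det ≠ 0 := by rw [hXdet]; exact mul_ne_zero hA (pow_ne_zero _ hμ0)
  set W : Matrix (Fin (m + 1)) (Fin (m + 1)) F := (μ⁻¹ • (A⁻¹ * X)).map σ.symm with hW
  have hWdet : W.det = 1 := by
    rw [hW, map_det', Matrix.det_smul, Matrix.det_mul, Matrix.det_nonsing_inv, hXdet,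
      Fintype.card_fin, Ring.inverse_eq_inv']
    have : μ⁻¹ ^ (m + 1) * (A.det⁻¹ * (A.det * μ ^ (m + 1))) = 1 := by
      rw [inv_pow]
      have := pow_ne_zero (m + 1) hμ0
      field_simp
    rw [this, map_one]
  have hWσ : A * W.map σ = μ⁻¹ • X := by
    have e1 : W.map σ = μ⁻¹ • (A⁻¹ * X) := by
      ext i j; rw [hW, Matrix.map_apply, Matrix.map_apply, RingEquiv.apply_symm_apply]
    rw [e1, Matrix.mul_smul, ← mul_assoc, Matrix.mul_nonsing_inv _ (isUnit_iff_ne_zero.2 hA), one_mul]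
  set w0 : SpecialLinearGroup (Fin (m + 1)) F := ⟨W, hWdet⟩ with hw0'
  have hxInd : Ind (α * MulAut.conj (mk w0)) X σ := by
    have h1 := Ind.mul hA (det_one_ne hWdet) hα (ind_conj w0)
    have h2 := Ind.smul h1 hμ0
    have e1 : μ • (A * (w0 : Matrix (Fin (m + 1)) (Fin (m + 1)) F).map σ) = X := by
      show μ • (A * W.map σ) = X
      rw [hWσ, smul_smul, mul_inv_cancel₀ hμ0, one_smul]
    have e2 : (RingEquiv.refl F).trans σ = σ := by ext z; rfl
    rw [e1, e2] at h2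
    exact h2
  have hx : α * MulAut.conj (mk w0) ∈ coset α := ⟨mk w0, rfl⟩
  have hμσ : μ * σ μ ≠ 0 := mul_ne_zero hμ0 (by simpa using hμ0)
  -- the main point
  have key : ∀ y ∈ coset (α ^ 2), (Odd (m + 1) ∨ (∃ z, σ (σ z) ≠ z) ∨ y ≠ 1) →
      y ∈ cls (α * MulAut.conj (mk w0)) * cls (α * MulAut.conj (mk w0)) := by
    rintro y ⟨g0, rfl⟩ hy1
    obtain ⟨g0, rfl⟩ := mk_surj g0
    have h1 := Ind.mul hA hA hα hα
    have hAA : (A * A.map σ).det ≠ 0 := by
      rw [Matrix.det_mul, map_det']; exact mul_ne_zero hA (by simpa using hA)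
    have h2 := Ind.mul hAA (det_one_ne g0.2) h1 (ind_conj g0)
    have h3 := Ind.smul h2 hμσ
    have e2 : (RingEquiv.refl F).trans (σ.trans σ) = σ.trans σ := by ext z; rfl
    rw [e2, ← pow_two] at h3
    set B := (μ * σ μ) • (A * A.map σ *
      (g0 : Matrix (Fin (m + 1)) (Fin (m + 1)) F).map (σ.trans σ)) with hB
    have hBdet : B.det = X.det * σ X.det := by
      rw [hB, Matrix.det_smul, Matrix.det_mul, Matrix.det_mul, map_det', map_det', g0.2, map_one,
        mul_one, Fintype.card_fin, hXdet, map_mul, map_pow]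
      ring
    have hB0 : B.det ≠ 0 := by
      rw [hBdet]; exact mul_ne_zero hX0 (by simpa using hX0)
    by_cases hsc : (∀ z, σ (σ z) = z) ∧
        ∃ b : F, B = b • (1 : Matrix (Fin (m + 1)) (Fin (m + 1)) F)
    · obtain ⟨hσ2, b, hb⟩ := hsc
      have hb0 : b ≠ 0 := by
        rintro rfl
        apply hB0
        rw [hb, zero_smul, Matrix.det_zero]
      have hy : α ^ 2 * MulAut.conj (mk g0) = 1 := by
        rw [hb] at h3 hB0
        exact eq_one_of_scalar hσ2 hB0 hb0 h3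
      rcases hy1 with hodd | ⟨z, hz⟩ | hy1
      · have hev : Even m := by
          rcases Nat.even_or_odd m with h | h
          · exact h
          · exact absurd hodd (Nat.not_odd_iff_even.2 h.add_one)
        have hκ : A.det * σ A.det = (b / (μ * σ μ)) ^ (m + 1) := by
          have h4 : b ^ (m + 1) = X.det * σ X.det := by
            rw [← hBdet, hb, Matrix.det_smul, Matrix.det_one, mul_one, Fintype.card_fin]
          rw [div_pow, h4, hXdet, map_mul, map_pow, mul_pow, eq_div_iff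
            (mul_ne_zero (pow_ne_zero _ hμ0) (pow_ne_zero _ (by simpa using hμ0)))]
          ring
        obtain ⟨g, P, lam, hg, hl, hP, hPX⟩ := hX1 hev hσ2
          ⟨b / (μ * σ μ), div_ne_zero hb0 hμσ, hκ⟩
        apply mem_cls_mul
        rw [hy]
        refine aut_level (g := 1) hX0 hxInd (ind_one_scalar hσ2 hl) (by simp) ⟨g, hg, hP⟩
          (Q := X) ⟨1, by simp, ?_⟩ ?_
        · rw [Matrix.map_one _ (map_zero _) (map_one _), mul_one, one_mul]
        · rw [Matrix.map_one _ (map_zero _) (map_one _), mul_one, one_mul, hPX]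
      · exact absurd (hσ2 z) hz
      · exact absurd hy hy1
    · obtain ⟨a, b, P, Q, ha, hb, hP, hQ, hBPQ⟩ := hX B hBdet hsc
      apply mem_cls_mul
      refine aut_level (g := 1) hX0 hxInd h3 (by simp) ⟨a, ha, hP⟩ ⟨b, hb, hQ⟩ ?_
      rw [Matrix.map_one _ (map_zero _) (map_one _), mul_one, one_mul, hBPQ]
  refine ⟨α * MulAut.conj (mk w0), hx, ?_, cls_mul_subset hx, ?_⟩
  · rintro y ⟨hy, hy1⟩
    exact key y hy (Or.inr (Or.inr hy1))
  · intro h
    apply Set.Subset.antisymm (cls_mul_subset hx)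
    intro y hy
    refine key y hy ?_
    rcases h with h | h | h
    · exact Or.inl h
    · exact Or.inr (Or.inl h)
    · right
      right
      rintro rfl
      apply h
      obtain ⟨g, hg⟩ := hy
      refine ⟨g⁻¹, ?_⟩
      rw [map_inv]
      exact (eq_inv_of_mul_eq_one_left hg.symm).symm

end Pool.Agent.CTC
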